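import Mathlib

/-! MP_75f39d_co, at most three generators per element, part A (several modules joined). -/

section S_Defs

/-!
# MP_75f39d_G3 : definitions of the discharging (see /team-store/H70_75f39d_G3.md)

`E` is a finite hypergraph of rank at most three on `V`; `Dset E` is the family of all unions of edges.
`dep E S y p` : `y` depends on `p` in `S` (every edge at `y` inside `S` contains `p`).
`Dm E w v` : `v` dominates `w`.  `isC` centres, `isW` dominated vertices, `isL` loops, `isR` the others.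
-/

open Finset Classical

universe u

namespace H70G3

section basic
variable {V : Type u} [Fintype V] [DecidableEq V]

/-- `S` is a union of edges -/
def isD (E : Finset (Finset V)) (S : Finset V) : Prop := ∀ v ∈ S, ∃ e ∈ E, v ∈ e ∧ e ⊆ S

/-- all unions of edges -/
noncomputable def Dset (E : Finset (Finset V)) : Finset (Finset V) := univ.filter (fun S => isD E S)

/-- `y ∈ S` depends on `p` -/
def dep (E : Finset (Finset V)) (S : Finset V) (y p : V) : Prop :=
  y ∈ S ∧ y ≠ p ∧ ∀ e ∈ E, y ∈ e → e ⊆ S → p ∈ e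

/-- `v` dominates `w` -/
def Dm (E : Finset (Finset V)) (w v : V) : Prop := w ≠ v ∧ ∀ e ∈ E, w ∈ e → v ∈ e

def isL (E : Finset (Finset V)) (v : V) : Prop := ({v} : Finset V) ∈ E
def isC (E : Finset (Finset V)) (v : V) : Prop := ∃ w, Dm E w v
def isW (E : Finset (Finset V)) (w : V) : Prop := ∃ v, Dm E w v
def isR (E : Finset (Finset V)) (y : V) : Prop := ¬ isL E y ∧ ¬ isC E y ∧ ¬ isW E y

/-- edges at `y` inside `S` -/
noncomputable def at' (E : Finset (Finset V)) (S : Finset V) (y : V) : Finset (Finset V) :=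
  E.filter (fun e => y ∈ e ∧ e ⊆ S)

end basic

/-- The hypergraph with all chosen data. -/
structure Ctx (V : Type u) [Fintype V] [DecidableEq V] where
  /-- the edges -/
  E : Finset (Finset V)
  /-- the unique dominator of a dominated vertex -/
  ctr : V → V
  /-- a chosen dominated vertex of a centre -/
  rep : V → V
  /-- the chosen edges at a vertex -/
  tri : V → Finset (Finset V)
  card_le : ∀ e ∈ E, e.card ≤ 3
  cov : ∀ v, ∃ e ∈ E, v ∈ e
  ctr_spec : ∀ w v, Dm E w v → ctr w = v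
  acyc : ∀ w v x, Dm E w v → ¬ Dm E v x
  rep_spec : ∀ v, isC E v → Dm E (rep v) v
  tri_sub : ∀ w, ∀ e ∈ tri w, e ∈ E ∧ w ∈ e
  tri_W : ∀ w, isW E w → (tri w).card = 3
  tri_R : ∀ y, isR E y →
    ((tri y).card = 3 ∧ ∀ x, x ≠ y → ∃ e ∈ tri y, x ∉ e) ∨
    ((tri y).card = 2 ∧ (∀ e ∈ E, y ∈ e → e ∈ tri y) ∧
      (∀ e ∈ tri y, ∀ f ∈ tri y, e ≠ f → ∀ x ∈ e, x ∈ f → x = y) ∧
      (∀ e ∈ tri y, ∀ x ∈ e, x ≠ y → isC E x))

namespace Ctx
variable {V : Type u} [Fintype V] [DecidableEq V] (c : Ctx V)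

/-- the family of unions of edges -/
noncomputable def D : Finset (Finset V) := Dset c.E

/-- number of chosen edges at `y` inside `S` -/
noncomputable def t (y : V) (S : Finset V) : ℕ := ((c.tri y).filter (fun e => e ⊆ S)).card

/-- `S` is critical for `p` -/
def crit (S : Finset V) (p : V) : Prop := S ∈ c.D ∧ p ∈ S ∧ S.erase p ∉ c.D

/-- six times the weight of `p` -/
noncomputable def cost (p : V) : ℕ := if isW c.E p then 12 else if isR c.E p then 6 else 0

/-- six times the capacity of the slot `(w, T)` -/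
noncomputable def cap (w : V) (T : Finset V) : ℕ :=
  if isW c.E w then
    (if w ∈ T then 24 - 8 * c.t w T else if insert w T ∈ c.D then 0 else 12)
  else if isR c.E w then
    (if w ∈ T then (if (c.tri w).card = 3 then 12 - 4 * c.t w T else 12 - 6 * c.t w T)
      else if insert w T ∈ c.D then 0 else 6)
  else 0

/-! ### classes of critical pairs `(S, p)` -/

/-- class M2 -/
def cM2 (S : Finset V) (p : V) : Prop := ∃ v, isC c.E v ∧ dep c.E S v p ∧ S.erase v ∈ c.D

/-- class U4 -/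
def cU4 (S : Finset V) (p : V) : Prop :=
  ∃ v, isC c.E v ∧ dep c.E S v p ∧ (∀ u, Dm c.E u v → u ∉ S) ∧ insert (c.rep v) S ∉ c.D

/-- the pair condition of class II -/
def pairP (S : Finset V) (p v z : V) : Prop :=
  isC c.E v ∧ isC c.E z ∧ dep c.E S v p ∧ dep c.E S v z ∧ dep c.E S z p ∧ dep c.E S z v ∧
    p ∈ S ∧ ¬ dep c.E S p v

/-- sources of rule II1 (charged to `(rep v, insert (rep z) (S.erase v))`) -/
def srcII1 (S : Finset V) (p v z : V) : Prop :=
  S ∈ c.D ∧ isR c.E p ∧ c.pairP S p v z ∧ (∀ u, Dm c.E u v → u ∉ S) ∧ (∀ u, Dm c.E u z → u ∉ S) ∧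
    insert (c.rep z) (S.erase v) ∈ c.D

/-- sources of rule II3 (charged to `(rep v, insert (rep v) S)`) -/
def srcII3 (S : Finset V) (p v z : V) : Prop :=
  S ∈ c.D ∧ isR c.E p ∧ c.pairP S p v z ∧ (∀ u, Dm c.E u v → u ∉ S) ∧
    insert (c.rep v) S ∈ c.D ∧ at' c.E (insert (c.rep v) S) (c.rep v) = {{c.rep v, v, z}}

/-- the pair `(S, p)` has been reduced : none of M2, U4, II, R1 applies -/
def red (S : Finset V) (p : V) : Prop :=
  ¬ c.cM2 S p ∧ ¬ c.cU4 S p ∧ (¬ ∃ v z, c.pairP S p v z) ∧ ¬ ∃ u, isW c.E u ∧ dep c.E S u p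

/-- rule ias : `y ∈ R` and the centre `v` are mutually dependent, `v` is the only dependent vertex -/
def ias (S : Finset V) (y v : V) : Prop :=
  S ∈ c.D ∧ isR c.E y ∧ isC c.E v ∧ dep c.E S y v ∧ dep c.E S v y ∧ (∀ x, dep c.E S x y → x = v) ∧
    (∀ u, Dm c.E u v → u ∉ S) ∧ insert (c.rep v) (S.erase y) ∈ c.D

/-- rule ib : isolated edge with two centres -/
def ib (S : Finset V) (y : V) : Prop :=
  S ∈ c.D ∧ isR c.E y ∧ ∃ v v', isC c.E v ∧ isC c.E v' ∧ v ≠ v' ∧ at' c.E S y = {{y, v, v'}}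

/-- rule A : `ctr p` is the only vertex depending on `p ∈ W` -/
def clA (S : Finset V) (p : V) : Prop :=
  isW c.E p ∧ S ∈ c.D ∧ p ∈ S ∧ c.ctr p ∈ S ∧ (S.erase p).erase (c.ctr p) ∈ c.D ∧
    insert (c.ctr p) ((S.erase p).erase (c.ctr p)) ∉ c.D

/-- rule SW -/
def clSW (S : Finset V) (p : V) : Prop :=
  isW c.E p ∧ S ∈ c.D ∧ S.erase p ∉ c.D ∧
    ∃ z, isC c.E z ∧ z ≠ c.ctr p ∧ at' c.E S p = {{p, c.ctr p, z}}

/-- rule IAW -/
def clIAW (S : Finset V) (p : V) : Prop :=
  isR c.E p ∧ S ∈ c.D ∧ ∃ v, isC c.E v ∧ c.rep v ∉ S ∧ insert (c.rep v) S ∈ c.D ∧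
    at' c.E (insert (c.rep v) S) (c.rep v) = {{c.rep v, v, p}}

/-- pairs paid by `R` -/
def clR (S : Finset V) (p : V) : Prop :=
  c.crit S p ∧ c.red S p ∧ (isW c.E p ∨ isR c.E p) ∧ ∃ y, isR c.E y ∧ dep c.E S y p

/-- pairs paid by `p ∈ R` itself -/
def clSelf (S : Finset V) (p : V) : Prop := (∃ v, c.ias S p v) ∨ c.ib S p

/-- self payment of `y ∈ R` -/
noncomputable def self (y : V) (S : Finset V) : ℕ :=
  if (∃ v, c.ias S y v) ∨ c.ib S y then 6 else 0

/-! ### loads of the slots `(w, T)`, `w ∈ W` -/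

noncomputable def ldM2 (w : V) (T : Finset V) : ℕ :=
  if c.rep (c.ctr w) = w ∧ c.ctr w ∉ T ∧ insert (c.ctr w) T ∈ c.D then
    ∑ p ∈ univ.filter (fun p => dep c.E (insert (c.ctr w) T) (c.ctr w) p), c.cost p else 0

noncomputable def ldU4 (w : V) (T : Finset V) : ℕ :=
  if c.ctr w ∈ T ∧ (∀ u, Dm c.E u (c.ctr w) → u ∉ T) ∧ insert w T ∉ c.D then
    ∑ p ∈ univ.filter (fun p => dep c.E T (c.ctr w) p), c.cost p else 0

noncomputable def ldII1 (w : V) (T : Finset V) : ℕ :=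
  6 * (univ.filter (fun p : V => c.rep (c.ctr w) = w ∧
    ∃ S z, c.srcII1 S p (c.ctr w) z ∧ T = insert (c.rep z) (S.erase (c.ctr w)))).card

noncomputable def ldII3 (w : V) (T : Finset V) : ℕ :=
  6 * (univ.filter (fun p : V => c.rep (c.ctr w) = w ∧
    ∃ S z, c.srcII3 S p (c.ctr w) z ∧ T = insert w S)).card

noncomputable def ldR1 (w : V) (T : Finset V) : ℕ :=
  ∑ p ∈ univ.filter (fun p => dep c.E T w p), c.cost p

noncomputable def ldA (w : V) (T : Finset V) : ℕ :=
  if c.ctr w ∉ T ∧ insert (c.ctr w) T ∉ c.D then 12 else 0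

noncomputable def ldSW (w : V) (T : Finset V) : ℕ :=
  if T.erase w ∉ c.D ∧ ∃ z, isC c.E z ∧ z ≠ c.ctr w ∧ at' c.E T w = {{w, c.ctr w, z}} then 12 else 0

noncomputable def ldIAW (w : V) (T : Finset V) : ℕ :=
  6 * (univ.filter (fun p : V => isR c.E p ∧ T.erase w ∈ c.D ∧ at' c.E T w = {{w, c.ctr w, p}})).card

noncomputable def ldPart (w : V) (T : Finset V) : ℕ :=
  if T.erase w ∉ c.D ∧ ∃ y, isR c.E y ∧ at' c.E T w = {{w, c.ctr w, y}} then 4 else 0

/-- total load of a `W`-slot -/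
noncomputable def ldW (w : V) (T : Finset V) : ℕ :=
  c.ldM2 w T + c.ldU4 w T + c.ldII1 w T + c.ldII3 w T + c.ldR1 w T + c.ldA w T + c.ldSW w T +
    c.ldIAW w T + c.ldPart w T

/-! ### loads of the slots `(y, S)`, `y ∈ R` -/

/-- `y` is the only dependent vertex in `R` -/
def uniq (y : V) (S : Finset V) (p : V) : Prop := ∀ x, isR c.E x → dep c.E S x p → x = y

/-- payment of `y ∈ R` for `(S, p)` -/
noncomputable def om (y : V) (S : Finset V) (p : V) : ℕ :=
  if dep c.E S y p ∧ c.crit S p ∧ c.red S p then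
    (if isR c.E p then (if c.uniq y S p then 6 else 3)
     else if isW c.E p then
       (if c.uniq y S p then (if (at' c.E S p).card = 1 then 8 else 12) else 6)
     else 0)
  else 0

/-- total load of an `R`-slot -/
noncomputable def ldR (y : V) (S : Finset V) : ℕ := (∑ p, c.om y S p) + c.self y S

/-! ### clusters -/

/-- `X` is a member of `D` not containing `y` to which `y` cannot be added -/
def isU (y : V) (X : Finset V) : Prop := X ∈ c.D ∧ y ∉ X ∧ insert y X ∉ c.D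

/-- O-active edge -/
def OA (y : V) (X : Finset V) (e : Finset V) : Prop :=
  c.isU y X ∧ e ∈ c.tri y ∧ at' c.E (X ∪ e) y = {e} ∧
    ∃ a x, a ∉ X ∧ a ≠ y ∧ ¬ isW c.E a ∧ x ∈ X ∧ isR c.E x ∧ e = {y, a, x}

/-- W-active edge -/
def WA (y : V) (X : Finset V) (e : Finset V) : Prop :=
  c.isU y X ∧ e ∈ c.tri y ∧ at' c.E (X ∪ e) y = {e} ∧
    ∃ w, isW c.E w ∧ w ∉ X ∧ e = {y, w, c.ctr w} ∧
      (c.ctr w ∈ X ∨ ∀ f ∈ c.E, c.ctr w ∈ f → f ⊆ X ∪ e → w ∈ f)

/-- double vertex -/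
def DA (y : V) (X : Finset V) (p : V) : Prop :=
  c.isU y X ∧ isR c.E p ∧ p ∉ X ∧ p ≠ y ∧
    ∃ e ∈ c.tri y, ∃ f ∈ c.tri y, e ≠ f ∧ p ∈ e ∧ p ∈ f ∧ e ⊆ insert y (insert p X) ∧
      f ⊆ insert y (insert p X)

/-- `(y, S)` asks two units from `(y, insert (rep v) S)` -/
def S1src (y : V) (S : Finset V) (v : V) : Prop :=
  c.ias S y v ∧ ((∃ s, isR c.E s ∧ s ≠ y ∧ at' c.E S y = {{y, v, s}} ∧ ({y, v, s} : Finset V) ∈ c.tri y) ∨
    (2 ≤ (at' c.E S y).card ∧ c.t y S = 2))

/-- `(y, T)` gives two units -/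
def S1img (y : V) (T : Finset V) : Prop := ∃ S v, c.S1src y S v ∧ T = insert (c.rep v) S

/-- states with four free units -/
def T2 (y : V) (T : Finset V) : Prop :=
  T ∈ c.D ∧ y ∈ T ∧ c.t y T = 2 ∧ ∃ e ∈ c.tri y, ∃ f ∈ c.tri y, e ≠ f ∧ e ⊆ T ∧ f ⊆ T ∧
    ((∀ x ∈ e, x ∈ f → x = y) ∨
     (∃ w x, isW c.E w ∧ e = {y, w, c.ctr w} ∧ f = {y, c.ctr w, x} ∧ (isC c.E x ∨ isW c.E x)))

/-- `T` is used by the cluster of `X` -/
def Use (y : V) (X T : Finset V) : Prop :=
  c.t y T = 2 ∧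
  ((∃ e f, e ≠ f ∧ c.WA y X e ∧ (c.WA y X f ∨ c.OA y X f) ∧ T = X ∪ e ∪ f) ∨
   (∃ w w', isW c.E w ∧ isW c.E w' ∧ c.WA y X {y, w, c.ctr w} ∧ c.WA y X {y, w', c.ctr w'} ∧
      c.ctr w ≠ c.ctr w' ∧ c.ctr w ∉ X ∧ c.ctr w' ∉ X ∧
      ({y, c.ctr w, c.ctr w'} : Finset V) ∈ c.tri y ∧
      T = X ∪ {y, w, c.ctr w} ∪ {y, c.ctr w, c.ctr w'}))

/-! ### counts -/

noncomputable def nOA (y : V) (S : Finset V) : ℕ :=
  ((univ : Finset (Finset V × Finset V)).filter (fun x => c.OA y x.1 x.2 ∧ x.1 ∪ x.2 = S)).card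

noncomputable def nWA (y : V) (S : Finset V) : ℕ :=
  ((univ : Finset (Finset V × Finset V)).filter (fun x => c.WA y x.1 x.2 ∧ x.1 ∪ x.2 = S)).card

noncomputable def nDA (y : V) (S : Finset V) : ℕ :=
  ((univ : Finset (Finset V × V)).filter (fun x => c.DA y x.1 x.2 ∧ insert y (insert x.2 x.1) = S)).card

noncomputable def nS1 (y : V) (S : Finset V) : ℕ := if ∃ v, c.S1src y S v then 1 else 0
noncomputable def nImg (y : V) (S : Finset V) : ℕ := if c.S1img y S then 1 else 0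
noncomputable def nT2 (y : V) (S : Finset V) : ℕ := if c.T2 y S then 1 else 0

noncomputable def oX (y : V) (X : Finset V) : ℕ := ((c.tri y).filter (fun e => c.OA y X e)).card
noncomputable def aX (y : V) (X : Finset V) : ℕ := ((c.tri y).filter (fun e => c.WA y X e)).card
noncomputable def dX (y : V) (X : Finset V) : ℕ := (univ.filter (fun p => c.DA y X p)).card
noncomputable def uX (y : V) (X : Finset V) : ℕ := (c.D.filter (fun T => c.Use y X T)).card

/-- the vertices of `W`, of `R` -/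
noncomputable def Ws : Finset V := univ.filter (fun w => isW c.E w)
noncomputable def Rs : Finset V := univ.filter (fun w => isR c.E w)

/-- the pairs `(S, p)`, `S ∈ D` -/
noncomputable def Pr : Finset (Finset V × V) := c.D ×ˢ univ

end Ctx
end H70G3

end S_Defs

section S_Basic

/-! # MP_75f39d_G3 : basic facts -/

open Finset Classical

universe u

namespace H70G3

/-- injective transfer of sums -/
lemma transfer {ι κ : Type*} (s : Finset ι) (t : Finset κ) (f : ι → ℕ) (g : κ → ℕ) (i : ι → κ)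
    (hi : ∀ a ∈ s, i a ∈ t) (hinj : ∀ a ∈ s, ∀ b ∈ s, i a = i b → a = b)
    (hle : ∀ a ∈ s, f a ≤ g (i a)) : ∑ a ∈ s, f a ≤ ∑ b ∈ t, g b := by
  classical
  calc ∑ a ∈ s, f a ≤ ∑ a ∈ s, g (i a) := sum_le_sum hle
    _ = ∑ b ∈ s.image i, g b := by rw [sum_image]; intro a ha b hb h; exact hinj a ha b hb h
    _ ≤ ∑ b ∈ t, g b := by
      apply sum_le_sum_of_subset
      intro b hb
      obtain ⟨a, ha, rfl⟩ := mem_image.1 hb
      exact hi a ha

namespace Ctx
variable {V : Type u} [Fintype V] [DecidableEq V] (c : Ctx V)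
variable {S T K : Finset V} {e f : Finset V} {p q v w y z : V}

lemma mem_D : S ∈ c.D ↔ isD c.E S := by simp [D, Dset]

lemma empty_D : (∅ : Finset V) ∈ c.D := by rw [mem_D]; intro v hv; simp at hv

lemma union_D (hS : S ∈ c.D) (hT : T ∈ c.D) : S ∪ T ∈ c.D := by
  rw [mem_D] at *
  intro v hv
  rcases mem_union.1 hv with h | h
  · obtain ⟨e, he, hve, hes⟩ := hS v h
    exact ⟨e, he, hve, hes.trans subset_union_left⟩
  · obtain ⟨e, he, hve, hes⟩ := hT v h
    exact ⟨e, he, hve, hes.trans subset_union_right⟩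

lemma edge_D (he : e ∈ c.E) : e ∈ c.D := by
  rw [mem_D]; intro v hv; exact ⟨e, he, hv, Subset.refl _⟩

lemma mem_at : e ∈ at' c.E S y ↔ e ∈ c.E ∧ y ∈ e ∧ e ⊆ S := by simp [at']

lemma exists_at (hS : S ∈ c.D) (hy : y ∈ S) : ∃ e, e ∈ at' c.E S y := by
  rw [mem_D] at hS
  obtain ⟨e, he, h1, h2⟩ := hS y hy
  exact ⟨e, by rw [mem_at]; exact ⟨he, h1, h2⟩⟩

/-- `S.erase p ∈ D` iff nobody depends on `p` -/
lemma erase_D_iff (hS : S ∈ c.D) : S.erase p ∈ c.D ↔ ∀ y, ¬ dep c.E S y p := by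
  rw [mem_D] at *
  constructor
  · rintro h y ⟨hy, hyp, hd⟩
    obtain ⟨e, he, h1, h2⟩ := h y (mem_erase.2 ⟨hyp, hy⟩)
    have := hd e he h1 (h2.trans (erase_subset _ _))
    exact (mem_erase.1 (h2 this)).1 rfl
  · intro h y hy
    obtain ⟨hyp, hyS⟩ := mem_erase.1 hy
    have h1 := h y
    unfold dep at h1
    push Not at h1
    obtain ⟨e, he, h2, h3, h4⟩ := h1 hyS hyp
    exact ⟨e, he, h2, subset_erase.2 ⟨h3, h4⟩⟩

/-- removal of a set -/
lemma sdiff_D (h : ∀ z ∈ S \ K, ∃ e ∈ c.E, z ∈ e ∧ e ⊆ S ∧ Disjoint e K) : S \ K ∈ c.D := by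
  rw [mem_D]
  intro z hz
  obtain ⟨e, he, h1, h2, h3⟩ := h z hz
  refine ⟨e, he, h1, ?_⟩
  intro x hx
  rw [mem_sdiff]
  exact ⟨h2 hx, fun hk => (disjoint_left.1 h3) hx hk⟩

/-- removal of two vertices, both of which occur in an edge only together with `p` -/
lemma erase_erase_D (hS : S ∈ c.D) (hq : ∀ e ∈ c.E, q ∈ e → e ⊆ S → p ∈ e)
    (h : ∀ x, dep c.E S x p → x = q) : (S.erase p).erase q ∈ c.D := by
  have h0 : (S.erase p).erase q = S \ {p, q} := by
    ext x; simp only [mem_erase, mem_sdiff, mem_insert, mem_singleton]; tauto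
  rw [h0]
  apply sdiff_D
  intro z hz
  simp only [mem_sdiff, mem_insert, mem_singleton, not_or] at hz
  obtain ⟨hzS, hzp, hzq⟩ := hz
  by_contra hcon
  push Not at hcon
  have : dep c.E S z p := by
    refine ⟨hzS, hzp, fun e he hze hes => ?_⟩
    have h2 := hcon e he hze hes
    rw [disjoint_left] at h2
    push Not at h2
    obtain ⟨x, hx, hx2⟩ := h2
    simp only [mem_insert, mem_singleton] at hx2
    rcases hx2 with rfl | rfl
    · exact hx
    · exact hq e he hx hes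
  exact hzq (h z this)

lemma dep_trans (h1 : dep c.E S y p) (h2 : dep c.E S p q) (h : y ≠ q) : dep c.E S y q :=
  ⟨h1.1, h, fun e he hy hs => h2.2.2 e he (h1.2.2 e he hy hs) hs⟩

lemma dep_mem (hS : S ∈ c.D) (h : dep c.E S y p) : p ∈ S := by
  obtain ⟨e, he⟩ := c.exists_at hS h.1
  rw [mem_at] at he
  exact he.2.2 (h.2.2 e he.1 he.2.1 he.2.2)

lemma dep_not_crit (hS : S ∈ c.D) (h : dep c.E S y p) : S.erase p ∉ c.D := by
  rw [c.erase_D_iff hS]; push Not; exact ⟨y, h⟩

lemma ctr_Dm (hw : isW c.E w) : Dm c.E w (c.ctr w) := by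
  obtain ⟨v, hv⟩ := hw
  rw [c.ctr_spec w v hv]; exact hv

lemma rep_Dm (hv : isC c.E v) : Dm c.E (c.rep v) v := c.rep_spec v hv

lemma ctr_rep (hv : isC c.E v) : c.ctr (c.rep v) = v := c.ctr_spec _ _ (c.rep_Dm hv)

lemma rep_isW (hv : isC c.E v) : isW c.E (c.rep v) := ⟨v, c.rep_Dm hv⟩

lemma ctr_isC (hw : isW c.E w) : isC c.E (c.ctr w) := ⟨w, c.ctr_Dm hw⟩

lemma C_not_W (h : isC c.E v) : ¬ isW c.E v := by
  rintro ⟨x, hx⟩; obtain ⟨w, hw⟩ := h; exact c.acyc w v x hw hx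

lemma W_not_C (h : isW c.E v) : ¬ isC c.E v := fun h2 => c.C_not_W h2 h

lemma C_not_R (h : isC c.E v) : ¬ isR c.E v := fun h2 => h2.2.1 h

lemma W_not_R (h : isW c.E v) : ¬ isR c.E v := fun h2 => h2.2.2 h

lemma W_not_L (h : isW c.E v) : ¬ isL c.E v := by
  rintro h2
  obtain ⟨x, hx⟩ := h
  have := hx.2 _ h2 (mem_singleton_self v)
  exact hx.1 (mem_singleton.1 this).symm

lemma four (v : V) : isW c.E v ∨ isC c.E v ∨ isL c.E v ∨ isR c.E v := by
  unfold isR; tauto

lemma ne_of_W_C (h : isW c.E w) (h2 : isC c.E v) : w ≠ v := by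
  rintro rfl; exact c.W_not_C h h2

lemma ne_of_R_C (h : isR c.E y) (h2 : isC c.E v) : y ≠ v := by
  rintro rfl; exact c.C_not_R h2 h

lemma ne_of_R_W (h : isR c.E y) (h2 : isW c.E w) : y ≠ w := by
  rintro rfl; exact c.W_not_R h2 h

lemma W_edge (hw : isW c.E w) (he : e ∈ c.E) (h : w ∈ e) : c.ctr w ∈ e := (c.ctr_Dm hw).2 e he h

lemma ctr_mem (hw : isW c.E w) (hS : S ∈ c.D) (h : w ∈ S) : c.ctr w ∈ S := by
  obtain ⟨e, he⟩ := c.exists_at hS h
  rw [mem_at] at he
  exact he.2.2 (c.W_edge hw he.1 he.2.1)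

lemma dep_ctr (hw : isW c.E w) (h : w ∈ S) : dep c.E S w (c.ctr w) :=
  ⟨h, (c.ctr_Dm hw).1, fun _ he hwe _ => c.W_edge hw he hwe⟩

lemma dep_not_L (h : dep c.E S y p) : ¬ isL c.E y := by
  intro hl
  have := h.2.2 _ hl (mem_singleton_self y) (singleton_subset_iff.2 h.1)
  exact h.2.1 (mem_singleton.1 this).symm

/-- an edge containing three different vertices -/
lemma edge_eq (he : e ∈ c.E) (h1 : y ∈ e) (h2 : p ∈ e) (h3 : q ∈ e) (h12 : y ≠ p) (h13 : y ≠ q)
    (h23 : p ≠ q) : e = {y, p, q} := by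
  symm
  apply eq_of_subset_of_card_le
  · intro x hx
    simp only [mem_insert, mem_singleton] at hx
    rcases hx with rfl | rfl | rfl <;> assumption
  · have : ({y, p, q} : Finset V).card = 3 := by
      rw [card_eq_three]; exact ⟨y, p, q, h12, h13, h23, rfl⟩
    rw [this]; exact c.card_le e he

/-- an edge has no four different vertices -/
lemma edge_four (he : e ∈ c.E) (h1 : y ∈ e) (h2 : p ∈ e) (h3 : q ∈ e) (h4 : z ∈ e) (h12 : y ≠ p)
    (h13 : y ≠ q) (h23 : p ≠ q) : z = y ∨ z = p ∨ z = q := by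
  rw [c.edge_eq he h1 h2 h3 h12 h13 h23] at h4
  simpa only [mem_insert, mem_singleton] using h4

/-- if all `S`-edges at `y` contain `p` and `q` there is only one -/
lemma at_unique (hS : S ∈ c.D) (h1 : dep c.E S y p) (h2 : dep c.E S y q) (h : p ≠ q) :
    at' c.E S y = {{y, p, q}} := by
  obtain ⟨e, he⟩ := c.exists_at hS h1.1
  have key : ∀ f ∈ at' c.E S y, f = {y, p, q} := by
    intro f hf
    rw [mem_at] at hf
    exact c.edge_eq hf.1 hf.2.1 (h1.2.2 f hf.1 hf.2.1 hf.2.2) (h2.2.2 f hf.1 hf.2.1 hf.2.2)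
      h1.2.1 h2.2.1 h
  rw [eq_singleton_iff_unique_mem]
  refine ⟨?_, key⟩
  rw [← key e he]; exact he

/-- (L4) first form -/
lemma at_dep_W (hS : S ∈ c.D) (h : dep c.E S y p) (hp : isW c.E p) (hy : y ≠ c.ctr p) :
    at' c.E S y = {{y, p, c.ctr p}} := by
  apply c.at_unique hS h _ (c.ctr_Dm hp).1
  exact ⟨h.1, hy, fun e he h1 h2 => c.W_edge hp he (h.2.2 e he h1 h2)⟩

/-- (L4) second form -/
lemma at_W_dep (hS : S ∈ c.D) (h : dep c.E S y p) (hy : isW c.E y) (hp : p ≠ c.ctr y) :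
    at' c.E S y = {{y, c.ctr y, p}} :=
  c.at_unique hS (c.dep_ctr hy h.1) h hp.symm

lemma cost_W (h : isW c.E p) : c.cost p = 12 := by simp [cost, h]

lemma cost_R (h : isR c.E p) : c.cost p = 6 := by
  have := h.2.2
  simp [cost, h, this]

lemma cost_C (h : isC c.E p) : c.cost p = 0 := by
  have h1 := c.C_not_W h
  have h2 := c.C_not_R h
  simp [cost, h1, h2]

lemma cost_le (p : V) : c.cost p ≤ 12 := by unfold cost; split_ifs <;> omega

lemma cost_zero (h1 : ¬ isW c.E p) (h2 : ¬ isR c.E p) : c.cost p = 0 := by simp [cost, h1, h2]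

lemma R_not_L (h : isR c.E y) : ({y} : Finset V) ∉ c.E := h.1

lemma isU_of (hX : T ∈ c.D) (hy : y ∉ T) (h : insert y T ∉ c.D) : c.isU y T := ⟨hX, hy, h⟩

/-- `t` counts a subset of the edges at `y` -/
lemma t_le_card (y : V) (S : Finset V) : c.t y S ≤ (at' c.E S y).card := by
  unfold t
  apply card_le_card
  intro e he
  rw [mem_filter] at he
  rw [mem_at]
  exact ⟨(c.tri_sub y e he.1).1, (c.tri_sub y e he.1).2, he.2⟩

end Ctx
end H70G3

end S_Basic

section S_IIU

/-!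
# Row IIU : the source of rule II1 is determined by its slot

PROOF. Write S_i, z_i, p_i, v.  From `srcII1`: S_i ∈ D, isR p_i, isC v, isC z_i, dep S_i v p_i, dep S_i v z_i, no u with
Dm u z_i lies in S_i; p_i ≠ z_i (R and C are disjoint, `ne_of_R_C`), v ≠ p_i, v ≠ z_i (part of dep).
By `at_unique` (S_i ∈ D, dep S_i v p_i, dep S_i v z_i): at' E S_i v = {e_i}, e_i = {v, p_i, z_i}.
v ∈ S_i, so insert v (insert (rep z_i) (S_i.erase v)) = insert (rep z_i) S_i; hence M := insert (rep z_1) S_1 = insert (rep z_2) S_2.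
rep z_i ∉ S_i (rep_Dm).
(a) rep z_1 = rep z_2: apply ctr (`ctr_rep`): z_1 = z_2; S_1 = M.erase (rep z_1) = S_2; then {v,p_1,z_1} = {v,p_2,z_2} gives p_1 ∈ {v,p_2,z_2},
p_1 ≠ v, z_2 so p_1 = p_2.
(b) rep z_1 ≠ rep z_2: e_1 ⊆ S_1 ⊆ M and rep z_2 ∉ e_1 (rep z_2 ∈ W; v, z_1 ∈ C, p_1 ∈ R), so e_1 ⊆ M.erase (rep z_2) = S_2, so
e_1 ∈ at' E S_2 v = {e_2}, e_1 = e_2, z_1 ∈ {v, p_2, z_2}, z_1 ≠ v, z_1 ≠ p_2 (C, R disjoint), so z_1 = z_2, contradiction.
-/

open Finset Classical

universe u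

namespace H70G3
namespace Ctx
variable {V : Type u} [Fintype V] [DecidableEq V] (c : Ctx V)

theorem srcII1_unique {S1 S2 : Finset V} {p1 p2 v z1 z2 : V} (h1 : c.srcII1 S1 p1 v z1)
    (h2 : c.srcII1 S2 p2 v z2)
    (hT : insert (c.rep z1) (S1.erase v) = insert (c.rep z2) (S2.erase v)) :
    S1 = S2 ∧ p1 = p2 ∧ z1 = z2 := by
  obtain ⟨hD1, hR1, ⟨hvC, hz1C, hvp1, hvz1, hz1p, hz1v, hp1S, -⟩, hv1, hu1, -⟩ := h1
  obtain ⟨hD2, hR2, ⟨-, hz2C, hvp2, hvz2, hz2p, hz2v, hp2S, -⟩, hv2, hu2, -⟩ := h2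
  have hpz1 : p1 ≠ z1 := c.ne_of_R_C hR1 hz1C
  have hpz2 : p2 ≠ z2 := c.ne_of_R_C hR2 hz2C
  have e1 := c.at_unique hD1 hvp1 hvz1 hpz1
  have e2 := c.at_unique hD2 hvp2 hvz2 hpz2
  have hr1 : c.rep z1 ∉ S1 := hu1 _ (c.rep_Dm hz1C)
  have hr2 : c.rep z2 ∉ S2 := hu2 _ (c.rep_Dm hz2C)
  have hvS1 : v ∈ S1 := hvp1.1
  have hvS2 : v ∈ S2 := hvp2.1
  have hM : insert (c.rep z1) S1 = insert (c.rep z2) S2 := by
    have h : insert v (insert (c.rep z1) (S1.erase v)) =
        insert v (insert (c.rep z2) (S2.erase v)) := by rw [hT]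
    rw [Finset.insert_comm, insert_erase hvS1, Finset.insert_comm, insert_erase hvS2] at h
    exact h
  by_cases hr : c.rep z1 = c.rep z2
  · have hz : z1 = z2 := by rw [← c.ctr_rep hz1C, hr, c.ctr_rep hz2C]
    subst hz
    have hS : S1 = S2 := by
      have h := congrArg (fun T => T.erase (c.rep z1)) hM
      simp only [erase_insert hr1, erase_insert hr2] at h
      exact h
    subst hS
    refine ⟨rfl, ?_, rfl⟩
    rw [e1, singleton_inj] at e2
    have h : p1 ∈ ({v, p2, z1} : Finset V) := by rw [← e2]; simp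
    simp only [mem_insert, mem_singleton] at h
    rcases h with h | h | h
    · exact absurd h.symm hvp1.2.1
    · exact h
    · exact absurd h hpz1
  · exfalso
    have hm1 : ({v, p1, z1} : Finset V) ∈ at' c.E S1 v := by rw [e1]; simp
    rw [c.mem_at] at hm1
    have hrW := c.rep_isW hz2C
    have hsub : ({v, p1, z1} : Finset V) ⊆ S2 := by
      intro x hx
      have hxM : x ∈ insert (c.rep z2) S2 := by rw [← hM]; exact mem_insert_of_mem (hm1.2.2 hx)
      rcases mem_insert.1 hxM with h | h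
      · exfalso
        simp only [mem_insert, mem_singleton] at hx
        rcases hx with hx | hx | hx
        · rw [h] at hx; exact c.ne_of_W_C hrW hvC hx
        · rw [h] at hx; exact c.ne_of_R_W hR1 hrW hx.symm
        · rw [h] at hx; exact c.ne_of_W_C hrW hz1C hx
      · exact h
    have hm2 : ({v, p1, z1} : Finset V) ∈ at' c.E S2 v := by
      rw [c.mem_at]; exact ⟨hm1.1, hm1.2.1, hsub⟩
    rw [e2, mem_singleton] at hm2
    have h : z1 ∈ ({v, p2, z2} : Finset V) := by rw [← hm2]; simp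
    simp only [mem_insert, mem_singleton] at h
    rcases h with h | h | h
    · exact hvz1.2.1 h.symm
    · exact c.ne_of_R_C hR2 hz1C h.symm
    · exact hr (by rw [h])

end Ctx
end H70G3

end S_IIU

section S_WM2

/-!
# Row WM2 : load of a slot (w, T) with ctr w ∉ T from M2 and II1 is at most 12

Put v = ctr w, M = insert v T.
(1) ldII1 w T ≤ 6: the filter has at most one element by `srcII1_unique` (two elements p1, p2 with sources (S1,z1), (S2,z2), same T).
(2) If the condition of ldM2 fails: ldM2 = 0, total ≤ 6.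
(3) Suppose v ∉ T, M ∈ D.  Let P = {p : dep M v p}.  v ∈ M, so there is f0 ∈ at' E M v (`exists_at`), P ⊆ f0.erase v, card (f0.erase v) ≤ 2.
 (3a) p ∈ P, isW p ⇒ ctr p ≠ v: p ∈ M (`dep_mem`), p ≠ v so p ∈ T, so ctr p ∈ T (`ctr_mem`, T ∈ D) but v ∉ T.
 Hence if some p ∈ P is in W: ctr p ∈ f0 (`W_edge`), so f0 = {v, p, ctr p} (`edge_eq`), P ⊆ {p, ctr p}, cost (ctr p) = 0 (`cost_C`, `ctr_isC`),
 so the sum is ≤ 12.  If no p ∈ P is in W: every cost is ≤ 6 (unfold cost), card P ≤ 2, sum ≤ 12.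
(4) If moreover there is a II1 source (S, z, p1), T = insert (rep z) (S.erase v): then M = insert (rep z) S ⊇ S, at' E S v = {{v,p1,z}} (`at_unique`),
 {v,p1,z} is an M-edge at v, so P ⊆ {p1, z}, cost z = 0, cost p1 = 6: ldM2 ≤ 6, total ≤ 12.  If there is no source: ldII1 = 0, total ≤ 12 by (3).
-/

open Finset Classical

universe u

namespace H70G3
namespace Ctx
variable {V : Type u} [Fintype V] [DecidableEq V] (c : Ctx V)

private lemma wm2_A {w : V} {T : Finset V} (hT : T ∈ c.D) : c.ldM2 w T ≤ 12 := by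
  unfold ldM2
  by_cases hcond : c.rep (c.ctr w) = w ∧ c.ctr w ∉ T ∧ insert (c.ctr w) T ∈ c.D
  · rw [if_pos hcond]
    obtain ⟨_, hvT, hM⟩ := hcond
    generalize c.ctr w = v at hvT hM ⊢
    obtain ⟨f0, hf0⟩ := c.exists_at hM (mem_insert_self v T)
    rw [c.mem_at] at hf0
    obtain ⟨hfE, hvf, hfM⟩ := hf0
    have hPf : ∀ p, dep c.E (insert v T) v p → p ∈ f0 ∧ v ≠ p :=
      fun p hp => ⟨hp.2.2 f0 hfE hvf hfM, hp.2.1⟩
    by_cases hW : ∃ p, dep c.E (insert v T) v p ∧ isW c.E p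
    · obtain ⟨p, hp, hpW⟩ := hW
      have hpT : p ∈ T := by
        rcases mem_insert.1 (c.dep_mem hM hp) with h | h
        · exact absurd h.symm hp.2.1
        · exact h
      have hcT := c.ctr_mem hpW hT hpT
      have hvc : v ≠ c.ctr p := by
        intro h
        rw [← h] at hcT
        exact hvT hcT
      have hcf := c.W_edge hpW hfE (hPf p hp).1
      have hfeq := c.edge_eq hfE hvf (hPf p hp).1 hcf hp.2.1 hvc (c.ctr_Dm hpW).1
      calc ∑ q ∈ univ.filter (fun q => dep c.E (insert v T) v q), c.cost q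
          ≤ ∑ q ∈ ({p, c.ctr p} : Finset V), c.cost q := by
            apply sum_le_sum_of_subset
            intro q hq
            rw [mem_filter] at hq
            have h1 := hPf q hq.2
            have h2 := h1.1
            rw [hfeq, mem_insert] at h2
            rcases h2 with h2 | h2
            · exact absurd h2.symm h1.2
            · exact h2
        _ = c.cost p + c.cost (c.ctr p) := sum_pair (c.ctr_Dm hpW).1
        _ ≤ 12 := by
            rw [c.cost_W hpW, c.cost_C (c.ctr_isC hpW)]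
    · push Not at hW
      have hcost : ∀ q ∈ univ.filter (fun q => dep c.E (insert v T) v q), c.cost q ≤ 6 := by
        intro q hq
        rw [mem_filter] at hq
        unfold cost
        rw [if_neg (hW q hq.2)]
        split_ifs <;> omega
      have hcard : (univ.filter (fun q => dep c.E (insert v T) v q)).card ≤ 2 := by
        have h1 : (univ.filter (fun q => dep c.E (insert v T) v q)).card ≤ (f0.erase v).card := by
          apply card_le_card
          intro q hq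
          rw [mem_filter] at hq
          have h2 := hPf q hq.2
          exact mem_erase.2 ⟨h2.2.symm, h2.1⟩
        rw [card_erase_of_mem hvf] at h1
        have h3 := c.card_le f0 hfE
        omega
      refine le_trans (sum_le_card_nsmul _ _ 6 hcost) ?_
      rw [smul_eq_mul]
      omega
  · rw [if_neg hcond]
    omega

private lemma wm2_B {w : V} {T S : Finset V} {p1 z : V} (hs : c.srcII1 S p1 (c.ctr w) z)
    (hTS : T = insert (c.rep z) (S.erase (c.ctr w))) : c.ldM2 w T ≤ 6 := by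
  unfold ldM2
  by_cases hcond : c.rep (c.ctr w) = w ∧ c.ctr w ∉ T ∧ insert (c.ctr w) T ∈ c.D
  · rw [if_pos hcond]
    clear hcond
    generalize c.ctr w = v at hs hTS ⊢
    obtain ⟨hSD, hR, hpair, _, _, _⟩ := hs
    obtain ⟨_, hCz, hd1, hd2, _⟩ := hpair
    have hp1z : p1 ≠ z := c.ne_of_R_C hR hCz
    have hat := c.at_unique hSD hd1 hd2 hp1z
    have he : ({v, p1, z} : Finset V) ∈ at' c.E S v := by
      rw [hat]
      exact mem_singleton_self _
    rw [c.mem_at] at he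
    obtain ⟨heE, hve, heS⟩ := he
    have heM : ({v, p1, z} : Finset V) ⊆ insert v T := by
      intro x hx
      by_cases hxv : x = v
      · rw [hxv]
        exact mem_insert_self _ _
      · rw [hTS]
        exact mem_insert_of_mem (mem_insert_of_mem (mem_erase.2 ⟨hxv, heS hx⟩))
    calc ∑ q ∈ univ.filter (fun q => dep c.E (insert v T) v q), c.cost q
        ≤ ∑ q ∈ ({p1, z} : Finset V), c.cost q := by
          apply sum_le_sum_of_subset
          intro q hq
          rw [mem_filter] at hq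
          have h2 := hq.2.2.2 _ heE hve heM
          rw [mem_insert] at h2
          rcases h2 with h2 | h2
          · exact absurd h2.symm hq.2.2.1
          · exact h2
      _ = c.cost p1 + c.cost z := sum_pair hp1z
      _ ≤ 6 := by
          rw [c.cost_R hR, c.cost_C hCz]
  · rw [if_neg hcond]
    omega

theorem ldM2_add_ldII1_le {w : V} {T : Finset V} (hw : isW c.E w) (hT : T ∈ c.D) :
    c.ldM2 w T + c.ldII1 w T ≤ 12 := by
  by_cases hsrc : ∃ p, c.rep (c.ctr w) = w ∧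
      ∃ S z, c.srcII1 S p (c.ctr w) z ∧ T = insert (c.rep z) (S.erase (c.ctr w))
  · obtain ⟨p1, _, S, z, hs, hTS⟩ := hsrc
    have h1 := c.wm2_B hs hTS
    have h2 : c.ldII1 w T ≤ 6 := by
      unfold ldII1
      have h3 : (univ.filter (fun p : V => c.rep (c.ctr w) = w ∧
          ∃ S z, c.srcII1 S p (c.ctr w) z ∧
            T = insert (c.rep z) (S.erase (c.ctr w)))).card ≤ 1 := by
        rw [card_le_one]
        intro a ha b hb
        rw [mem_filter] at ha hb
        obtain ⟨_, _, S1, z1, hs1, hT1⟩ := ha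
        obtain ⟨_, _, S2, z2, hs2, hT2⟩ := hb
        exact (c.srcII1_unique hs1 hs2 (hT1.symm.trans hT2)).2.1
      omega
    omega
  · have h1 := c.wm2_A (w := w) hT
    have h2 : c.ldII1 w T = 0 := by
      unfold ldII1
      rw [filter_eq_empty_iff.2 fun p _ hp => hsrc ⟨p, hp⟩, card_empty]
    omega

end Ctx
end H70G3

end S_WM2

section S_WU4

/-!
# Row WU4 : load of rule U4 is at most 12

Put v = ctr w. If the condition fails ldU4 = 0. Otherwise v ∈ T and no u with Dm u v lies in T.  Let P = {p : dep T v p}; v ∈ T ∈ D, so there is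
f0 ∈ at' E T v (`exists_at`), P ⊆ f0.erase v, card ≤ 2.  p ∈ P ∩ W ⇒ ctr p ≠ v (else Dm p v (`ctr_Dm`) and p ∈ T (`dep_mem`), excluded).
If some p ∈ P is in W: ctr p ∈ f0 (`W_edge`), f0 = {v, p, ctr p} (`edge_eq`), P ⊆ {p, ctr p}, cost (ctr p) = 0, sum ≤ 12.
If no p ∈ P is in W: every cost ≤ 6, card P ≤ 2, sum ≤ 12.
-/

open Finset Classical

universe u

namespace H70G3
namespace Ctx
variable {V : Type u} [Fintype V] [DecidableEq V] (c : Ctx V)

theorem ldU4_le {w : V} {T : Finset V} (hw : isW c.E w) (hT : T ∈ c.D) : c.ldU4 w T ≤ 12 := by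
  unfold ldU4
  split_ifs with hcond
  · obtain ⟨hvT, hdom, -⟩ := hcond
    obtain ⟨f0, hf0⟩ := c.exists_at hT hvT
    rw [mem_at] at hf0
    obtain ⟨hf0E, hvf0, hf0T⟩ := hf0
    set P := univ.filter (fun p => dep c.E T (c.ctr w) p) with hP
    have hPsub : P ⊆ f0.erase (c.ctr w) := by
      intro p hp
      rw [hP, mem_filter] at hp
      exact mem_erase.2 ⟨hp.2.2.1.symm, hp.2.2.2 f0 hf0E hvf0 hf0T⟩
    by_cases hW : ∃ p ∈ P, isW c.E p
    · obtain ⟨p, hpP, hpW⟩ := hW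
      have hpf := mem_erase.1 (hPsub hpP)
      have hdp : dep c.E T (c.ctr w) p := by
        rw [hP, mem_filter] at hpP
        exact hpP.2
      have hne : c.ctr w ≠ c.ctr p := by
        intro h
        have h1 := c.ctr_Dm hpW
        rw [← h] at h1
        exact hdom p h1 (c.dep_mem hT hdp)
      have hpc : p ≠ c.ctr p := (c.ctr_Dm hpW).1
      have hcf : c.ctr p ∈ f0 := c.W_edge hpW hf0E hpf.2
      have hf0eq := c.edge_eq hf0E hvf0 hpf.2 hcf hpf.1.symm hne hpc
      have hPs : P ⊆ {p, c.ctr p} := by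
        intro x hx
        have h1 := mem_erase.1 (hPsub hx)
        rw [hf0eq] at h1
        simp only [mem_insert, mem_singleton] at h1 ⊢
        rcases h1 with ⟨h2, h3 | h3 | h3⟩
        · exact absurd h3 h2
        · exact Or.inl h3
        · exact Or.inr h3
      calc ∑ x ∈ P, c.cost x ≤ ∑ x ∈ ({p, c.ctr p} : Finset V), c.cost x :=
            sum_le_sum_of_subset hPs
        _ = c.cost p + c.cost (c.ctr p) := sum_pair hpc
        _ ≤ 12 := by
            rw [c.cost_C (c.ctr_isC hpW)]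
            exact c.cost_le p
    · push Not at hW
      have h6 : ∀ x ∈ P, c.cost x ≤ 6 := by
        intro x hx
        have h1 := hW x hx
        unfold cost
        rw [if_neg h1]
        split_ifs <;> omega
      have hcard : P.card ≤ 2 := by
        have h1 := card_le_card hPsub
        rw [card_erase_of_mem hvf0] at h1
        have h2 := c.card_le f0 hf0E
        omega
      calc ∑ x ∈ P, c.cost x ≤ P.card • 6 := sum_le_card_nsmul _ _ _ h6
        _ ≤ 12 := by
            rw [smul_eq_mul]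
            omega
  · omega

end Ctx
end H70G3

end S_WU4

section S_WSl

/-!
# Row WSl : the slots (w, T), w ∈ W

v = ctr w. Use `ldM2_add_ldII1_le`, `ldU4_le`.  cap w T = if w ∈ T then 24 - 8 t else if insert w T ∈ D then 0 else 12.
(1) w ∉ T, v ∉ T: insert w T ∉ D (otherwise an edge at w inside insert w T; it contains v = ctr w by `W_edge`, v ≠ w, so v ∈ T), cap = 12.
  ldII3 = 0 (T = insert w S ∋ w), ldR1 = 0 (dep T w p needs w ∈ T), ldSW = ldIAW = ldPart = 0 (w ∈ {w,..} ⊆ T because at' E T w = {e} gives e ⊆ T),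
  ldU4 = 0 (needs v ∈ T).
  (1a) insert v T ∉ D: ldM2 = 0, ldA ≤ 12, ldII1 = 0: a source (S, z) has T = insert (rep z) (S.erase v), v ∈ S (dep S v p), T ∈ D, S ∈ D, so
       insert v T = S ∪ T ∈ D (`union_D`), contradiction.
  (1b) insert v T ∈ D: ldA = 0, ldM2 + ldII1 ≤ 12.
(2) w ∉ T, v ∈ T: ldM2 = ldA = 0, ldII1 = 0 (T = insert (rep z) (S.erase v) does not contain v: rep z ≠ v by `ne_of_W_C`), ldII3 = ldR1 = ldSW = ldIAW = ldPart = 0.
  ldU4 ≤ 12 and if insert w T ∈ D then ldU4 = 0.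
(3) w ∈ T: then v ∈ T (`ctr_mem`), ldM2 = ldA = 0, ldII1 = 0 (as in (2)), ldU4 = 0 (u = w: Dm w v, w ∈ T).  There is an edge in at' E T w.
  N := card (at' E T w) ≥ 1, t w T ≤ N (`t_le_card`) and t w T ≤ card (tri w) = 3.
  N ≥ 2: ldR1 = 0: dep T w p with p ≠ v gives at' E T w = {{w,v,p}} (`at_W_dep`), so only p = v, cost v = 0 (`cost_C`, `ctr_isC`); ldII3 = ldSW = ldIAW
  = ldPart = 0 because they need at' E T w = {_}.  So load 0 ≤ cap.
  N = 1: cap ≥ 16. We show load ≤ 12. at' E T w = {e}, v ∈ e.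
   If some p ≠ v has dep T w p then e = {w, v, p}, and p is the only such vertex; ldR1 ≤ cost p.
     p ∈ W: ldR1 ≤ 12; ldII3 = 0, ldSW = 0 (they need {w,v,z} = {w,v,p}, so z = p ∈ C), ldIAW = 0, ldPart = 0 (need p ∈ R). 
       [For {w,v,z} = {w,v,p} with z ≠ w, v, one gets z = p. Note z ≠ w, v: for ldSW z ≠ ctr w by definition and z ∈ C, w ∈ W; for ldII3 z ≠ v from dep S v z and
        z ∈ C; for ldIAW, ldPart the vertex is in R, so differs from w ∈ W and v ∈ C.]
     p ∈ R: ldR1 ≤ 6; ldII3 = ldSW = 0; ldIAW ≤ 6 and is 0 if T.erase w ∉ D; ldPart ≤ 4 and is 0 if T.erase w ∈ D: total ≤ 12.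
     p ∈ C or L (neither W nor R): ldR1 = 0 (cost 0); ldIAW = ldPart = 0; ldII3 ≤ 6, and if ldII3 ≠ 0 then T = insert w S with S ∈ D, w ∉ S, so T.erase w = S ∈ D,
       so ldSW = 0; ldSW ≤ 12. total ≤ 12.   (ldII3 ≤ 6: at most one p: T.erase w = S, at' S v = {{v,p,z}} by `at_unique`, z determined by at' E T w = {{w,v,z}}.)
   If no p ≠ v has dep T w p: then e has no third vertex (every third vertex z of e has dep T w z because e is the only T-edge at w), all of
     ldR1, ldII3, ldSW, ldIAW, ldPart are 0.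
 Second theorem: w ∈ T and N = 1: load ≤ 12 < 16 ≤ cap.
-/

open Finset Classical

universe u

namespace H70G3
namespace Ctx
variable {V : Type u} [Fintype V] [DecidableEq V] (c : Ctx V)

/-- `{w, ctr w, z}` is the only edge at `w` inside `T` and has three vertices -/
def WSl_third (w : V) (T : Finset V) (z : V) : Prop :=
  z ≠ w ∧ z ≠ c.ctr w ∧ at' c.E T w = {{w, c.ctr w, z}}

omit [Fintype V] in
lemma WSl_inj {w v z z' : V} (h : ({w, v, z} : Finset V) = {w, v, z'}) (hz : z ≠ w) (hzv : z ≠ v) :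
    z = z' := by
  have h1 : z ∈ ({w, v, z'} : Finset V) := by rw [← h]; simp
  simp only [mem_insert, mem_singleton] at h1
  rcases h1 with h1 | h1 | h1
  · exact absurd h1 hz
  · exact absurd h1 hzv
  · exact h1

lemma WSl_unique {w z z' : V} {T : Finset V} (h : c.WSl_third w T z) (h' : c.WSl_third w T z') :
    z = z' := by
  have h1 := h.2.2.symm.trans h'.2.2
  have h2 : ({w, c.ctr w, z} : Finset V) = {w, c.ctr w, z'} := Finset.singleton_injective h1
  exact WSl_inj h2 h.1 h.2.1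

lemma WSl_mem {w z : V} {T : Finset V} (h : at' c.E T w = {{w, c.ctr w, z}}) : w ∈ T := by
  have h1 : ({w, c.ctr w, z} : Finset V) ∈ at' c.E T w := by rw [h]; exact mem_singleton_self _
  rw [c.mem_at] at h1
  exact h1.2.2 (by simp)

lemma WSl_of_dep {w p : V} {T : Finset V} (hw : isW c.E w) (hT : T ∈ c.D) (h : dep c.E T w p)
    (hp : p ≠ c.ctr w) : c.WSl_third w T p := ⟨h.2.1.symm, hp, c.at_W_dep hT h hw hp⟩

lemma WSl_R1_zero {w : V} {T : Finset V} (hw : isW c.E w) (hT : T ∈ c.D)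
    (h : ∀ z, c.WSl_third w T z → c.cost z = 0) : c.ldR1 w T = 0 := by
  unfold ldR1
  refine Finset.sum_eq_zero fun p hp => ?_
  rw [mem_filter] at hp
  by_cases hpv : p = c.ctr w
  · rw [hpv]; exact c.cost_C (c.ctr_isC hw)
  · exact h p (c.WSl_of_dep hw hT hp.2 hpv)

lemma WSl_R1_le {w z : V} {T : Finset V} (hw : isW c.E w) (hT : T ∈ c.D)
    (hz : c.WSl_third w T z) : c.ldR1 w T ≤ c.cost z := by
  unfold ldR1
  calc ∑ p ∈ univ.filter (fun p => dep c.E T w p), c.cost p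
      ≤ ∑ p ∈ univ.filter (fun p => dep c.E T w p), (if p = z then c.cost z else 0) := by
        refine Finset.sum_le_sum fun p hp => ?_
        rw [mem_filter] at hp
        by_cases hpv : p = c.ctr w
        · rw [hpv, c.cost_C (c.ctr_isC hw)]; exact Nat.zero_le _
        · have h1 := c.WSl_unique (c.WSl_of_dep hw hT hp.2 hpv) hz
          rw [h1, if_pos rfl]
    _ ≤ ∑ p : V, (if p = z then c.cost z else 0) :=
        Finset.sum_le_sum_of_subset (Finset.filter_subset _ _)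
    _ = c.cost z := by rw [Finset.sum_ite_eq' univ z]; simp

lemma WSl_II3 {w : V} {T : Finset V} (hw : isW c.E w) (h : c.ldII3 w T ≠ 0) :
    ∃ z, c.WSl_third w T z ∧ isC c.E z ∧ T.erase w ∈ c.D := by
  unfold ldII3 at h
  have h1 : (univ.filter (fun p : V => c.rep (c.ctr w) = w ∧
    ∃ S z, c.srcII3 S p (c.ctr w) z ∧ T = insert w S)).Nonempty := by
    rw [← Finset.card_ne_zero]
    intro h0
    apply h
    rw [h0]
  obtain ⟨p, hp⟩ := h1
  rw [mem_filter] at hp
  obtain ⟨-, hrep, S, z, hsrc, hTS⟩ := hp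
  obtain ⟨hSD, hpR, hpair, hu, hins, hat⟩ := hsrc
  rw [hrep] at hins hat
  have hwS : w ∉ S := hu w (c.ctr_Dm hw)
  refine ⟨z, ⟨(c.ne_of_W_C hw hpair.2.1).symm, hpair.2.2.2.1.2.1.symm, ?_⟩, hpair.2.1, ?_⟩
  · rw [hTS]; exact hat
  · rw [hTS, Finset.erase_insert hwS]; exact hSD

lemma WSl_II3_le {w : V} {T : Finset V} (hw : isW c.E w) : c.ldII3 w T ≤ 6 := by
  unfold ldII3
  have h1 : (univ.filter (fun p : V => c.rep (c.ctr w) = w ∧
    ∃ S z, c.srcII3 S p (c.ctr w) z ∧ T = insert w S)).card ≤ 1 := by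
    rw [Finset.card_le_one]
    intro p1 hp1 p2 hp2
    rw [mem_filter] at hp1 hp2
    obtain ⟨-, hrep, S1, z1, hsrc1, hTS1⟩ := hp1
    obtain ⟨-, -, S2, z2, hsrc2, hTS2⟩ := hp2
    obtain ⟨hSD1, hpR1, hpair1, hu1, hins1, hat1⟩ := hsrc1
    obtain ⟨hSD2, hpR2, hpair2, hu2, hins2, hat2⟩ := hsrc2
    rw [hrep] at hat1 hat2
    have hwS1 : w ∉ S1 := hu1 w (c.ctr_Dm hw)
    have hwS2 : w ∉ S2 := hu2 w (c.ctr_Dm hw)
    have hS : S1 = S2 := by
      rw [← Finset.erase_insert hwS1, ← Finset.erase_insert hwS2, ← hTS1, ← hTS2]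
    subst hS
    have hz : z1 = z2 := by
      have t1 : c.WSl_third w (insert w S1) z1 :=
        ⟨(c.ne_of_W_C hw hpair1.2.1).symm, hpair1.2.2.2.1.2.1.symm, hat1⟩
      have t2 : c.WSl_third w (insert w S1) z2 :=
        ⟨(c.ne_of_W_C hw hpair2.2.1).symm, hpair2.2.2.2.1.2.1.symm, hat2⟩
      exact c.WSl_unique t1 t2
    subst hz
    have n1 : p1 ≠ z1 := c.ne_of_R_C hpR1 hpair1.2.1
    have n2 : p2 ≠ z1 := c.ne_of_R_C hpR2 hpair2.2.1
    have a1 := c.at_unique hSD1 hpair1.2.2.2.1 hpair1.2.2.1 n1.symm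
    have a2 := c.at_unique hSD2 hpair2.2.2.2.1 hpair2.2.2.1 n2.symm
    have a3 : ({c.ctr w, z1, p1} : Finset V) = {c.ctr w, z1, p2} :=
      Finset.singleton_injective (a1.symm.trans a2)
    exact WSl_inj a3 hpair1.2.2.1.2.1.symm n1
  omega

lemma WSl_SW {w : V} {T : Finset V} (hw : isW c.E w) (h : c.ldSW w T ≠ 0) :
    ∃ z, c.WSl_third w T z ∧ isC c.E z ∧ T.erase w ∉ c.D := by
  unfold ldSW at h
  split_ifs at h with hc
  · obtain ⟨h1, z, hz, hzc, hat⟩ := hc
    exact ⟨z, ⟨(c.ne_of_W_C hw hz).symm, hzc, hat⟩, hz, h1⟩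
  · exact absurd rfl h

lemma WSl_SW_le (w : V) (T : Finset V) : c.ldSW w T ≤ 12 := by
  unfold ldSW
  split_ifs <;> omega

lemma WSl_IAW {w : V} {T : Finset V} (hw : isW c.E w) (h : c.ldIAW w T ≠ 0) :
    ∃ z, c.WSl_third w T z ∧ isR c.E z ∧ T.erase w ∈ c.D := by
  unfold ldIAW at h
  have h1 : (univ.filter (fun p : V => isR c.E p ∧ T.erase w ∈ c.D ∧
      at' c.E T w = {{w, c.ctr w, p}})).Nonempty := by
    rw [← Finset.card_ne_zero]
    intro h0
    apply h
    rw [h0]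
  obtain ⟨p, hp⟩ := h1
  rw [mem_filter] at hp
  obtain ⟨-, hR, hD, hat⟩ := hp
  exact ⟨p, ⟨c.ne_of_R_W hR hw, c.ne_of_R_C hR (c.ctr_isC hw), hat⟩, hR, hD⟩

lemma WSl_IAW_le {w : V} {T : Finset V} (hw : isW c.E w) : c.ldIAW w T ≤ 6 := by
  unfold ldIAW
  have h1 : (univ.filter (fun p : V => isR c.E p ∧ T.erase w ∈ c.D ∧
      at' c.E T w = {{w, c.ctr w, p}})).card ≤ 1 := by
    rw [Finset.card_le_one]
    intro p1 hp1 p2 hp2
    rw [mem_filter] at hp1 hp2
    obtain ⟨-, hR1, -, hat1⟩ := hp1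
    obtain ⟨-, hR2, -, hat2⟩ := hp2
    exact c.WSl_unique ⟨c.ne_of_R_W hR1 hw, c.ne_of_R_C hR1 (c.ctr_isC hw), hat1⟩
      ⟨c.ne_of_R_W hR2 hw, c.ne_of_R_C hR2 (c.ctr_isC hw), hat2⟩
  omega

lemma WSl_Part {w : V} {T : Finset V} (hw : isW c.E w) (h : c.ldPart w T ≠ 0) :
    ∃ z, c.WSl_third w T z ∧ isR c.E z ∧ T.erase w ∉ c.D := by
  unfold ldPart at h
  split_ifs at h with hc
  · obtain ⟨h1, z, hz, hat⟩ := hc
    exact ⟨z, ⟨c.ne_of_R_W hz hw, c.ne_of_R_C hz (c.ctr_isC hw), hat⟩, hz, h1⟩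
  · exact absurd rfl h

lemma WSl_Part_le (w : V) (T : Finset V) : c.ldPart w T ≤ 4 := by
  unfold ldPart
  split_ifs <;> omega

/-- the five loads of the rules at the third vertex -/
lemma WSl_five {w : V} {T : Finset V} (hw : isW c.E w) (hT : T ∈ c.D) :
    c.ldII3 w T + c.ldR1 w T + c.ldSW w T + c.ldIAW w T + c.ldPart w T ≤ 12 ∧
    ((¬ ∃ z, c.WSl_third w T z) →
      c.ldII3 w T + c.ldR1 w T + c.ldSW w T + c.ldIAW w T + c.ldPart w T = 0) := by
  have hnone : (¬ ∃ z, c.WSl_third w T z) →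
      c.ldII3 w T + c.ldR1 w T + c.ldSW w T + c.ldIAW w T + c.ldPart w T = 0 := by
    intro hn
    have a1 : c.ldII3 w T = 0 := by
      by_contra h
      obtain ⟨z, hz, -⟩ := c.WSl_II3 hw h
      exact hn ⟨z, hz⟩
    have a2 : c.ldR1 w T = 0 := c.WSl_R1_zero hw hT fun z hz => absurd ⟨z, hz⟩ hn
    have a3 : c.ldSW w T = 0 := by
      by_contra h
      obtain ⟨z, hz, -⟩ := c.WSl_SW hw h
      exact hn ⟨z, hz⟩
    have a4 : c.ldIAW w T = 0 := by
      by_contra h
      obtain ⟨z, hz, -⟩ := c.WSl_IAW hw h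
      exact hn ⟨z, hz⟩
    have a5 : c.ldPart w T = 0 := by
      by_contra h
      obtain ⟨z, hz, -⟩ := c.WSl_Part hw h
      exact hn ⟨z, hz⟩
    omega
  refine ⟨?_, hnone⟩
  by_cases hex : ∃ z, c.WSl_third w T z
  swap
  · have := hnone hex
    omega
  obtain ⟨z, hz⟩ := hex
  have hII := c.WSl_II3_le (T := T) hw
  have hR1 := c.WSl_R1_le hw hT hz
  have hSW := c.WSl_SW_le w T
  have hIA := c.WSl_IAW_le (T := T) hw
  have hPa := c.WSl_Part_le w T
  have b1 : ¬ isC c.E z → c.ldII3 w T = 0 := by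
    intro hC
    by_contra h
    obtain ⟨z', hz', hC', -⟩ := c.WSl_II3 hw h
    rw [c.WSl_unique hz' hz] at hC'
    exact hC hC'
  have b3 : ¬ isC c.E z → c.ldSW w T = 0 := by
    intro hC
    by_contra h
    obtain ⟨z', hz', hC', -⟩ := c.WSl_SW hw h
    rw [c.WSl_unique hz' hz] at hC'
    exact hC hC'
  have b4 : ¬ isR c.E z → c.ldIAW w T = 0 := by
    intro hC
    by_contra h
    obtain ⟨z', hz', hC', -⟩ := c.WSl_IAW hw h
    rw [c.WSl_unique hz' hz] at hC'
    exact hC hC'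
  have b5 : ¬ isR c.E z → c.ldPart w T = 0 := by
    intro hC
    by_contra h
    obtain ⟨z', hz', hC', -⟩ := c.WSl_Part hw h
    rw [c.WSl_unique hz' hz] at hC'
    exact hC hC'
  have c1 : c.ldII3 w T ≠ 0 → c.ldSW w T = 0 := by
    intro h
    obtain ⟨_, _, _, hD⟩ := c.WSl_II3 hw h
    by_contra h2
    obtain ⟨_, _, _, hD2⟩ := c.WSl_SW hw h2
    exact hD2 hD
  have c2 : c.ldIAW w T ≠ 0 → c.ldPart w T = 0 := by
    intro h
    obtain ⟨_, _, _, hD⟩ := c.WSl_IAW hw h
    by_contra h2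
    obtain ⟨_, _, _, hD2⟩ := c.WSl_Part hw h2
    exact hD2 hD
  by_cases hzW : isW c.E z
  · have d1 := b1 (c.W_not_C hzW)
    have d2 := b3 (c.W_not_C hzW)
    have d3 := b4 (c.W_not_R hzW)
    have d4 := b5 (c.W_not_R hzW)
    rw [c.cost_W hzW] at hR1
    omega
  by_cases hzR : isR c.E z
  · have hzC : ¬ isC c.E z := fun h => c.C_not_R h hzR
    have d1 := b1 hzC
    have d2 := b3 hzC
    rw [c.cost_R hzR] at hR1
    by_cases h0 : c.ldIAW w T = 0
    · omega
    · have := c2 h0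
      omega
  · have d3 := b4 hzR
    have d4 := b5 hzR
    rw [c.cost_zero hzW hzR] at hR1
    by_cases h0 : c.ldII3 w T = 0
    · omega
    · have := c1 h0
      omega

lemma WSl_II1_zero {w : V} {T : Finset V}
    (h : ∀ (S : Finset V) (z : V), isC c.E z → S ∈ c.D → c.ctr w ∈ S →
      insert (c.rep z) (S.erase (c.ctr w)) ∈ c.D →
      T ≠ insert (c.rep z) (S.erase (c.ctr w))) : c.ldII1 w T = 0 := by
  unfold ldII1
  have h1 : (univ.filter (fun p : V => c.rep (c.ctr w) = w ∧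
    ∃ S z, c.srcII1 S p (c.ctr w) z ∧ T = insert (c.rep z) (S.erase (c.ctr w)))) = ∅ := by
    rw [Finset.filter_eq_empty_iff]
    rintro p - ⟨-, S, z, hsrc, hTS⟩
    obtain ⟨hSD, -, hpair, -, -, hins⟩ := hsrc
    exact h S z hpair.2.1 hSD hpair.2.2.1.1 hins hTS
  rw [h1, Finset.card_empty]

lemma WSl_II1_zero_of_mem {w : V} {T : Finset V} (hw : isW c.E w) (hv : c.ctr w ∈ T) :
    c.ldII1 w T = 0 := by
  refine c.WSl_II1_zero fun S z hz _ _ _ => ?_
  intro hTS
  rw [hTS, Finset.mem_insert] at hv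
  rcases hv with h | h
  · exact c.ne_of_W_C (c.rep_isW hz) (c.ctr_isC hw) h.symm
  · exact (Finset.mem_erase.1 h).1 rfl

lemma WSl_M2_zero {w : V} {T : Finset V} (hv : c.ctr w ∈ T) : c.ldM2 w T = 0 := by
  unfold ldM2
  rw [if_neg]
  rintro ⟨-, h, -⟩
  exact h hv

lemma WSl_A_zero {w : V} {T : Finset V} (hv : c.ctr w ∈ T) : c.ldA w T = 0 := by
  unfold ldA
  rw [if_neg]
  rintro ⟨h, -⟩
  exact h hv

/-- `w ∈ T` : only the five loads remain -/
lemma WSl_in {w : V} {T : Finset V} (hw : isW c.E w) (hT : T ∈ c.D) (hwT : w ∈ T) :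
    c.ldW w T = c.ldII3 w T + c.ldR1 w T + c.ldSW w T + c.ldIAW w T + c.ldPart w T := by
  have hv := c.ctr_mem hw hT hwT
  have a1 := c.WSl_M2_zero hv
  have a2 := c.WSl_A_zero hv
  have a3 := c.WSl_II1_zero_of_mem hw hv
  have a4 : c.ldU4 w T = 0 := by
    unfold ldU4
    rw [if_neg]
    rintro ⟨-, h, -⟩
    exact h w (c.ctr_Dm hw) hwT
  unfold ldW
  omega

lemma WSl_cap_in {w : V} {T : Finset V} (hw : isW c.E w) (hwT : w ∈ T) :
    c.cap w T = 24 - 8 * c.t w T := by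
  unfold cap
  rw [if_pos hw, if_pos hwT]

theorem ldW_le {w : V} {T : Finset V} (hw : isW c.E w) (hT : T ∈ c.D) : c.ldW w T ≤ c.cap w T := by
  obtain ⟨hfive, hnone⟩ := c.WSl_five hw hT
  by_cases hwT : w ∈ T
  · rw [c.WSl_in hw hT hwT, c.WSl_cap_in hw hwT]
    by_cases hex : ∃ z, c.WSl_third w T z
    · obtain ⟨z, hz⟩ := hex
      have h1 := c.t_le_card w T
      rw [hz.2.2, Finset.card_singleton] at h1
      omega
    · rw [hnone hex]
      exact Nat.zero_le _
  · have hn : ¬ ∃ z, c.WSl_third w T z := by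
      rintro ⟨z, hz⟩
      exact hwT (c.WSl_mem hz.2.2)
    have h0 := hnone hn
    have hcap : c.cap w T = if insert w T ∈ c.D then 0 else 12 := by
      unfold cap
      rw [if_pos hw, if_neg hwT]
    by_cases hv : c.ctr w ∈ T
    · have a1 := c.WSl_M2_zero hv
      have a2 := c.WSl_A_zero hv
      have a3 := c.WSl_II1_zero_of_mem hw hv
      have a4 := c.ldU4_le hw hT
      rw [hcap]
      by_cases hi : insert w T ∈ c.D
      · have a5 : c.ldU4 w T = 0 := by
          unfold ldU4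
          rw [if_neg]
          rintro ⟨-, -, h⟩
          exact h hi
        rw [if_pos hi]
        unfold ldW
        omega
      · rw [if_neg hi]
        unfold ldW
        omega
    · have hi : insert w T ∉ c.D := by
        intro h
        have h1 := c.ctr_mem hw h (Finset.mem_insert_self w T)
        rcases Finset.mem_insert.1 h1 with h2 | h2
        · exact (c.ctr_Dm hw).1 h2.symm
        · exact hv h2
      rw [hcap, if_neg hi]
      have a4 : c.ldU4 w T = 0 := by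
        unfold ldU4
        rw [if_neg]
        rintro ⟨h, -, -⟩
        exact hv h
      by_cases hvi : insert (c.ctr w) T ∈ c.D
      · have a2 : c.ldA w T = 0 := by
          unfold ldA
          rw [if_neg]
          rintro ⟨-, h⟩
          exact h hvi
        have a5 := c.ldM2_add_ldII1_le hw hT
        unfold ldW
        omega
      · have a1 : c.ldM2 w T = 0 := by
          unfold ldM2
          rw [if_neg]
          rintro ⟨-, -, h⟩
          exact hvi h
        have a2 : c.ldA w T ≤ 12 := by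
          unfold ldA
          split_ifs <;> omega
        have a3 : c.ldII1 w T = 0 := by
          refine c.WSl_II1_zero fun S z hz hSD hvS hins => ?_
          intro hTS
          apply hvi
          have e : insert (c.ctr w) T = S ∪ T := by
            rw [hTS]
            ext x
            simp only [Finset.mem_insert, Finset.mem_union, Finset.mem_erase]
            by_cases hx : x = c.ctr w
            · subst hx; simp [hvS]
            · simp only [hx, false_or, ne_eq, not_false_eq_true, true_and]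
              tauto
          rw [e]
          exact c.union_D hSD hT
        unfold ldW
        omega

theorem ldW_lt {w : V} {T : Finset V} (hw : isW c.E w) (hT : T ∈ c.D) (hwT : w ∈ T)
    (h1 : (at' c.E T w).card = 1) : c.ldW w T < c.cap w T := by
  obtain ⟨hfive, -⟩ := c.WSl_five hw hT
  rw [c.WSl_in hw hT hwT, c.WSl_cap_in hw hwT]
  have h2 := c.t_le_card w T
  rw [h1] at h2
  omega

end Ctx
end H70G3

end S_WSl

section S_Ta

/-!
# Row Ta : transfer of the classes M2 and U4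

Use `transfer` (Basic) after writing the right side as one sum over triples:
 Σ_{w ∈ Ws} Σ_{T ∈ D} ldM2 w T = Σ over triples (w, T, p) (Finset.sum_sigma / sum_product) of the function
 F(w,T,p) = if (condition) ∧ dep (insert (ctr w) T) (ctr w) p then cost p else 0.
For x = (S, p) in the class choose v = v(x) (Classical.choose): isC v, dep S v p, S.erase v ∈ D.
 i(x) = (rep v, S.erase v, p).  rep v ∈ Ws (`rep_isW`), ctr (rep v) = v (`ctr_rep`), v ∉ S.erase v, insert v (S.erase v) = S ∈ D, so F(i x) = cost p.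
 Injective: from (w,T,p) we get v = ctr w and S = insert v T.
For U4: i(x) = (rep v, S, p): v ∈ S, conditions as in the definition of cU4 with ctr (rep v) = v.
-/

open Finset Classical

universe u

namespace H70G3
namespace Ctx
variable {V : Type u} [Fintype V] [DecidableEq V] (c : Ctx V)

theorem sum_M2 : ∑ x ∈ c.Pr.filter (fun x => c.cM2 x.1 x.2), c.cost x.2 ≤
    ∑ w ∈ c.Ws, ∑ T ∈ c.D, c.ldM2 w T := by
  have hR : ∑ w ∈ c.Ws, ∑ T ∈ c.D, c.ldM2 w T =
      ∑ b ∈ c.Ws ×ˢ (c.D ×ˢ (univ : Finset V)),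
        (if (c.rep (c.ctr b.1) = b.1 ∧ c.ctr b.1 ∉ b.2.1 ∧ insert (c.ctr b.1) b.2.1 ∈ c.D) ∧
          dep c.E (insert (c.ctr b.1) b.2.1) (c.ctr b.1) b.2.2 then c.cost b.2.2 else 0) := by
    rw [sum_product]
    refine sum_congr rfl fun w _ => ?_
    rw [sum_product]
    refine sum_congr rfl fun T _ => ?_
    unfold ldM2
    by_cases h : c.rep (c.ctr w) = w ∧ c.ctr w ∉ T ∧ insert (c.ctr w) T ∈ c.D
    · rw [if_pos h, sum_filter]
      refine sum_congr rfl fun p _ => ?_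
      by_cases h2 : dep c.E (insert (c.ctr w) T) (c.ctr w) p
      · rw [if_pos h2, if_pos ⟨h, h2⟩]
      · rw [if_neg h2, if_neg (fun h3 => h2 h3.2)]
    · rw [if_neg h]
      symm
      refine sum_eq_zero fun p _ => ?_
      rw [if_neg (fun h3 => h h3.1)]
  rw [hR]
  have hi : ∀ x ∈ c.Pr.filter (fun x => c.cM2 x.1 x.2), ∃ v, isC c.E v ∧ dep c.E x.1 v x.2 ∧
      x.1.erase v ∈ c.D := by
    intro x hx
    rw [mem_filter] at hx
    exact hx.2
  obtain ⟨g, hg⟩ : ∃ g : Finset V × V → V, ∀ x ∈ c.Pr.filter (fun x => c.cM2 x.1 x.2),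
      isC c.E (g x) ∧ dep c.E x.1 (g x) x.2 ∧ x.1.erase (g x) ∈ c.D :=
    ⟨fun x => if h : ∃ v, isC c.E v ∧ dep c.E x.1 v x.2 ∧ x.1.erase v ∈ c.D then h.choose else x.2,
      fun x hx => by
        have h := hi x hx
        simp only [dif_pos h]
        exact h.choose_spec⟩
  apply transfer _ _ _ _ (fun x => (c.rep (g x), x.1.erase (g x), x.2))
  · intro x hx
    obtain ⟨h1, h2, h3⟩ := hg x hx
    simp only [mem_product, mem_univ, and_true]
    refine ⟨?_, h3⟩
    unfold Ws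
    rw [mem_filter]
    exact ⟨mem_univ _, c.rep_isW h1⟩
  · intro x hx y hy hxy
    obtain ⟨h1, h2, h3⟩ := hg x hx
    obtain ⟨h1', h2', h3'⟩ := hg y hy
    simp only [Prod.mk.injEq] at hxy
    obtain ⟨e1, e2, e3⟩ := hxy
    have e4 : g x = g y := by
      rw [← c.ctr_rep h1, ← c.ctr_rep h1', e1]
    have e5 : x.1 = y.1 := by
      rw [← insert_erase h2.1, ← insert_erase h2'.1, e2, e4]
    exact Prod.ext e5 e3
  · intro x hx
    obtain ⟨h1, h2, h3⟩ := hg x hx
    have hS : x.1 ∈ c.D := by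
      rw [mem_filter] at hx
      have := hx.1
      unfold Pr at this
      exact (mem_product.1 this).1
    simp only [c.ctr_rep h1, insert_erase h2.1]
    rw [if_pos ⟨⟨trivial, notMem_erase _ _, hS⟩, h2⟩]

theorem sum_U4 : ∑ x ∈ c.Pr.filter (fun x => c.cU4 x.1 x.2), c.cost x.2 ≤
    ∑ w ∈ c.Ws, ∑ T ∈ c.D, c.ldU4 w T := by
  have hR : ∑ w ∈ c.Ws, ∑ T ∈ c.D, c.ldU4 w T =
      ∑ b ∈ c.Ws ×ˢ (c.D ×ˢ (univ : Finset V)),
        (if (c.ctr b.1 ∈ b.2.1 ∧ (∀ u, Dm c.E u (c.ctr b.1) → u ∉ b.2.1) ∧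
          insert b.1 b.2.1 ∉ c.D) ∧
          dep c.E b.2.1 (c.ctr b.1) b.2.2 then c.cost b.2.2 else 0) := by
    rw [sum_product]
    refine sum_congr rfl fun w _ => ?_
    rw [sum_product]
    refine sum_congr rfl fun T _ => ?_
    unfold ldU4
    by_cases h : c.ctr w ∈ T ∧ (∀ u, Dm c.E u (c.ctr w) → u ∉ T) ∧ insert w T ∉ c.D
    · rw [if_pos h, sum_filter]
      refine sum_congr rfl fun p _ => ?_
      by_cases h2 : dep c.E T (c.ctr w) p
      · rw [if_pos h2, if_pos ⟨h, h2⟩]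
      · rw [if_neg h2, if_neg (fun h3 => h2 h3.2)]
    · rw [if_neg h]
      symm
      refine sum_eq_zero fun p _ => ?_
      rw [if_neg (fun h3 => h h3.1)]
  rw [hR]
  have hi : ∀ x ∈ c.Pr.filter (fun x => c.cU4 x.1 x.2), ∃ v, isC c.E v ∧ dep c.E x.1 v x.2 ∧
      (∀ u, Dm c.E u v → u ∉ x.1) ∧ insert (c.rep v) x.1 ∉ c.D := by
    intro x hx
    rw [mem_filter] at hx
    exact hx.2
  obtain ⟨g, hg⟩ : ∃ g : Finset V × V → V, ∀ x ∈ c.Pr.filter (fun x => c.cU4 x.1 x.2),
      isC c.E (g x) ∧ dep c.E x.1 (g x) x.2 ∧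
      (∀ u, Dm c.E u (g x) → u ∉ x.1) ∧ insert (c.rep (g x)) x.1 ∉ c.D :=
    ⟨fun x => if h : ∃ v, isC c.E v ∧ dep c.E x.1 v x.2 ∧
      (∀ u, Dm c.E u v → u ∉ x.1) ∧ insert (c.rep v) x.1 ∉ c.D then h.choose else x.2,
      fun x hx => by
        have h := hi x hx
        simp only [dif_pos h]
        exact h.choose_spec⟩
  apply transfer _ _ _ _ (fun x => (c.rep (g x), x.1, x.2))
  · intro x hx
    obtain ⟨h1, h2, h3, h4⟩ := hg x hx
    have hS : x.1 ∈ c.D := by
      rw [mem_filter] at hx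
      have := hx.1
      unfold Pr at this
      exact (mem_product.1 this).1
    simp only [mem_product, mem_univ, and_true]
    refine ⟨?_, hS⟩
    unfold Ws
    rw [mem_filter]
    exact ⟨mem_univ _, c.rep_isW h1⟩
  · intro x hx y hy hxy
    simp only [Prod.mk.injEq] at hxy
    obtain ⟨e1, e2, e3⟩ := hxy
    exact Prod.ext e2 e3
  · intro x hx
    obtain ⟨h1, h2, h3, h4⟩ := hg x hx
    simp only [c.ctr_rep h1]
    rw [if_pos ⟨⟨h2.1, h3, h4⟩, h2⟩]

end Ctx
end H70G3

end S_Ta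

section S_Tb

/-!
# Row Tb : transfer of the classes II1 and II3

Σ_{w ∈ Ws} Σ_{T ∈ D} ldII1 w T = Σ over triples (w,T,p) of (if the condition in the definition of ldII1 holds for p then 6 else 0)
(6 * card (filter) = Σ_p if .. then 6 else 0: Finset.card_filter / sum_boole).
For x = (S,p) choose v, z with srcII1 S p v z. i(x) = (rep v, insert (rep z) (S.erase v), p).  cost p = 6 (`cost_R`), rep v ∈ Ws, T ∈ D (part of srcII1),
ctr (rep v) = v (`ctr_rep`), rep (ctr (rep v)) = rep v.  Injective: two x with the same image have the same rep v, hence the same v (apply ctr), and then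
the same S by `srcII1_unique`, p is part of the image.
II3: i(x) = (rep v, insert (rep v) S, p); rep v ∉ S because Dm (rep v) v (`rep_Dm`), so S = T.erase (rep v).
-/

open Finset Classical

universe u

namespace H70G3
namespace Ctx
variable {V : Type u} [Fintype V] [DecidableEq V] (c : Ctx V)

private lemma Tb_sum3 (P : V → Finset V → V → Prop) [∀ w T p, Decidable (P w T p)] :
    ∑ w ∈ c.Ws, ∑ T ∈ c.D, 6 * (univ.filter (fun p : V => P w T p)).card =
    ∑ x ∈ c.Ws ×ˢ (c.D ×ˢ (univ : Finset V)), if P x.1 x.2.1 x.2.2 then 6 else 0 := by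
  rw [sum_product]
  refine sum_congr rfl fun w _ => ?_
  rw [sum_product]
  refine sum_congr rfl fun T _ => ?_
  rw [card_filter, mul_sum]
  refine sum_congr rfl fun p _ => ?_
  dsimp only
  split_ifs <;> rfl

theorem sum_II1 : ∑ x ∈ c.Pr.filter (fun x => ∃ v z, c.srcII1 x.1 x.2 v z), c.cost x.2 ≤
    ∑ w ∈ c.Ws, ∑ T ∈ c.D, c.ldII1 w T := by
  have h0 : ∀ x : Finset V × V, ∃ vz : V × V, (∃ v z, c.srcII1 x.1 x.2 v z) →
      c.srcII1 x.1 x.2 vz.1 vz.2 := by
    intro x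
    by_cases h : ∃ v z, c.srcII1 x.1 x.2 v z
    · obtain ⟨v, z, h⟩ := h
      exact ⟨(v, z), fun _ => h⟩
    · exact ⟨(x.2, x.2), fun h' => absurd h' h⟩
  choose F hF using h0
  unfold ldII1
  rw [c.Tb_sum3 (fun w T p => c.rep (c.ctr w) = w ∧
    ∃ S z, c.srcII1 S p (c.ctr w) z ∧ T = insert (c.rep z) (S.erase (c.ctr w)))]
  refine transfer _ _ _ _ (fun x => (c.rep (F x).1, insert (c.rep (F x).2) (x.1.erase (F x).1), x.2))
    ?_ ?_ ?_
  · intro x hx
    rw [mem_filter] at hx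
    have h1 := hF x hx.2
    rw [mem_product, mem_product]
    refine ⟨?_, ?_, mem_univ _⟩
    · unfold Ws
      rw [mem_filter]
      exact ⟨mem_univ _, c.rep_isW h1.2.2.1.1⟩
    · exact h1.2.2.2.2.2
  · intro x hx y hy hxy
    rw [mem_filter] at hx hy
    have h1 := hF x hx.2
    have h2 := hF y hy.2
    simp only [Prod.mk.injEq] at hxy
    obtain ⟨e1, e2, _⟩ := hxy
    have e4 : (F x).1 = (F y).1 := by
      rw [← c.ctr_rep h1.2.2.1.1, ← c.ctr_rep h2.2.2.1.1, e1]
    rw [e4] at h1 e2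
    obtain ⟨e5, e6, _⟩ := c.srcII1_unique h1 h2 e2
    exact Prod.ext e5 e6
  · intro x hx
    rw [mem_filter] at hx
    have h1 := hF x hx.2
    rw [c.cost_R h1.2.1]
    dsimp only
    rw [if_pos]
    rw [c.ctr_rep h1.2.2.1.1]
    exact ⟨rfl, x.1, (F x).2, h1, rfl⟩

theorem sum_II3 : ∑ x ∈ c.Pr.filter (fun x => ∃ v z, c.srcII3 x.1 x.2 v z), c.cost x.2 ≤
    ∑ w ∈ c.Ws, ∑ T ∈ c.D, c.ldII3 w T := by
  have h0 : ∀ x : Finset V × V, ∃ vz : V × V, (∃ v z, c.srcII3 x.1 x.2 v z) →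
      c.srcII3 x.1 x.2 vz.1 vz.2 := by
    intro x
    by_cases h : ∃ v z, c.srcII3 x.1 x.2 v z
    · obtain ⟨v, z, h⟩ := h
      exact ⟨(v, z), fun _ => h⟩
    · exact ⟨(x.2, x.2), fun h' => absurd h' h⟩
  choose F hF using h0
  unfold ldII3
  rw [c.Tb_sum3 (fun w T p => c.rep (c.ctr w) = w ∧
    ∃ S z, c.srcII3 S p (c.ctr w) z ∧ T = insert w S)]
  refine transfer _ _ _ _ (fun x => (c.rep (F x).1, insert (c.rep (F x).1) x.1, x.2)) ?_ ?_ ?_
  · intro x hx
    rw [mem_filter] at hx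
    have h1 := hF x hx.2
    rw [mem_product, mem_product]
    refine ⟨?_, ?_, mem_univ _⟩
    · unfold Ws
      rw [mem_filter]
      exact ⟨mem_univ _, c.rep_isW h1.2.2.1.1⟩
    · exact h1.2.2.2.2.1
  · intro x hx y hy hxy
    rw [mem_filter] at hx hy
    have h1 := hF x hx.2
    have h2 := hF y hy.2
    simp only [Prod.mk.injEq] at hxy
    obtain ⟨e1, e2, e3⟩ := hxy
    have e4 : c.rep (F x).1 ∉ x.1 := h1.2.2.2.1 _ (c.rep_Dm h1.2.2.1.1)
    have e5 : c.rep (F y).1 ∉ y.1 := h2.2.2.2.1 _ (c.rep_Dm h2.2.2.1.1)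
    have e6 : x.1 = y.1 := by
      rw [← erase_insert e4, e2, e1, erase_insert e5]
    exact Prod.ext e6 e3
  · intro x hx
    rw [mem_filter] at hx
    have h1 := hF x hx.2
    rw [c.cost_R h1.2.1]
    dsimp only
    rw [if_pos]
    rw [c.ctr_rep h1.2.2.1.1]
    exact ⟨rfl, x.1, (F x).2, h1, rfl⟩

end Ctx
end H70G3

end S_Tb

section S_Tc

/-!
# Row Tc : transfer of the classes R1, A, SW

Use `transfer`.
R1: x = (S,p), choose y with isW y, dep S y p; i(x) = (y, S, p) into the triples (w,T,p) with weight (if dep T w p then cost p else 0); injective.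
A: i(x) = (p, (S.erase p).erase (ctr p)) into pairs (w,T); ldA p X = 12 = cost p (`cost_W`): ctr p ∉ X, insert (ctr p) X ∉ D (part of clA).
   injective: S = insert p (insert (ctr p) X) as p, ctr p ∈ S.
SW: i(x) = (p, S); ldSW p S = 12 = cost p.
-/

open Finset Classical

universe u

namespace H70G3
namespace Ctx
variable {V : Type u} [Fintype V] [DecidableEq V] (c : Ctx V)

theorem sum_R1 : ∑ x ∈ c.Pr.filter (fun x => ∃ y, isW c.E y ∧ dep c.E x.1 y x.2), c.cost x.2 ≤
    ∑ w ∈ c.Ws, ∑ T ∈ c.D, c.ldR1 w T := by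
  have h0 : ∑ w ∈ c.Ws, ∑ T ∈ c.D, c.ldR1 w T =
      ∑ x ∈ c.Ws ×ˢ (c.D ×ˢ (univ : Finset V)),
        (if dep c.E x.2.1 x.1 x.2.2 then c.cost x.2.2 else 0) := by
    rw [sum_product]
    refine sum_congr rfl fun w _ => ?_
    rw [sum_product]
    refine sum_congr rfl fun T _ => ?_
    rw [ldR1, sum_filter]
  rw [h0]
  have hch : ∀ x : Finset V × V, ∃ y, (∃ y, isW c.E y ∧ dep c.E x.1 y x.2) →
      isW c.E y ∧ dep c.E x.1 y x.2 := by
    intro x
    by_cases h : ∃ y, isW c.E y ∧ dep c.E x.1 y x.2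
    · obtain ⟨y, hy⟩ := h; exact ⟨y, fun _ => hy⟩
    · exact ⟨x.2, fun h' => absurd h' h⟩
  choose f hf using hch
  apply transfer _ _ _ _ (fun x => (f x, x.1, x.2))
  · intro x hx
    rw [mem_filter, Pr, mem_product] at hx
    simp only [mem_product, mem_univ, and_true]
    exact ⟨by simp [Ws, (hf x hx.2).1], hx.1.1⟩
  · rintro ⟨S, p⟩ _ ⟨S', p'⟩ _ h
    simp only [Prod.mk.injEq] at h
    rw [h.2.1, h.2.2]
  · intro x hx
    rw [mem_filter] at hx
    simp only [if_pos (hf x hx.2).2]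
    exact le_refl _

theorem sum_A : ∑ x ∈ c.Pr.filter (fun x => c.clA x.1 x.2), c.cost x.2 ≤
    ∑ w ∈ c.Ws, ∑ T ∈ c.D, c.ldA w T := by
  rw [← sum_product' (s := c.Ws) (t := c.D) (f := fun w T => c.ldA w T)]
  apply transfer _ _ _ _ (fun x => (x.2, (x.1.erase x.2).erase (c.ctr x.2)))
  · intro x hx
    rw [mem_filter] at hx
    obtain ⟨-, hW, hS, hp, hc, hD, -⟩ := hx
    rw [mem_product]
    exact ⟨by simp [Ws, hW], hD⟩
  · rintro ⟨S, p⟩ hx ⟨S', p'⟩ hx' h
    simp only [Prod.mk.injEq] at h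
    obtain ⟨rfl, h⟩ := h
    rw [mem_filter] at hx hx'
    obtain ⟨-, hW, hS, hp, hc, hD, -⟩ := hx
    obtain ⟨-, hW', hS', hp', hc', hD', -⟩ := hx'
    simp only at hW hp hc hp' hc' h
    have hne : c.ctr p ≠ p := (c.ctr_Dm hW).1.symm
    have h1 := congrArg (insert (c.ctr p)) h
    rw [insert_erase (mem_erase.2 ⟨hne, hc⟩), insert_erase (mem_erase.2 ⟨hne, hc'⟩)] at h1
    have h2 := congrArg (insert p) h1
    rw [insert_erase hp, insert_erase hp'] at h2
    rw [h2]
  · rintro ⟨S, p⟩ hx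
    rw [mem_filter] at hx
    obtain ⟨-, hW, hS, hp, hc, hD, hn⟩ := hx
    simp only at hW hp hc hn ⊢
    rw [ldA, if_pos ⟨by simp, hn⟩]
    exact c.cost_le p

theorem sum_SW : ∑ x ∈ c.Pr.filter (fun x => c.clSW x.1 x.2), c.cost x.2 ≤
    ∑ w ∈ c.Ws, ∑ T ∈ c.D, c.ldSW w T := by
  rw [← sum_product' (s := c.Ws) (t := c.D) (f := fun w T => c.ldSW w T)]
  apply transfer _ _ _ _ (fun x => (x.2, x.1))
  · intro x hx
    rw [mem_filter] at hx
    obtain ⟨-, hW, hS, -⟩ := hx
    rw [mem_product]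
    exact ⟨by simp [Ws, hW], hS⟩
  · rintro ⟨S, p⟩ _ ⟨S', p'⟩ _ h
    simp only [Prod.mk.injEq] at h
    rw [h.1, h.2]
  · rintro ⟨S, p⟩ hx
    rw [mem_filter] at hx
    obtain ⟨-, hW, hS, hn, hz⟩ := hx
    simp only at hW hn hz ⊢
    rw [ldSW, if_pos ⟨hn, hz⟩]
    exact c.cost_le p

end Ctx
end H70G3

end S_Tc

section S_Td

/-!
# Row Td : transfer of the classes IAW, self, R

IAW: x = (S,p), choose v with isC v, rep v ∉ S, insert (rep v) S ∈ D, at' E (insert (rep v) S) (rep v) = {{rep v, v, p}}. i(x) = (rep v, insert (rep v) S, p) into the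
 triples with weight (if isR p ∧ T.erase w ∈ D ∧ at' E T w = {{w, ctr w, p}} then 6 else 0); T.erase (rep v) = S ∈ D; ctr (rep v) = v; injective.
self: x = (S,p): isR p (both ias and ib contain it), cost p = 6 = self p S; Σ_{y ∈ Rs} Σ_{S ∈ D} self y S.
R: for x = (S,p) with clR: claim  cost p ≤ Σ_{y ∈ Rs} om y S p + (if isW p then ldPart p S else 0).
 Let Y = {y ∈ Rs : dep S y p} (nonempty).  crit and red hold, so om y S p = the inner value for y ∈ Y.
 If Y has two elements then uniq fails for every y ∈ Y: om y S p = 3 (p ∈ R) resp. 6 (p ∈ W), two terms: ≥ 6 = cost p resp. ≥ 12 = cost p.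
 If Y = {y}: uniq y S p. p ∈ R: om = 6.  p ∈ W: if card (at' E S p) ≠ 1: om = 12.  If card (at' E S p) = 1: om = 8 and ldPart p S = 4: S.erase p ∉ D (crit);
   y ≠ ctr p (y ∈ R, ctr p ∈ C) so at' E S y = {{y, p, ctr p}} (`at_dep_W`); this edge is an S-edge at p, so at' E S p = {{y,p,ctr p}} = {{p, ctr p, y}}.
 Sum over x: Σ_x Σ_y om y S p ≤ Σ_{y ∈ Rs} Σ_{S ∈ D} Σ_p om y S p (swap sums, drop the filter), Σ_x (if isW p then ldPart p S else 0) ≤ Σ_{w ∈ Ws} Σ_{T ∈ D} ldPart w T.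
-/

open Finset Classical

universe u

namespace H70G3
namespace Ctx
variable {V : Type u} [Fintype V] [DecidableEq V] (c : Ctx V)

theorem sum_IAW : ∑ x ∈ c.Pr.filter (fun x => c.clIAW x.1 x.2), c.cost x.2 ≤
    ∑ w ∈ c.Ws, ∑ T ∈ c.D, c.ldIAW w T := by
  have hR : ∑ w ∈ c.Ws, ∑ T ∈ c.D, c.ldIAW w T =
      ∑ y ∈ c.Ws ×ˢ (c.D ×ˢ (univ : Finset V)),
        (if isR c.E y.2.2 ∧ y.2.1.erase y.1 ∈ c.D ∧ at' c.E y.2.1 y.1 = {{y.1, c.ctr y.1, y.2.2}}
          then 6 else 0) := by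
    rw [sum_product]
    apply sum_congr rfl
    intro w _
    rw [sum_product]
    apply sum_congr rfl
    intro T _
    rw [ldIAW, ← sum_filter, sum_const, smul_eq_mul, Nat.mul_comm]
  rw [hR]
  have hch : ∀ x : Finset V × V, ∃ v, x ∈ c.Pr.filter (fun x => c.clIAW x.1 x.2) →
      (isC c.E v ∧ c.rep v ∉ x.1 ∧ insert (c.rep v) x.1 ∈ c.D ∧
        at' c.E (insert (c.rep v) x.1) (c.rep v) = {{c.rep v, v, x.2}}) := by
    intro x
    by_cases hx : x ∈ c.Pr.filter (fun x => c.clIAW x.1 x.2)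
    · obtain ⟨_, _, v, hv⟩ := (mem_filter.1 hx).2
      exact ⟨v, fun _ => hv⟩
    · exact ⟨x.2, fun h => absurd h hx⟩
  choose vv hvv using hch
  refine transfer _ _ _ _ (fun x => (c.rep (vv x), (insert (c.rep (vv x)) x.1, x.2))) ?_ ?_ ?_
  · intro x hx
    obtain ⟨h1, h2, h3, h4⟩ := hvv x hx
    rw [mem_product, mem_product]
    refine ⟨?_, h3, mem_univ _⟩
    rw [Ws, mem_filter]
    exact ⟨mem_univ _, c.rep_isW h1⟩
  · intro x hx x' hx' h
    obtain ⟨h1, h2, h3, h4⟩ := hvv x hx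
    obtain ⟨h1', h2', h3', h4'⟩ := hvv x' hx'
    have e1 : c.rep (vv x) = c.rep (vv x') := congrArg (fun z => z.1) h
    have e2 : insert (c.rep (vv x)) x.1 = insert (c.rep (vv x')) x'.1 :=
      congrArg (fun z => z.2.1) h
    have e3 : x.2 = x'.2 := congrArg (fun z => z.2.2) h
    have e4 : x.1 = x'.1 := by
      rw [← erase_insert h2, ← erase_insert h2', e2, e1]
    exact Prod.ext e4 e3
  · intro x hx
    obtain ⟨h1, h2, h3, h4⟩ := hvv x hx
    obtain ⟨h5, h6, _⟩ := (mem_filter.1 hx).2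
    have hcond : isR c.E x.2 ∧ (insert (c.rep (vv x)) x.1).erase (c.rep (vv x)) ∈ c.D ∧
        at' c.E (insert (c.rep (vv x)) x.1) (c.rep (vv x)) =
          {{c.rep (vv x), c.ctr (c.rep (vv x)), x.2}} := by
      refine ⟨h5, ?_, ?_⟩
      · rw [erase_insert h2]; exact h6
      · rw [c.ctr_rep h1]; exact h4
    show c.cost x.2 ≤ (if isR c.E x.2 ∧ (insert (c.rep (vv x)) x.1).erase (c.rep (vv x)) ∈ c.D ∧
        at' c.E (insert (c.rep (vv x)) x.1) (c.rep (vv x)) =
          {{c.rep (vv x), c.ctr (c.rep (vv x)), x.2}} then 6 else 0)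
    rw [if_pos hcond, c.cost_R h5]

theorem sum_self : ∑ x ∈ c.Pr.filter (fun x => c.clSelf x.1 x.2), c.cost x.2 ≤
    ∑ y ∈ c.Rs, ∑ S ∈ c.D, c.self y S := by
  have hR : ∑ y ∈ c.Rs, ∑ S ∈ c.D, c.self y S = ∑ z ∈ c.Rs ×ˢ c.D, c.self z.1 z.2 := by
    rw [sum_product]
  rw [hR]
  have hrr : ∀ x : Finset V × V, c.clSelf x.1 x.2 → isR c.E x.2 := by
    intro x hx
    rcases hx with ⟨v, hv⟩ | hv
    · exact hv.2.1
    · exact hv.2.1
  refine transfer _ _ _ _ (fun x => (x.2, x.1)) ?_ ?_ ?_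
  · intro x hx
    rw [mem_filter] at hx
    rw [mem_product]
    refine ⟨?_, ?_⟩
    · rw [Rs, mem_filter]
      exact ⟨mem_univ _, hrr x hx.2⟩
    · have := hx.1
      rw [Pr, mem_product] at this
      exact this.1
  · intro x _ x' _ h
    exact Prod.ext (congrArg (fun z => z.2) h) (congrArg (fun z => z.1) h)
  · intro x hx
    rw [mem_filter] at hx
    show c.cost x.2 ≤ c.self x.2 x.1
    have h2 : (∃ v, c.ias x.1 x.2 v) ∨ c.ib x.1 x.2 := hx.2
    rw [c.cost_R (hrr x hx.2), self, if_pos h2]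

/-- the local inequality of class R -/
lemma Td_loc (S : Finset V) (p : V) (h : c.clR S p) :
    c.cost p ≤ ∑ y ∈ c.Rs, c.om y S p + (if isW c.E p then c.ldPart p S else 0) := by
  obtain ⟨hcr, hred, hWR, y, hyR, hyd⟩ := h
  have hom : ∀ z, isR c.E z → dep c.E S z p → c.om z S p =
      (if isR c.E p then (if c.uniq z S p then 6 else 3)
       else if isW c.E p then
        (if c.uniq z S p then (if (at' c.E S p).card = 1 then 8 else 12) else 6)
       else 0) := by
    intro z _ hz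
    rw [om, if_pos ⟨hz, hcr, hred⟩]
  have hmemR : ∀ z, isR c.E z → z ∈ c.Rs := by
    intro z hz
    rw [Rs, mem_filter]; exact ⟨mem_univ _, hz⟩
  by_cases hu : c.uniq y S p
  · have h1 : c.om y S p ≤ ∑ z ∈ c.Rs, c.om z S p :=
      single_le_sum (f := fun z => c.om z S p) (fun _ _ => Nat.zero_le _) (hmemR y hyR)
    rcases hWR with hW | hR
    · have hnR := c.W_not_R hW
      rw [c.cost_W hW, if_pos hW]
      have h2 := hom y hyR hyd
      rw [if_neg hnR, if_pos hW, if_pos hu] at h2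
      by_cases hc1 : (at' c.E S p).card = 1
      · rw [if_pos hc1] at h2
        have hne : y ≠ c.ctr p := c.ne_of_R_C hyR (c.ctr_isC hW)
        have h3 := c.at_dep_W hcr.1 hyd hW hne
        have h4 : ({y, p, c.ctr p} : Finset V) ∈ at' c.E S y := by
          rw [h3]; exact mem_singleton_self _
        rw [mem_at] at h4
        have h5 : ({y, p, c.ctr p} : Finset V) ∈ at' c.E S p := by
          rw [mem_at]
          exact ⟨h4.1, by simp, h4.2.2⟩
        obtain ⟨f, hf⟩ := card_eq_one.1 hc1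
        rw [hf, mem_singleton] at h5
        have h6 : ({y, p, c.ctr p} : Finset V) = {p, c.ctr p, y} := by
          ext t; simp only [mem_insert, mem_singleton]; tauto
        have h7 : c.ldPart p S = 4 := by
          rw [ldPart, if_pos]
          refine ⟨hcr.2.2, y, hyR, ?_⟩
          rw [hf, ← h5, h6]
        omega
      · rw [if_neg hc1] at h2
        omega
    · rw [c.cost_R hR]
      have h2 := hom y hyR hyd
      rw [if_pos hR, if_pos hu] at h2
      omega
  · have hu' := hu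
    unfold uniq at hu'
    push Not at hu'
    obtain ⟨x, hxR, hxd, hxy⟩ := hu'
    have hux : ¬ c.uniq x S p := by
      intro h
      exact hxy (h y hyR hyd).symm
    have h1 : c.om x S p + c.om y S p ≤ ∑ z ∈ c.Rs, c.om z S p := by
      have hsub : ({x, y} : Finset V) ⊆ c.Rs := by
        intro z hz
        simp only [mem_insert, mem_singleton] at hz
        rcases hz with rfl | rfl
        · exact hmemR _ hxR
        · exact hmemR _ hyR
      have h2 : ∑ z ∈ ({x, y} : Finset V), c.om z S p ≤ ∑ z ∈ c.Rs, c.om z S p :=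
        sum_le_sum_of_subset hsub
      rwa [sum_pair hxy] at h2
    have h2 := hom x hxR hxd
    have h3 := hom y hyR hyd
    rcases hWR with hW | hR
    · have hnR := c.W_not_R hW
      rw [if_neg hnR, if_pos hW, if_neg hux] at h2
      rw [if_neg hnR, if_pos hW, if_neg hu] at h3
      rw [c.cost_W hW]
      omega
    · rw [if_pos hR, if_neg hux] at h2
      rw [if_pos hR, if_neg hu] at h3
      rw [c.cost_R hR]
      omega

theorem sum_R : ∑ x ∈ c.Pr.filter (fun x => c.clR x.1 x.2), c.cost x.2 ≤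
    ∑ y ∈ c.Rs, ∑ S ∈ c.D, ∑ p, c.om y S p + ∑ w ∈ c.Ws, ∑ T ∈ c.D, c.ldPart w T := by
  have h1 : ∑ x ∈ c.Pr.filter (fun x => c.clR x.1 x.2), c.cost x.2 ≤
      ∑ x ∈ c.Pr, (∑ y ∈ c.Rs, c.om y x.1 x.2 + (if isW c.E x.2 then c.ldPart x.2 x.1 else 0)) := by
    refine le_trans (sum_le_sum (fun x hx => c.Td_loc x.1 x.2 (mem_filter.1 hx).2)) ?_
    exact sum_le_sum_of_subset (filter_subset _ _)
  refine le_trans h1 ?_
  rw [sum_add_distrib]
  apply add_le_add
  · rw [Pr, sum_product]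
    have h2 : ∀ S ∈ c.D, ∑ p : V, ∑ y ∈ c.Rs, c.om y S p = ∑ y ∈ c.Rs, ∑ p : V, c.om y S p := by
      intro S _
      exact sum_comm
    rw [sum_congr rfl h2, sum_comm]
  · rw [Pr, sum_product]
    have h2 : ∀ S ∈ c.D, ∑ p : V, (if isW c.E p then c.ldPart p S else 0) =
        ∑ w ∈ c.Ws, c.ldPart w S := by
      intro S _
      rw [Ws, sum_filter]
    rw [sum_congr rfl h2, sum_comm]

end Ctx
end H70G3

end S_Td
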