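import Mathlib
import Pool.Agent.H70.G3M.A

/-! MP_75f39d_co, at most three generators per element, part B (several modules joined). -/

section S_CII

/-!
# Row CII : pairs of class II are sources of II1 or II3

Given v, z with pairP S p v z (isC v, isC z, dep S v p, dep S v z, dep S z p, dep S z v, p ∈ S, ¬ dep S p v).  p ≠ z and p ≠ v (dep).
e0 := {v, p, z}: at' E S v = {e0} and at' E S z = {{z, p, v}} = {e0} (`at_unique`).
¬ dep S p v: as p ∈ S, p ≠ v, there is f ∈ E, p ∈ f ⊆ S, v ∉ f.  z ∉ f (otherwise f ∈ at' E S z = {e0}, v ∈ f).  So also ¬ dep S p z.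
isR p: else isW p, ctr p ≠ p (`ctr_Dm`), ctr p ∈ e0 (`W_edge`) so ctr p ∈ {v, z}, and ctr p ∈ f, contradiction.
(∀ u, Dm u v → u ∉ S): u ∈ S has an S-edge g (`exists_at`), v ∈ g so g ∈ at' E S v, g = e0, u ∈ {v,p,z}; u ≠ v (Dm), u ∈ W but p ∈ R, z ∈ C: contradiction.
Same for z (g ∋ z, g ∈ at' E S z).
insert (rep v) S ∈ D and insert (rep z) S ∈ D: otherwise cU4 S p (with v resp. z; use dep S v p resp. dep S z p).
Case 1: insert (rep z) (S.erase v) ∈ D: srcII1 S p v z.
Case 2: insert (rep v) (S.erase z) ∈ D: srcII1 S p z v (pairP S p z v holds by symmetry and ¬ dep S p z).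
Case 3: neither: srcII3 S p v z. Let w = rep v, w ∉ S, M = insert w S ∈ D.  at' E M w is nonempty (`exists_at`). Let h ∈ at' E M w; v = ctr w ∈ h (`W_edge`, `ctr_rep`).
  Claim z ∈ h. Otherwise insert w (S.erase z) ∈ D (contradiction to case 2): use `mem_D`: for x = w or x = v take h (h ⊆ insert w (S.erase z) as z ∉ h);
  for x = p take f; for other x ∈ S.erase z take an S-edge g at x: z ∉ g, since otherwise g ∈ at' E S z = {e0} and x ∈ e0.
  So w, v, z ∈ h, pairwise different (w ∈ W; v, z ∈ C; v ≠ z), h = {w, v, z} (`edge_eq`).  Hence at' E M w = {{w,v,z}}.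
-/

open Finset Classical

universe u

namespace H70G3
namespace Ctx
variable {V : Type u} [Fintype V] [DecidableEq V] (c : Ctx V)

theorem class_II {S : Finset V} {p : V} (hS : S ∈ c.D) (hp : isW c.E p ∨ isR c.E p)
    (h4 : ¬ c.cU4 S p) (h : ∃ v z, c.pairP S p v z) :
    ∃ v z, c.srcII1 S p v z ∨ c.srcII3 S p v z := by
  obtain ⟨v, z, hpair⟩ := h
  obtain ⟨hv, hz, d1, d2, d3, d4, hpS, hn⟩ := hpair
  have hpz : p ≠ z := fun h => d3.2.1 h.symm
  have hpv : p ≠ v := fun h => d1.2.1 h.symm
  have hvz : v ≠ z := d2.2.1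
  have atv : at' c.E S v = {{v, p, z}} := c.at_unique hS d1 d2 hpz
  have atz : at' c.E S z = {{z, p, v}} := c.at_unique hS d3 d4 hpv
  have memv : ∀ g ∈ c.E, v ∈ g → g ⊆ S → g = {v, p, z} := by
    intro g h1 h2 h3
    have : g ∈ at' c.E S v := by rw [c.mem_at]; exact ⟨h1, h2, h3⟩
    rw [atv] at this
    exact mem_singleton.1 this
  have memz : ∀ g ∈ c.E, z ∈ g → g ⊆ S → g = {z, p, v} := by
    intro g h1 h2 h3
    have : g ∈ at' c.E S z := by rw [c.mem_at]; exact ⟨h1, h2, h3⟩
    rw [atz] at this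
    exact mem_singleton.1 this
  -- the edge avoiding `v`
  have hf : ∃ f ∈ c.E, p ∈ f ∧ f ⊆ S ∧ v ∉ f := by
    by_contra hcon
    push Not at hcon
    exact hn ⟨hpS, hpv, hcon⟩
  obtain ⟨f, hfE, hpf, hfS, hvf⟩ := hf
  have hzf : z ∉ f := by
    intro h1
    have := memz f hfE h1 hfS
    apply hvf
    rw [this]
    simp
  have hnz : ¬ dep c.E S p z := fun hd => hzf (hd.2.2 f hfE hpf hfS)
  have e0 : ({v, p, z} : Finset V) ∈ c.E := by
    have : ({v, p, z} : Finset V) ∈ at' c.E S v := by rw [atv]; exact mem_singleton_self _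
    rw [c.mem_at] at this
    exact this.1
  have hr : isR c.E p := by
    rcases hp with hw | hr
    · exfalso
      have h1 : c.ctr p ∈ ({v, p, z} : Finset V) := c.W_edge hw e0 (by simp)
      have h2 := (c.ctr_Dm hw).1
      have h3 := c.W_edge hw hfE hpf
      simp only [mem_insert, mem_singleton] at h1
      rcases h1 with h1 | h1 | h1
      · rw [h1] at h3; exact hvf h3
      · exact h2 h1.symm
      · rw [h1] at h3; exact hzf h3
    · exact hr
  have hu1 : ∀ u, Dm c.E u v → u ∉ S := by
    intro u hu huS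
    obtain ⟨g, hg⟩ := c.exists_at hS huS
    rw [c.mem_at] at hg
    have h1 := memv g hg.1 (hu.2 g hg.1 hg.2.1) hg.2.2
    have h2 := hg.2.1
    rw [h1] at h2
    have huW : isW c.E u := ⟨v, hu⟩
    simp only [mem_insert, mem_singleton] at h2
    rcases h2 with h2 | h2 | h2
    · exact hu.1 h2
    · rw [h2] at huW; exact c.W_not_R huW hr
    · rw [h2] at huW; exact c.C_not_W hz huW
  have hu2 : ∀ u, Dm c.E u z → u ∉ S := by
    intro u hu huS
    obtain ⟨g, hg⟩ := c.exists_at hS huS
    rw [c.mem_at] at hg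
    have h1 := memz g hg.1 (hu.2 g hg.1 hg.2.1) hg.2.2
    have h2 := hg.2.1
    rw [h1] at h2
    have huW : isW c.E u := ⟨z, hu⟩
    simp only [mem_insert, mem_singleton] at h2
    rcases h2 with h2 | h2 | h2
    · exact hu.1 h2
    · rw [h2] at huW; exact c.W_not_R huW hr
    · rw [h2] at huW; exact c.C_not_W hv huW
  have hrv : insert (c.rep v) S ∈ c.D := by
    by_contra hcon
    exact h4 ⟨v, hv, d1, hu1, hcon⟩
  by_cases c1 : insert (c.rep z) (S.erase v) ∈ c.D
  · exact ⟨v, z, Or.inl ⟨hS, hr, ⟨hv, hz, d1, d2, d3, d4, hpS, hn⟩, hu1, hu2, c1⟩⟩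
  by_cases c2 : insert (c.rep v) (S.erase z) ∈ c.D
  · exact ⟨z, v, Or.inl ⟨hS, hr, ⟨hz, hv, d3, d4, d1, d2, hpS, hnz⟩, hu2, hu1, c2⟩⟩
  refine ⟨v, z, Or.inr ⟨hS, hr, ⟨hv, hz, d1, d2, d3, d4, hpS, hn⟩, hu1, hrv, ?_⟩⟩
  have hwv : c.rep v ≠ v := (c.rep_Dm hv).1
  have hwz : c.rep v ≠ z := c.ne_of_W_C (c.rep_isW hv) hz
  have key : ∀ g ∈ at' c.E (insert (c.rep v) S) (c.rep v), g = {c.rep v, v, z} := by
    intro g hg
    rw [c.mem_at] at hg
    obtain ⟨hgE, hwg, hgM⟩ := hg
    have hvg : v ∈ g := (c.rep_Dm hv).2 g hgE hwg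
    have hzg : z ∈ g := by
      by_contra hzg
      apply c2
      have hsub : ∀ k : Finset V, k ⊆ insert (c.rep v) S → z ∉ k →
          k ⊆ insert (c.rep v) (S.erase z) := by
        intro k hk hzk x hx
        rcases mem_insert.1 (hk hx) with h1 | h1
        · rw [h1]; exact mem_insert_self _ _
        · exact mem_insert_of_mem (mem_erase.2 ⟨fun h2 => hzk (h2 ▸ hx), h1⟩)
      rw [c.mem_D]
      intro x hx
      rcases mem_insert.1 hx with hx | hx
      · rw [hx]; exact ⟨g, hgE, hwg, hsub g hgM hzg⟩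
      · obtain ⟨hxz, hxS⟩ := mem_erase.1 hx
        by_cases hxv : x = v
        · rw [hxv]; exact ⟨g, hgE, hvg, hsub g hgM hzg⟩
        by_cases hxp : x = p
        · rw [hxp]; exact ⟨f, hfE, hpf, hsub f (hfS.trans (subset_insert _ _)) hzf⟩
        obtain ⟨k, hk⟩ := c.exists_at hS hxS
        rw [c.mem_at] at hk
        refine ⟨k, hk.1, hk.2.1, hsub k (hk.2.2.trans (subset_insert _ _)) ?_⟩
        intro hzk
        have h1 := memz k hk.1 hzk hk.2.2
        have h2 := hk.2.1
        rw [h1] at h2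
        simp only [mem_insert, mem_singleton] at h2
        rcases h2 with h2 | h2 | h2
        · exact hxz h2
        · exact hxp h2
        · exact hxv h2
    exact c.edge_eq hgE hwg hvg hzg hwv hwz hvz
  obtain ⟨g, hg⟩ := c.exists_at hrv (mem_insert_self _ _)
  rw [eq_singleton_iff_unique_mem]
  refine ⟨?_, key⟩
  have := key g hg
  rw [← this]; exact hg

end Ctx
end H70G3

end S_CII

section S_CW

/-!
# Row CW : reduced pairs (S, p), p ∈ W, without dependent vertex in R

v = ctr p. Dep := {y : dep S y p} is nonempty (`erase_D_iff`, crit).  Every y ∈ Dep is in C: not L (`dep_not_L`), not W (red), not R (hn), `four`.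
Case 1: all x ∈ Dep equal v. Then dep S v p. clA: v ∈ S; (S.erase p).erase v ∈ D by `erase_erase_D` with q := v (hq from dep S v p);
  insert v ((S.erase p).erase v) ∉ D: an edge at v inside it is an S-edge at v, contains p (dep S v p), but p is not in the set (p ≠ v).
Case 2: some v' ∈ Dep, v' ≠ v.  at' E S v' = {{v', p, v}} (`at_dep_W`).  ¬ cM2 with v': S.erase v' ∉ D, so there is z with dep S z v' (`erase_D_iff`).
  (a) z = p: dep S p v', dep S p v (`dep_ctr`): at' E S p = {{p, v, v'}} (`at_unique`): clSW with z := v' (S.erase p ∉ D from crit).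
  (b) z ≠ p: dep S z p (`dep_trans`), so z ∈ C.
     z = v: dep S v v', dep S v p: at' E S v = {{v, v', p}}; every S-edge at p contains v (`W_edge`) so lies in at' E S v; at' E S p nonempty: at' E S p = {{v,v',p}} = {{p,v,v'}}: clSW.
     z ≠ v: at' E S z = {{z, p, v}} (`at_dep_W`), its edge contains v' (dep S z v'): v' = z (no: dep), v' = p (no: C and W), v' = v (no).
-/

open Finset Classical

universe u

namespace H70G3
namespace Ctx
variable {V : Type u} [Fintype V] [DecidableEq V] (c : Ctx V)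

theorem class_W {S : Finset V} {p : V} (h : c.crit S p) (hr : c.red S p) (hp : isW c.E p)
    (hn : ∀ y, isR c.E y → ¬ dep c.E S y p) : c.clA S p ∨ c.clSW S p := by
  obtain ⟨hS, hpS, hcr⟩ := h
  obtain ⟨hM2, -, -, hR1⟩ := hr
  obtain ⟨v, hv⟩ : ∃ v, v = c.ctr p := ⟨_, rfl⟩
  have hC : ∀ y, dep c.E S y p → isC c.E y := by
    intro y hy
    rcases c.four y with h | h | h | h
    · exact absurd ⟨y, h, hy⟩ hR1
    · exact h
    · exact absurd h (c.dep_not_L hy)
    · exact absurd hy (hn y h)
  have hvC : isC c.E v := by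
    rw [hv]
    exact c.ctr_isC hp
  have hpv : p ≠ v := c.ne_of_W_C hp hvC
  have hne : ∃ y, dep c.E S y p := by
    by_contra hcon
    push Not at hcon
    exact hcr ((c.erase_D_iff hS).2 hcon)
  by_cases hall : ∀ x, dep c.E S x p → x = v
  · left
    obtain ⟨y, hy⟩ := hne
    have hdv : dep c.E S v p := by
      have h1 := hall y hy
      rwa [h1] at hy
    unfold clA
    rw [← hv]
    refine ⟨hp, hS, hpS, hdv.1, c.erase_erase_D hS hdv.2.2 hall, ?_⟩
    intro hD
    rw [mem_D] at hD
    obtain ⟨e, he, hve, hes⟩ := hD v (mem_insert_self _ _)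
    have hsub : insert v ((S.erase p).erase v) ⊆ S := by
      intro x hx
      rw [mem_insert] at hx
      rcases hx with hx | hx
      · rw [hx]
        exact hdv.1
      · exact mem_of_mem_erase (mem_of_mem_erase hx)
    have h1 := hes (hdv.2.2 e he hve (hes.trans hsub))
    rw [mem_insert] at h1
    rcases h1 with h1 | h1
    · exact hpv h1
    · exact (mem_erase.1 (mem_of_mem_erase h1)).1 rfl
  · right
    push Not at hall
    obtain ⟨v', hd', hvv'⟩ := hall
    have hC' := hC v' hd'
    have hpv' : p ≠ v' := c.ne_of_W_C hp hC'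
    have hz : ∃ z, dep c.E S z v' := by
      by_contra hcon
      push Not at hcon
      exact hM2 ⟨v', hC', hd', (c.erase_D_iff hS).2 hcon⟩
    obtain ⟨z, hz⟩ := hz
    have hpd : dep c.E S p v := by
      rw [hv]
      exact c.dep_ctr hp hpS
    unfold clSW
    rw [← hv]
    refine ⟨hp, hS, hcr, v', hC', hvv', ?_⟩
    by_cases hzp : z = p
    · rw [hzp] at hz
      exact c.at_unique hS hpd hz (Ne.symm hvv')
    · have hzd := c.dep_trans hz hd' hzp
      by_cases hzv : z = v
      · rw [hzv] at hz hzd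
        have h1 := c.at_unique hS hz hzd hpv'.symm
        have h2 : ({v, v', p} : Finset V) = {p, v, v'} := by
          ext x
          simp only [mem_insert, mem_singleton]
          tauto
        have key : ∀ e ∈ at' c.E S p, e = {p, v, v'} := by
          intro e he
          rw [mem_at] at he
          have h3 : v ∈ e := hpd.2.2 e he.1 he.2.1 he.2.2
          have h4 : e ∈ at' c.E S v := by
            rw [mem_at]
            exact ⟨he.1, h3, he.2.2⟩
          rw [h1, mem_singleton] at h4
          rw [h4, h2]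
        obtain ⟨e, he⟩ := c.exists_at hS hpS
        rw [eq_singleton_iff_unique_mem]
        refine ⟨?_, key⟩
        rw [← key e he]
        exact he
      · exfalso
        have h1 := c.at_dep_W hS hzd hp (by rw [← hv]; exact hzv)
        have h2 : ({z, p, c.ctr p} : Finset V) ∈ at' c.E S z := by
          rw [h1]
          exact mem_singleton_self _
        rw [mem_at] at h2
        have h3 := hz.2.2 _ h2.1 h2.2.1 h2.2.2
        simp only [mem_insert, mem_singleton] at h3
        rcases h3 with h3 | h3 | h3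
        · exact hz.2.1 h3.symm
        · exact hpv' h3.symm
        · exact hvv' (by rw [h3, hv])

end Ctx
end H70G3

end S_CW

section S_CR

/-!
# Row CR : reduced pairs (S, p), p ∈ R, without dependent vertex in R

Dep := {y : dep S y p} nonempty, every y ∈ Dep is in C (`dep_not_L`, red, hn, `four`).
Step 1: there is v ∈ Dep with dep S p v.  Take v ∈ Dep; ¬ cM2: there is z, dep S z v.  z = p: done.  z ≠ p: dep S z p (`dep_trans`), z ∈ C.  ¬ cM2 for z: there is z',
  dep S z' z.  z' = p: take v := z.  z' ≠ p: if z' ≠ v then dep S z' p and dep S z' v (`dep_trans` twice: dep S z' z, dep S z p; dep S z' z, dep S z v), the S-edge at z'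
  contains z', z, p, v, four different vertices (`edge_four`), contradiction.  So z' = v: dep S v z.  Now isC v, isC z, dep S v p, dep S v z, dep S z p, dep S z v, p ∈ S:
  by red (no pairP) dep S p v.
Step 2: v as in Step 1.
 Case A: all x ∈ Dep equal v.
  (∀ u, Dm u v → u ∉ S): if u ∈ S then dep S u v, and u ≠ p (W, R), so dep S u p (`dep_trans`), so u = v, but u ∈ W, v ∈ C.
  By ¬ cU4: insert (rep v) S ∈ D.  w := rep v ∉ S.
  If insert w (S.erase p) ∈ D: ias S p v, so clSelf.
  Otherwise clIAW: M = insert w S ∈ D; let h ∈ at' E M w (nonempty); v ∈ h (`W_edge`, `ctr_rep`). Claim p ∈ h: otherwise insert w (S.erase p) ∈ D: for x = w and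
   x = v take h; for another x ∈ S.erase p: not dep S x p, so there is an S-edge at x avoiding p.  So h ∋ w, v, p, different: h = {w,v,p} (`edge_eq`); at' E M w = {{w,v,p}}.
 Case B: some y' ∈ Dep, y' ≠ v; y' ∈ C.  dep S y' p, dep S p v ⇒ dep S y' v; at' E S y' = {{y', p, v}} (`at_unique`).  ¬ cM2: there is z with dep S z y'.
   z = p: dep S p y', dep S p v: at' E S p = {{p, v, y'}}: ib (v ≠ y'), clSelf.
   z ≠ p: dep S z p.  z ≠ v: dep S z v (`dep_trans` via p), S-edge at z contains z, y', p, v: four different, contradiction.  z = v: dep S v y', dep S v p: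
   at' E S v = {{v, y', p}}; S-edges at p contain v (dep S p v), so they lie in at' E S v; so at' E S p = {{p, v, y'}}: ib.
-/

open Finset Classical

universe u

namespace H70G3
namespace Ctx
variable {V : Type u} [Fintype V] [DecidableEq V] (c : Ctx V)

/-- every vertex depending on `p` is a centre -/
theorem CR_centre {S : Finset V} {p : V} (hr : c.red S p)
    (hn : ∀ y, isR c.E y → ¬ dep c.E S y p) {y : V} (hy : dep c.E S y p) : isC c.E y := by
  rcases c.four y with h | h | h | h
  · exact absurd ⟨y, h, hy⟩ hr.2.2.2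
  · exact h
  · exact absurd h (c.dep_not_L hy)
  · exact absurd hy (hn y h)

/-- by `¬ cM2` something depends on a centre depending on `p` -/
theorem CR_next {S : Finset V} {p : V} (hS : S ∈ c.D) (hr : c.red S p)
    (hn : ∀ y, isR c.E y → ¬ dep c.E S y p) {y : V} (hy : dep c.E S y p) :
    ∃ z, dep c.E S z y := by
  by_contra hcon
  push Not at hcon
  exact hr.1 ⟨y, c.CR_centre hr hn hy, hy, (c.erase_D_iff hS).2 hcon⟩

/-- step 1 -/
theorem CR_step {S : Finset V} {p : V} (h : c.crit S p) (hr : c.red S p)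
    (hn : ∀ y, isR c.E y → ¬ dep c.E S y p) :
    ∃ v, isC c.E v ∧ dep c.E S v p ∧ dep c.E S p v := by
  obtain ⟨hS, hpS, hcr⟩ := h
  obtain ⟨v, hv⟩ : ∃ y, dep c.E S y p := by
    by_contra hcon
    push Not at hcon
    exact hcr ((c.erase_D_iff hS).2 hcon)
  have hvC := c.CR_centre hr hn hv
  obtain ⟨z, hz⟩ := c.CR_next hS hr hn hv
  by_cases hzp : z = p
  · subst hzp
    exact ⟨v, hvC, hv, hz⟩
  have hz2 := c.dep_trans hz hv hzp
  have hzC := c.CR_centre hr hn hz2
  obtain ⟨z', hz'⟩ := c.CR_next hS hr hn hz2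
  by_cases hz'p : z' = p
  · subst hz'p
    exact ⟨z, hzC, hz2, hz'⟩
  by_cases hz'v : z' = v
  · subst hz'v
    refine ⟨z', hvC, hv, ?_⟩
    by_contra hcon
    exact hr.2.2.1 ⟨z', z, hvC, hzC, hv, hz', hz2, hz, hpS, hcon⟩
  · exfalso
    have h1 := c.dep_trans hz' hz2 hz'p
    have h2 := c.dep_trans hz' hz hz'v
    obtain ⟨e, he⟩ := c.exists_at hS hz'.1
    rw [c.mem_at] at he
    rcases c.edge_four he.1 he.2.1 (hz'.2.2 e he.1 he.2.1 he.2.2) (h1.2.2 e he.1 he.2.1 he.2.2)
      (h2.2.2 e he.1 he.2.1 he.2.2) hz'.2.1 hz'p hzp with h3 | h3 | h3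
    · exact hz'v h3.symm
    · exact hz.2.1 h3.symm
    · exact hv.2.1 h3

/-- case A -/
theorem CR_A {S : Finset V} {p v : V} (hS : S ∈ c.D) (hr : c.red S p)
    (hp : isR c.E p) (hvC : isC c.E v) (hv : dep c.E S v p)
    (hpv : dep c.E S p v) (hA : ∀ x, dep c.E S x p → x = v) : c.clIAW S p ∨ c.clSelf S p := by
  have hu : ∀ u, Dm c.E u v → u ∉ S := by
    intro u hu huS
    have h1 : dep c.E S u v := ⟨huS, hu.1, fun e he h1 _ => hu.2 e he h1⟩
    have hW : isW c.E u := ⟨v, hu⟩
    exact hr.2.2.2 ⟨u, hW, c.dep_trans h1 hv (c.ne_of_R_W hp hW).symm⟩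
  have hM : insert (c.rep v) S ∈ c.D := by
    by_contra hcon
    exact hr.2.1 ⟨v, hvC, hv, hu, hcon⟩
  have hwS : c.rep v ∉ S := hu _ (c.rep_Dm hvC)
  have hwW : isW c.E (c.rep v) := c.rep_isW hvC
  by_cases hi : insert (c.rep v) (S.erase p) ∈ c.D
  · right
    left
    exact ⟨v, hS, hp, hvC, hpv, hv, hA, hu, hi⟩
  · left
    refine ⟨hp, hS, v, hvC, hwS, hM, ?_⟩
    have key : ∀ f ∈ at' c.E (insert (c.rep v) S) (c.rep v), f = {c.rep v, v, p} := by
      intro f hf
      rw [c.mem_at] at hf
      obtain ⟨hfE, hwf, hfM⟩ := hf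
      have hvf : v ∈ f := by
        have h1 := c.W_edge hwW hfE hwf
        rwa [c.ctr_rep hvC] at h1
      have hpf : p ∈ f := by
        by_contra hpf
        apply hi
        have hfs : f ⊆ insert (c.rep v) (S.erase p) := by
          intro x hx
          rcases mem_insert.1 (hfM hx) with h1 | h1
          · rw [h1]
            exact mem_insert_self _ _
          · refine mem_insert_of_mem (mem_erase.2 ⟨?_, h1⟩)
            rintro rfl
            exact hpf hx
        rw [c.mem_D]
        intro x hx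
        rcases mem_insert.1 hx with h1 | h1
        · rw [h1]
          exact ⟨f, hfE, hwf, hfs⟩
        · obtain ⟨hxp, hxS⟩ := mem_erase.1 h1
          by_cases hxv : x = v
          · rw [hxv]
            exact ⟨f, hfE, hvf, hfs⟩
          · have h2 : ¬ dep c.E S x p := fun h3 => hxv (hA x h3)
            unfold dep at h2
            push Not at h2
            obtain ⟨e, he, h3, h4, h5⟩ := h2 hxS hxp
            refine ⟨e, he, h3, ?_⟩
            exact (subset_erase.2 ⟨h4, h5⟩).trans (subset_insert _ _)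
      exact c.edge_eq hfE hwf hvf hpf (c.ne_of_W_C hwW hvC) (c.ne_of_R_W hp hwW).symm hv.2.1
    obtain ⟨e, he⟩ := c.exists_at hM (mem_insert_self (c.rep v) S)
    rw [eq_singleton_iff_unique_mem]
    refine ⟨?_, key⟩
    rw [← key e he]
    exact he

theorem class_R {S : Finset V} {p : V} (h : c.crit S p) (hr : c.red S p) (hp : isR c.E p)
    (hn : ∀ y, isR c.E y → ¬ dep c.E S y p) : c.clIAW S p ∨ c.clSelf S p := by
  obtain ⟨v, hvC, hv, hpv⟩ := c.CR_step h hr hn
  obtain ⟨hS, hpS, hcr⟩ := h
  by_cases hA : ∀ x, dep c.E S x p → x = v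
  · exact c.CR_A hS hr hp hvC hv hpv hA
  push Not at hA
  obtain ⟨y, hy, hyv⟩ := hA
  have hyC := c.CR_centre hr hn hy
  have hyv' := c.dep_trans hy hpv hyv
  right
  right
  obtain ⟨z, hz⟩ := c.CR_next hS hr hn hy
  by_cases hzp : z = p
  · subst hzp
    exact ⟨hS, hp, v, y, hvC, hyC, hyv.symm, c.at_unique hS hpv hz hyv.symm⟩
  have hz2 := c.dep_trans hz hy hzp
  by_cases hzv : z = v
  · subst hzv
    have h1 := c.at_unique hS hz hv hy.2.1
    refine ⟨hS, hp, z, y, hvC, hyC, hyv.symm, ?_⟩
    have key : ∀ f ∈ at' c.E S p, f = {p, z, y} := by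
      intro f hf
      rw [c.mem_at] at hf
      have h2 : f ∈ at' c.E S z := by
        rw [c.mem_at]
        exact ⟨hf.1, hpv.2.2 f hf.1 hf.2.1 hf.2.2, hf.2.2⟩
      rw [h1, mem_singleton] at h2
      rw [h2]
      ext x
      simp only [mem_insert, mem_singleton]
      tauto
    obtain ⟨e, he⟩ := c.exists_at hS hpS
    rw [eq_singleton_iff_unique_mem]
    refine ⟨?_, key⟩
    rw [← key e he]
    exact he
  · exfalso
    have h2 := c.dep_trans hz2 hpv hzv
    obtain ⟨e, he⟩ := c.exists_at hS hz.1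
    rw [c.mem_at] at he
    rcases c.edge_four he.1 he.2.1 (hz.2.2 e he.1 he.2.1 he.2.2) (hz2.2.2 e he.1 he.2.1 he.2.2)
      (h2.2.2 e he.1 he.2.1 he.2.2) hz.2.1 hzp hy.2.1 with h3 | h3 | h3
    · exact hzv h3.symm
    · exact hyv h3.symm
    · exact hv.2.1 h3

end Ctx
end H70G3

end S_CR

section S_DS

/-!
# Row DS : total cost ≤ total load

Every (S,p) with S ∈ D, p ∈ S, S.erase p ∉ D and cost p ≠ 0 (so isW p or isR p) is in one of the classes:
 cM2; cU4; class II (then `class_II` gives srcII1 or srcII3 for some v, z); some y ∈ W with dep S y p; otherwise red S p holds and either some y ∈ R has dep S y p (clR)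
 or `class_W` / `class_R` give clA, clSW, clIAW, clSelf.
So Σ over the critical pairs ≤ sum of the ten sums over the classes (sum over a union ≤ sum of sums), and these are bounded by `sum_M2`, `sum_U4`, `sum_II1`, `sum_II3`,
 `sum_R1`, `sum_A`, `sum_SW`, `sum_IAW`, `sum_self`, `sum_R`. Unfold ldW, ldR and use sum_add_distrib.
 The left side equals Σ_{x ∈ Pr, crit} cost x.2 (Finset.sum_product, sum_filter, sum_comm).
-/

open Finset Classical

universe u

namespace H70G3
namespace Ctx
variable {V : Type u} [Fintype V] [DecidableEq V] (c : Ctx V)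

lemma DS_class {S : Finset V} {p : V} (hS : S ∈ c.D) (hp : p ∈ S) (hcr : S.erase p ∉ c.D)
    (hc : isW c.E p ∨ isR c.E p) :
    c.cM2 S p ∨ c.cU4 S p ∨ (∃ v z, c.srcII1 S p v z) ∨ (∃ v z, c.srcII3 S p v z) ∨
      (∃ y, isW c.E y ∧ dep c.E S y p) ∨ c.clA S p ∨ c.clSW S p ∨ c.clIAW S p ∨ c.clSelf S p ∨
      c.clR S p := by
  by_cases h1 : c.cM2 S p
  · exact Or.inl h1
  by_cases h2 : c.cU4 S p
  · exact Or.inr (Or.inl h2)
  by_cases h3 : ∃ v z, c.pairP S p v z
  · obtain ⟨v, z, h | h⟩ := c.class_II hS hc h2 h3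
    · exact Or.inr (Or.inr (Or.inl ⟨v, z, h⟩))
    · exact Or.inr (Or.inr (Or.inr (Or.inl ⟨v, z, h⟩)))
  by_cases h4 : ∃ y, isW c.E y ∧ dep c.E S y p
  · exact Or.inr (Or.inr (Or.inr (Or.inr (Or.inl h4))))
  have hred : c.red S p := ⟨h1, h2, h3, h4⟩
  have hcrit : c.crit S p := ⟨hS, hp, hcr⟩
  by_cases h5 : ∃ y, isR c.E y ∧ dep c.E S y p
  · have : c.clR S p := ⟨hcrit, hred, hc, h5⟩
    tauto
  have hn : ∀ y, isR c.E y → ¬ dep c.E S y p := fun y hy hd => h5 ⟨y, hy, hd⟩
  rcases hc with hc | hc
  · rcases c.class_W hcrit hred hc hn with h | h <;> tauto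
  · rcases c.class_R hcrit hred hc hn with h | h <;> tauto

lemma DS_point (x : Finset V × V) (hx : x ∈ c.Pr) :
    (if x.2 ∈ x.1 ∧ x.1.erase x.2 ∉ c.D then c.cost x.2 else 0) ≤
      (if c.cM2 x.1 x.2 then c.cost x.2 else 0) + (if c.cU4 x.1 x.2 then c.cost x.2 else 0) +
      (if ∃ v z, c.srcII1 x.1 x.2 v z then c.cost x.2 else 0) +
      (if ∃ v z, c.srcII3 x.1 x.2 v z then c.cost x.2 else 0) +
      (if ∃ y, isW c.E y ∧ dep c.E x.1 y x.2 then c.cost x.2 else 0) +
      (if c.clA x.1 x.2 then c.cost x.2 else 0) + (if c.clSW x.1 x.2 then c.cost x.2 else 0) +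
      (if c.clIAW x.1 x.2 then c.cost x.2 else 0) + (if c.clSelf x.1 x.2 then c.cost x.2 else 0) +
      (if c.clR x.1 x.2 then c.cost x.2 else 0) := by
  obtain ⟨S, p⟩ := x
  have hS : S ∈ c.D := by
    unfold Pr at hx
    exact (mem_product.1 hx).1
  dsimp only
  by_cases hcr : p ∈ S ∧ S.erase p ∉ c.D
  · rw [if_pos hcr]
    by_cases hc : isW c.E p ∨ isR c.E p
    · rcases c.DS_class hS hcr.1 hcr.2 hc with h | h | h | h | h | h | h | h | h | h <;>
        rw [if_pos h] <;> omega
    · have : c.cost p = 0 := c.cost_zero (fun h => hc (Or.inl h)) (fun h => hc (Or.inr h))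
      rw [this]
      exact Nat.zero_le _
  · rw [if_neg hcr]
    exact Nat.zero_le _

lemma DS_left : ∑ p, ∑ _S ∈ c.D.filter (fun S => p ∈ S ∧ S.erase p ∉ c.D), c.cost p =
    ∑ x ∈ c.Pr, (if x.2 ∈ x.1 ∧ x.1.erase x.2 ∉ c.D then c.cost x.2 else 0) := by
  unfold Pr
  rw [sum_product, sum_comm]
  refine sum_congr rfl fun p _ => ?_
  rw [sum_filter]

theorem cost_le_load : ∑ p, ∑ _S ∈ c.D.filter (fun S => p ∈ S ∧ S.erase p ∉ c.D), c.cost p ≤
    ∑ w ∈ c.Ws, ∑ T ∈ c.D, c.ldW w T + ∑ y ∈ c.Rs, ∑ S ∈ c.D, c.ldR y S := by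
  rw [c.DS_left]
  refine (sum_le_sum c.DS_point).trans ?_
  simp only [sum_add_distrib]
  have e1 := c.sum_M2
  have e2 := c.sum_U4
  have e3 := c.sum_II1
  have e4 := c.sum_II3
  have e5 := c.sum_R1
  have e6 := c.sum_A
  have e7 := c.sum_SW
  have e8 := c.sum_IAW
  have e9 := c.sum_self
  have e10 := c.sum_R
  rw [sum_filter] at e1 e2 e3 e4 e5 e6 e7 e8 e9 e10
  unfold ldW ldR
  simp only [sum_add_distrib]
  omega

end Ctx
end H70G3

end S_DS

section S_Ra

/-!
# Row Ra : small facts on om, ldR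

om y S p is an if on dep S y p ∧ crit S p ∧ red S p; unfold om, split_ifs.
om_C: p ∈ C is neither R nor W (`C_not_R`, `C_not_W`).  ldR_not_mem: y ∉ S: dep needs y ∈ S; ias contains dep S y v; ib: at' E S y = {e} gives y ∈ e ⊆ S
(mem_at).  self_le: unfold.  self_zero_of_W: if w ∈ S is in W and every S-edge at y contains w (dep S y w) or ctr w... see statement: ias S y v has dep S y v, so v ∈ {w, ctr w}
for the unique edge {y, w, ctr w}; v ≠ w (C, W), so v = ctr w, but no u with Dm u v is in S and w ∈ S (`ctr_Dm`).  ib: at' E S y = {{y,v,v'}} = {{y,w,ctr w}} with v, v' ∈ C,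
so w ∈ {y, v, v'}: w = y (R, W) or w ∈ C, contradiction.  self_R: at' E S y = {{y,p,q}} with p, q ∈ R: ias gives v ∈ C in {p,q}; ib gives {y,v,v'} = {y,p,q}, v ∈ {y,p,q}
all in R: contradiction.
-/

open Finset Classical

universe u

namespace H70G3
namespace Ctx
variable {V : Type u} [Fintype V] [DecidableEq V] (c : Ctx V)

theorem om_le (y : V) (S : Finset V) (p : V) : c.om y S p ≤ 12 := by
  unfold om
  split_ifs <;> omega

theorem om_R_le {y : V} {S : Finset V} {p : V} (hp : isR c.E p) : c.om y S p ≤ 6 := by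
  unfold om
  rw [if_pos hp]
  split_ifs <;> omega

theorem om_R_le3 {y : V} {S : Finset V} {p : V} (hp : isR c.E p) (hu : ¬ c.uniq y S p) :
    c.om y S p ≤ 3 := by
  unfold om
  rw [if_pos hp, if_neg hu]
  split_ifs <;> omega

theorem om_zero {y : V} {S : Finset V} {p : V} (h1 : ¬ isR c.E p) (h2 : ¬ isW c.E p) :
    c.om y S p = 0 := by
  unfold om
  rw [if_neg h1, if_neg h2]
  split_ifs <;> rfl

theorem om_dep {y : V} {S : Finset V} {p : V} (h : c.om y S p ≠ 0) :
    dep c.E S y p ∧ c.crit S p ∧ c.red S p := by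
  by_contra hn
  apply h
  unfold om
  rw [if_neg hn]

theorem self_le (y : V) (S : Finset V) : c.self y S ≤ 6 := by
  unfold self
  split_ifs <;> omega

theorem ldR_not_mem {y : V} {S : Finset V} (hy : y ∉ S) : c.ldR y S = 0 := by
  unfold ldR
  have h1 : ∑ p, c.om y S p = 0 := by
    refine sum_eq_zero fun p _ => ?_
    by_contra h
    exact hy (c.om_dep h).1.1
  have h2 : c.self y S = 0 := by
    unfold self
    rw [if_neg]
    rintro (⟨v, h⟩ | ⟨_, _, v, v', _, _, _, h⟩)
    · exact hy h.2.2.2.1.1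
    · have h3 : ({y, v, v'} : Finset V) ∈ at' c.E S y := by rw [h]; exact mem_singleton_self _
      rw [mem_at] at h3
      exact hy (h3.2.2 h3.2.1)
  rw [h1, h2]

theorem self_zero_of_W {y w : V} {S : Finset V} (hw : isW c.E w) (hy : isR c.E y)
    (he : at' c.E S y = {{y, w, c.ctr w}}) : c.self y S = 0 := by
  have h3 : ({y, w, c.ctr w} : Finset V) ∈ at' c.E S y := by rw [he]; exact mem_singleton_self _
  rw [mem_at] at h3
  unfold self
  rw [if_neg]
  rintro (⟨v, h⟩ | ⟨_, _, v, v', hv, hv', _, h⟩)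
  · have h4 := h.2.2.2.1.2.2 _ h3.1 h3.2.1 h3.2.2
    simp only [mem_insert, mem_singleton] at h4
    rcases h4 with h4 | h4 | h4
    · exact h.2.2.2.1.2.1 h4.symm
    · rw [h4] at h
      exact c.W_not_C hw h.2.2.1
    · rw [h4] at h
      exact h.2.2.2.2.2.2.1 w (c.ctr_Dm hw) (h3.2.2 (by simp))
  · rw [he] at h
    have h4 := singleton_injective h
    have h5 : w ∈ ({y, w, c.ctr w} : Finset V) := by simp
    rw [h4] at h5
    simp only [mem_insert, mem_singleton] at h5
    rcases h5 with h5 | h5 | h5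
    · rw [h5] at hw
      exact c.W_not_R hw hy
    · rw [h5] at hw
      exact c.W_not_C hw hv
    · rw [h5] at hw
      exact c.W_not_C hw hv'

theorem self_zero_of_R {y p q : V} {S : Finset V} (hy : isR c.E y) (hp : isR c.E p)
    (hq : isR c.E q) (he : at' c.E S y = {{y, p, q}}) : c.self y S = 0 := by
  have h3 : ({y, p, q} : Finset V) ∈ at' c.E S y := by rw [he]; exact mem_singleton_self _
  rw [mem_at] at h3
  have key : ∀ v ∈ ({y, p, q} : Finset V), ¬ isC c.E v := by
    intro v hv hC
    simp only [mem_insert, mem_singleton] at hv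
    rcases hv with rfl | rfl | rfl
    · exact c.C_not_R hC hy
    · exact c.C_not_R hC hp
    · exact c.C_not_R hC hq
  unfold self
  rw [if_neg]
  rintro (⟨v, h⟩ | ⟨_, _, v, v', hv, hv', _, h⟩)
  · exact key v (h.2.2.2.1.2.2 _ h3.1 h3.2.1 h3.2.2) h.2.2.1
  · rw [he] at h
    have h4 := singleton_injective h
    refine key v ?_ hv
    rw [h4]
    simp

end Ctx
end H70G3

end S_Ra

section S_Rs

/-!
# Row Rs : a single payer y ∈ R of p ∈ R : sole or special

Suppose the first alternative fails: x with dep S x p, x ≠ y.  x ∉ L (`dep_not_L`), x ∉ W (red), x ∉ R (uniq): x ∈ C (`four`); call it v.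
¬ cM2 with v (isC v, dep S v p): S.erase v ∉ D, so there is z with dep S z v (`erase_D_iff`, S ∈ D from crit).
(1) z = p: dep S p v; dep S y p, y ≠ v (`ne_of_R_C`) ⇒ dep S y v (`dep_trans`) ⇒ at' E S y = {{y,p,v}} (`at_unique`, p ≠ v as p ∈ R).
(2) z ≠ p: dep S z p (`dep_trans`). z ∉ L, z ∉ W (red).
  z ∈ R: z = y (uniq): dep S y v, dep S y p: at' E S y = {{y,p,v}}.
  z ∈ C: ¬ cM2 with z: there is z', dep S z' z.
    z' = p: dep S p z, so dep S y z (y ≠ z), at' E S y = {{y,p,z}}.
    z' ≠ p: if z' ≠ v: dep S z' p (via z), dep S z' v (via z); the S-edge at z' (`exists_at`) contains z', z, p, v, pairwise different: `edge_four` contradiction.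
     So z' = v: dep S v z.  Then pairP S p v z would hold unless dep S p v (p ∈ S from crit); red excludes pairP; so dep S p v and (1) applies.
-/

open Finset Classical

universe u

namespace H70G3
namespace Ctx
variable {V : Type u} [Fintype V] [DecidableEq V] (c : Ctx V)

theorem sole_or_special {S : Finset V} {y p : V} (hy : isR c.E y) (hp : isR c.E p)
    (hc : c.crit S p) (hr : c.red S p) (hd : dep c.E S y p) (hu : c.uniq y S p) :
    (∀ x, dep c.E S x p → x = y) ∨ ∃ v, isC c.E v ∧ at' c.E S y = {{y, p, v}} := by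
  by_cases h : ∀ x, dep c.E S x p → x = y
  · exact Or.inl h
  right
  push Not at h
  obtain ⟨v, hvp, hvy⟩ := h
  obtain ⟨hS, hpS, _⟩ := hc
  obtain ⟨r1, _, r3, r4⟩ := hr
  have hcl : ∀ x, dep c.E S x p → isC c.E x ∨ x = y := by
    intro x hx
    rcases c.four x with h1 | h1 | h1 | h1
    · exact absurd ⟨x, h1, hx⟩ r4
    · exact Or.inl h1
    · exact absurd h1 (c.dep_not_L hx)
    · exact Or.inr (hu x h1 hx)
  have hvC : isC c.E v := (hcl v hvp).resolve_right hvy
  have hex : ∀ u, isC c.E u → dep c.E S u p → ∃ z, dep c.E S z u := by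
    intro u hu1 hu2
    by_contra hno
    push Not at hno
    exact r1 ⟨u, hu1, hu2, (c.erase_D_iff hS).2 hno⟩
  have case1 : dep c.E S p v → ∃ v, isC c.E v ∧ at' c.E S y = {{y, p, v}} := fun hpv =>
    ⟨v, hvC, c.at_unique hS hd (c.dep_trans hd hpv (c.ne_of_R_C hy hvC)) (c.ne_of_R_C hp hvC)⟩
  obtain ⟨z, hz⟩ := hex v hvC hvp
  by_cases hzp : z = p
  · subst hzp
    exact case1 hz
  have hzp' : dep c.E S z p := c.dep_trans hz hvp hzp
  rcases hcl z hzp' with hzC | rfl
  · obtain ⟨z', hz'⟩ := hex z hzC hzp'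
    by_cases hz'p : z' = p
    · subst hz'p
      exact ⟨z, hzC, c.at_unique hS hd (c.dep_trans hd hz' (c.ne_of_R_C hy hzC)) (c.ne_of_R_C hp hzC)⟩
    have hz'p' : dep c.E S z' p := c.dep_trans hz' hzp' hz'p
    by_cases hz'v : z' = v
    · subst hz'v
      by_cases hpv : dep c.E S p z'
      · exact case1 hpv
      · exact absurd ⟨z', z, hvC, hzC, hvp, hz', hzp', hz, hpS, hpv⟩ r3
    · exfalso
      have hz'v' : dep c.E S z' v := c.dep_trans hz' hz hz'v
      obtain ⟨e, he⟩ := c.exists_at hS hz'.1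
      rw [mem_at] at he
      obtain ⟨he1, he2, he3⟩ := he
      rcases c.edge_four he1 he2 (hz'.2.2 e he1 he2 he3) (hz'p'.2.2 e he1 he2 he3)
        (hz'v'.2.2 e he1 he2 he3) hz'.2.1 hz'p hzp with h1 | h1 | h1
      · exact hz'v h1.symm
      · exact hz.2.1 h1.symm
      · exact hvp.2.1 h1
  · exact ⟨v, hvC, c.at_unique hS hd hz (c.ne_of_R_C hp hvC)⟩

end Ctx
end H70G3

end S_Rs

section S_Ru

/-!
# Row Ru : the W-unit

v = ctr w, y ≠ v (`ne_of_R_C`, `ctr_isC`), e = {y,w,v}; at' E S y = {e} (`at_dep_W`).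
Claim: dep S x w ⇒ x = y or x = v.  x ∉ L, x ∉ W (red), x ∈ R ⇒ x = y (uniq).  Suppose x ∈ C, x ≠ v. at' E S x = {{x,w,v}} (`at_dep_W`).  ¬ cM2 with x: there is z, dep S z x.
  z = w: all S-edges at w contain x, but e = {y,w,v} is an S-edge at w and x ∉ e (x ∈ C, y ∈ R, w ∈ W, x ≠ v): contradiction.
  z ≠ w: dep S z w (`dep_trans`).  z = v: e is an S-edge at v without x, contradiction.  z ≠ v: at' E S z = {{z,w,v}} (`at_dep_W`), it contains x: x = z (dep excludes), w, v: no.
Case A: not dep S v w. Then all dependent vertices equal y. X := (S.erase w).erase y ∈ D by `erase_erase_D` (p := w, q := y, hq from dep S y w).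
  isU y X: y ∉ X; insert y X ∉ D: an edge at y inside insert y X is an S-edge at y, so equals e ∋ w, but w ∉ insert y X.  X ∪ e = S (y, w, v ∈ S; v ∈ X).  Then at' E (X ∪ e) y = {e}.
  w ∉ X, v ∈ X (v ≠ w, y): first alternative.
Case B: dep S v w.  X := ((S.erase w).erase y).erase v = S \ {w, y, v}. X ∈ D by `sdiff_D`: z ∈ S, z ∉ {w,y,v}: not dep S z w (claim), so some S-edge g at z avoids w; g avoids y (S-edges at
  y are e ∋ w) and avoids v (dep S v w). X ∪ e = S.  isU y X as before. Second alternative: ∀ f ∈ E, v ∈ f → f ⊆ X ∪ e = S → w ∈ f by dep S v w.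
-/

open Finset Classical

universe u

namespace H70G3
namespace Ctx
variable {V : Type u} [Fintype V] [DecidableEq V] (c : Ctx V)

theorem unit_W {S : Finset V} {y w : V} (hy : isR c.E y) (hw : isW c.E w) (hc : c.crit S w)
    (hr : c.red S w) (hd : dep c.E S y w) (hu : c.uniq y S w)
    (ht : ({y, w, c.ctr w} : Finset V) ∈ c.tri y) :
    ∃ X, c.WA y X {y, w, c.ctr w} ∧ X ∪ {y, w, c.ctr w} = S := by
  obtain ⟨hSD, hwS, -⟩ := hc
  have hyv : y ≠ c.ctr w := c.ne_of_R_C hy (c.ctr_isC hw)
  have hwv : w ≠ c.ctr w := (c.ctr_Dm hw).1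
  have hyw : y ≠ w := hd.2.1
  have hat : at' c.E S y = {{y, w, c.ctr w}} := c.at_dep_W hSD hd hw hyv
  have heat : ({y, w, c.ctr w} : Finset V) ∈ at' c.E S y := by rw [hat]; exact mem_singleton_self _
  obtain ⟨heE, -, heS⟩ := c.mem_at.1 heat
  have hyS : y ∈ S := hd.1
  have hvS : c.ctr w ∈ S := c.ctr_mem hw hSD hwS
  -- the claim
  have claim : ∀ x, dep c.E S x w → x = y ∨ x = c.ctr w := by
    intro x hx
    by_contra hcon
    push Not at hcon
    obtain ⟨hxy, hxv⟩ := hcon
    have hxL : ¬ isL c.E x := c.dep_not_L hx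
    have hxW : ¬ isW c.E x := fun h => hr.2.2.2 ⟨x, h, hx⟩
    have hxR : ¬ isR c.E x := fun h => hxy (hu x h hx)
    have hxC : isC c.E x := by
      rcases c.four x with h | h | h | h
      · exact absurd h hxW
      · exact h
      · exact absurd h hxL
      · exact absurd h hxR
    have hne : S.erase x ∉ c.D := fun h => hr.1 ⟨x, hxC, hx, h⟩
    rw [c.erase_D_iff hSD] at hne
    push Not at hne
    obtain ⟨z, hz⟩ := hne
    have hnot : x ∉ ({y, w, c.ctr w} : Finset V) := by
      simp only [mem_insert, mem_singleton, not_or]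
      exact ⟨hxy, hx.2.1, hxv⟩
    by_cases hzw : z = w
    · rw [hzw] at hz
      exact hnot (hz.2.2 _ heE (by simp) heS)
    · by_cases hzv : z = c.ctr w
      · rw [hzv] at hz
        exact hnot (hz.2.2 _ heE (by simp) heS)
      · have hzd : dep c.E S z w := c.dep_trans hz hx hzw
        have h1 : at' c.E S z = {{z, w, c.ctr w}} := c.at_dep_W hSD hzd hw hzv
        have h2 : ({z, w, c.ctr w} : Finset V) ∈ at' c.E S z := by
          rw [h1]; exact mem_singleton_self _
        obtain ⟨h3, h4, h5⟩ := c.mem_at.1 h2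
        have h6 := hz.2.2 _ h3 h4 h5
        simp only [mem_insert, mem_singleton] at h6
        rcases h6 with h | h | h
        · exact hz.2.1 h.symm
        · exact hx.2.1 h
        · exact hxv h
  have key : ∀ X : Finset V, X ∈ c.D → y ∉ X → w ∉ X → X ∪ {y, w, c.ctr w} = S →
      (c.ctr w ∈ X ∨ ∀ f ∈ c.E, c.ctr w ∈ f → f ⊆ X ∪ {y, w, c.ctr w} → w ∈ f) →
      c.WA y X {y, w, c.ctr w} := by
    intro X hX hyX hwX hXS hlast
    refine ⟨⟨hX, hyX, ?_⟩, ht, ?_, w, hw, hwX, rfl, hlast⟩
    · intro hins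
      obtain ⟨f, hf⟩ := c.exists_at hins (mem_insert_self y X)
      rw [c.mem_at] at hf
      obtain ⟨hfE, hyf, hfs⟩ := hf
      have hfS : f ⊆ S := by
        refine hfs.trans ?_
        rw [← hXS]
        intro x hx
        rcases mem_insert.1 hx with h | h
        · rw [h]; exact mem_union_right _ (by simp)
        · exact mem_union_left _ h
      have hwf : w ∈ f := hd.2.2 f hfE hyf hfS
      rcases mem_insert.1 (hfs hwf) with h | h
      · exact hyw h.symm
      · exact hwX h
    · rw [hXS]; exact hat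
  by_cases hvw : dep c.E S (c.ctr w) w
  · refine ⟨S \ {y, w, c.ctr w}, ?_, ?_⟩
    · apply key
      · apply c.sdiff_D
        intro z hz
        rw [mem_sdiff] at hz
        obtain ⟨hzS, hzn⟩ := hz
        simp only [mem_insert, mem_singleton, not_or] at hzn
        obtain ⟨hzy, hzw, hzv⟩ := hzn
        have hnd : ¬ dep c.E S z w := by
          intro h
          rcases claim z h with h | h
          · exact hzy h
          · exact hzv h
        unfold dep at hnd
        push Not at hnd
        obtain ⟨g, hg, hzg, hgS, hwg⟩ := hnd hzS hzw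
        refine ⟨g, hg, hzg, hgS, ?_⟩
        rw [disjoint_left]
        intro x hxg hx
        simp only [mem_insert, mem_singleton] at hx
        rcases hx with h | h | h
        · rw [h] at hxg; exact hwg (hd.2.2 g hg hxg hgS)
        · rw [h] at hxg; exact hwg hxg
        · rw [h] at hxg; exact hwg (hvw.2.2 g hg hxg hgS)
      · simp
      · simp
      · exact sdiff_union_of_subset heS
      · right
        intro f hf hvf hfs
        rw [sdiff_union_of_subset heS] at hfs
        exact hvw.2.2 f hf hvf hfs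
    · exact sdiff_union_of_subset heS
  · have hun : (S.erase w).erase y ∪ {y, w, c.ctr w} = S := by
      ext x
      simp only [mem_union, mem_erase, mem_insert, mem_singleton]
      constructor
      · rintro (⟨-, -, h⟩ | h | h | h)
        · exact h
        · rw [h]; exact hyS
        · rw [h]; exact hwS
        · rw [h]; exact hvS
      · intro h
        by_cases h1 : x = y
        · exact Or.inr (Or.inl h1)
        · by_cases h2 : x = w
          · exact Or.inr (Or.inr (Or.inl h2))
          · exact Or.inl ⟨h1, h2, h⟩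
    refine ⟨(S.erase w).erase y, ?_, hun⟩
    apply key
    · apply c.erase_erase_D hSD hd.2.2
      intro x hx
      rcases claim x hx with h | h
      · exact h
      · rw [h] at hx; exact absurd hx hvw
    · simp
    · simp
    · exact hun
    · left
      rw [mem_erase, mem_erase]
      exact ⟨hyv.symm, hwv.symm, hvS⟩

end Ctx
end H70G3

end S_Ru

section S_Rn

/-!
# Row Rn : the load of (y, S) when there is exactly one S-edge e at y

t := t y S ≤ 1, and t = 1 iff e ∈ tri y (t y S = card of the chosen edges ⊆ S, all of which lie in at' E S y = {e}).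
The nonzero om y S p have dep S y p (`om_dep`), i.e. p ∈ e, p ≠ y.  y ∈ e, e ≠ {y} (`R_not_L`), card e ≤ 3.
Case 0: e = {y, a} (two elements): no vertex of e is in W (a ∈ W ⇒ ctr a ∈ e, ctr a ≠ a, so ctr a = y ∈ C, contradiction).  If a ∈ R: om ≤ 6, self = 0 (ias: v ∈ C, v = a; ib: the edge
  would contain two centres v ≠ v', both different from y, so both = a).  If a ∉ R: om = 0, self ≤ 6.  So ldR ≤ 6 and ldR + 4 t ≤ 10 ≤ 12.
Case 1: e = {y,p,q} (pairwise different), p ∈ W.  Then ctr p ∈ e, so q = ctr p (ctr p ≠ y: C, R; ctr p ≠ p).  om y S q = 0, self = 0 (`self_zero_of_W`), ldR = om y S p.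
   om y S p ≤ 8: fine with t ≤ 1 (8 + 4 = 12).   om y S p > 8: then uniq y S p and om = 12; if e ∉ tri y: t = 0, 12 ≤ 12.  If e ∈ tri y: `unit_W` gives X with WA y X e ∧ X ∪ e = S, so
   nWA y S ≥ 1: 12 + 4 ≤ 12 + 4.   (Same if q ∈ W.)
Case 2: p, q ∈ R: self = 0 (`self_zero_of_R`).  Let s_p = 1 if om y S p > 3, s_q likewise; ldR ≤ 6 + 3 s_p + 3 s_q (`om_R_le`, `om_R_le3`).
   If e ∉ tri y: 12 ≤ 12.  If e ∈ tri y: need nOA y S ≥ s_p + s_q (then 6 + 3 s_p + 3 s_q + 4 ≤ 12 + 2 s_p + 2 s_q).
   s_p = 1: uniq (`om_R_le3`), dep, crit, red; by `sole_or_special` either a centre is in e = {y,p,v} (impossible: at' E S y = {{y,p,q}} = {{y,p,v}}, v ∈ {y,p,q} all in R)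
   or all dependents equal y: X_p := (S.erase p).erase y ∈ D (`erase_erase_D`, hq from dep S y p).  OA y X_p e: isU: y ∉ X_p, insert y X_p ∉ D (its edges at y are S-edges at y,
   = e ∋ p, p ∉ insert y X_p); X_p ∪ e = S; a := p ∉ X_p, p ≠ y, ¬ isW p (R); x := q ∈ X_p, isR q; e = {y,p,q}.  Similarly X_q with a := q, x := p.
   (X_p, e) ≠ (X_q, e) since q ∈ X_p, q ∉ X_q. Both are in the filter set of nOA.
Case 3: exactly one of p, q is in R, none in W, say p ∈ R, q ∉ R: om y S q = 0, om y S p ≤ 6.  self = 0: ldR ≤ 6, 6 + 4 ≤ 12.  self ≠ 0: ib impossible (p ∈ R is not a centre),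
   so ias S y v with v ∈ e, so v = q.  If e ∉ tri y: 12 ≤ 12.  If e ∈ tri y: X := (S.erase y).erase q ∈ D (`erase_erase_D` with p := y, q := q: hq from dep S q y; all dependents of y equal q).
   OA y X e: a := q ∉ X, q ≠ y, ¬ isW q (`C_not_W`), x := p ∈ X ∩ R; isU y X (edges at y in insert y X are S-edges, = e ∋ q).  X ∪ e = S.  So nOA ≥ 1.  nS1 y S = 1: S1src y S q with the
   first alternative (s := p).  12 + 4 ≤ 12 + 2 + 2.
Case 4: p, q neither in R nor in W: ldR = self ≤ 6.
-/

/-!
# Row Rn : the load of (y, S) when there is exactly one S-edge e at y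
-/

open Finset Classical

universe u

namespace H70G3
namespace Ctx
variable {V : Type u} [Fintype V] [DecidableEq V] (c : Ctx V)

theorem Rn_uniq {y p : V} {S : Finset V} (h : 8 < c.om y S p) : c.uniq y S p := by
  by_contra hu
  unfold om at h
  simp only [hu, if_false] at h
  split_ifs at h <;> omega

theorem Rn_e {y : V} {S e : Finset V} (he : at' c.E S y = {e}) : e ∈ c.E ∧ y ∈ e ∧ e ⊆ S :=
  c.mem_at.1 (by rw [he]; exact mem_singleton_self e)

theorem Rn_sum {y : V} {S e : Finset V} (he : at' c.E S y = {e}) :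
    ∑ p, c.om y S p = ∑ p ∈ e.erase y, c.om y S p := by
  symm
  apply Finset.sum_subset (Finset.subset_univ _)
  intro p _ hp
  by_contra h
  obtain ⟨hd, -, -⟩ := c.om_dep h
  obtain ⟨h1, h2, h3⟩ := c.Rn_e he
  exact hp (mem_erase.2 ⟨hd.2.1.symm, hd.2.2 e h1 h2 h3⟩)

theorem Rn_t {y : V} {S e : Finset V} (he : at' c.E S y = {e}) :
    c.t y S = 0 ∨ (c.t y S = 1 ∧ e ∈ c.tri y) := by
  have h1 : c.t y S ≤ 1 := by
    have := c.t_le_card y S
    rwa [he, card_singleton] at this
  rcases Nat.eq_zero_or_pos (c.t y S) with h0 | h0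
  · exact Or.inl h0
  · refine Or.inr ⟨le_antisymm h1 h0, ?_⟩
    obtain ⟨f, hf⟩ := card_pos.1 h0
    obtain ⟨hf1, hf2⟩ := mem_filter.1 hf
    obtain ⟨hfE, hyf⟩ := c.tri_sub y f hf1
    have h2 : f ∈ at' c.E S y := c.mem_at.2 ⟨hfE, hyf, hf2⟩
    rw [he, mem_singleton] at h2
    rwa [← h2]

theorem Rn_OA {y a x : V} {S X e : Finset V} (he : at' c.E S y = {e}) (het : e ∈ c.tri y)
    (hX : X ∈ c.D) (hXm : ∀ z, z ∈ X ↔ z ∈ S ∧ z ≠ a ∧ z ≠ y) (hay : a ≠ y)
    (haW : ¬ isW c.E a) (hxa : x ≠ a) (hxy : x ≠ y) (hxR : isR c.E x)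
    (hexy : e = {y, a, x}) : c.OA y X e ∧ X ∪ e = S := by
  obtain ⟨heE, hye, heS⟩ := c.Rn_e he
  have hae : a ∈ e := by rw [hexy]; simp
  have hxe : x ∈ e := by rw [hexy]; simp
  have hyX : y ∉ X := fun h => ((hXm y).1 h).2.2 rfl
  have haX : a ∉ X := fun h => ((hXm a).1 h).2.1 rfl
  have hun : X ∪ e = S := by
    ext z
    rw [mem_union]
    constructor
    · rintro (h | h)
      · exact ((hXm z).1 h).1
      · exact heS h
    · intro h
      by_cases h1 : z = a
      · right; rw [h1]; exact hae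
      · by_cases h2 : z = y
        · right; rw [h2]; exact hye
        · left; exact (hXm z).2 ⟨h, h1, h2⟩
  refine ⟨⟨⟨hX, hyX, ?_⟩, het, by rw [hun, he], a, x, haX, hay, haW, ?_, hxR, hexy⟩, hun⟩
  · intro hD
    obtain ⟨f, hf⟩ := c.exists_at hD (mem_insert_self y X)
    obtain ⟨hf1, hf2, hf3⟩ := c.mem_at.1 hf
    have hins : insert y X ⊆ S := by
      intro z hz
      rcases mem_insert.1 hz with rfl | hz
      · exact heS hye
      · exact ((hXm z).1 hz).1
    have h2 : f ∈ at' c.E S y := c.mem_at.2 ⟨hf1, hf2, hf3.trans hins⟩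
    rw [he, mem_singleton] at h2
    have h3 : a ∈ insert y X := hf3 (by rw [h2]; exact hae)
    rcases mem_insert.1 h3 with h4 | h4
    · exact hay h4
    · exact haX h4
  · exact (hXm x).2 ⟨heS hxe, hxa, hxy⟩

theorem Rn_nOA_pos {y : V} {S X e : Finset V} (h : c.OA y X e) (hu : X ∪ e = S) :
    1 ≤ c.nOA y S :=
  card_pos.2 ⟨(X, e), mem_filter.2 ⟨mem_univ _, h, hu⟩⟩

theorem Rn_nOA_two {y : V} {S X X' e : Finset V} (h : c.OA y X e) (hu : X ∪ e = S)
    (h' : c.OA y X' e) (hu' : X' ∪ e = S) (hne : X ≠ X') : 2 ≤ c.nOA y S :=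
  one_lt_card.2 ⟨(X, e), mem_filter.2 ⟨mem_univ _, h, hu⟩, (X', e),
    mem_filter.2 ⟨mem_univ _, h', hu'⟩, fun hc => hne (congrArg Prod.fst hc)⟩

/-- case 1 -/
theorem Rn_W {y p : V} {S e : Finset V} (hy : isR c.E y) (he : at' c.E S y = {e})
    (hp : isW c.E p) (hpe : p ∈ e) :
    c.ldR y S + 4 * c.t y S ≤ 12 + 4 * c.nWA y S := by
  obtain ⟨heE, hye, heS⟩ := c.Rn_e he
  have hcp : c.ctr p ∈ e := c.W_edge hp heE hpe
  have h1 : y ≠ p := c.ne_of_R_W hy hp
  have h2 : y ≠ c.ctr p := c.ne_of_R_C hy (c.ctr_isC hp)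
  have h3 : p ≠ c.ctr p := (c.ctr_Dm hp).1
  have he3 : e = {y, p, c.ctr p} := c.edge_eq heE hye hpe hcp h1 h2 h3
  have hself : c.self y S = 0 := c.self_zero_of_W hp hy (by rw [he, he3])
  have hsum : ∑ p', c.om y S p' = c.om y S p := by
    rw [c.Rn_sum he]
    have h4 : e.erase y = {p, c.ctr p} := by
      rw [he3]
      ext z
      simp only [mem_erase, mem_insert, mem_singleton]
      constructor
      · rintro ⟨h5, h6 | h6 | h6⟩
        · exact absurd h6 h5
        · exact Or.inl h6
        · exact Or.inr h6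
      · rintro (h6 | h6)
        · exact ⟨by rw [h6]; exact h1.symm, Or.inr (Or.inl h6)⟩
        · exact ⟨by rw [h6]; exact h2.symm, Or.inr (Or.inr h6)⟩
    rw [h4, sum_pair h3, c.om_zero (c.C_not_R (c.ctr_isC hp)) (c.C_not_W (c.ctr_isC hp)), add_zero]
  have hld : c.ldR y S = c.om y S p := by
    unfold ldR
    rw [hsum, hself, add_zero]
  rw [hld]
  rcases c.Rn_t he with ht | ⟨ht, het⟩
  · have := c.om_le y S p
    omega
  · by_cases h8 : 8 < c.om y S p
    · obtain ⟨hd, hc, hr⟩ := c.om_dep (show c.om y S p ≠ 0 by omega)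
      obtain ⟨X, hX1, hX2⟩ := c.unit_W hy hp hc hr hd (c.Rn_uniq h8) (by rw [← he3]; exact het)
      have h5 : 1 ≤ c.nWA y S :=
        card_pos.2 ⟨(X, {y, p, c.ctr p}), mem_filter.2 ⟨mem_univ _, hX1, hX2⟩⟩
      have := c.om_le y S p
      omega
    · omega

omit [Fintype V] in
theorem Rn_erase {y p q : V} {e : Finset V} (he3 : e = {y, p, q}) (h1 : y ≠ p) (h2 : y ≠ q) :
    e.erase y = {p, q} := by
  rw [he3]
  ext z
  simp only [mem_erase, mem_insert, mem_singleton]
  constructor
  · rintro ⟨h5, h6 | h6 | h6⟩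
    · exact absurd h6 h5
    · exact Or.inl h6
    · exact Or.inr h6
  · rintro (h6 | h6)
    · exact ⟨by rw [h6]; exact h1.symm, Or.inr (Or.inl h6)⟩
    · exact ⟨by rw [h6]; exact h2.symm, Or.inr (Or.inr h6)⟩

/-- the unit for a dependent `p` in `R`, partner `q` in `R` -/
theorem Rn_unit {y p q : V} {S e : Finset V} (hy : isR c.E y) (hS : S ∈ c.D)
    (he : at' c.E S y = {e}) (het : e ∈ c.tri y) (hp : isR c.E p) (hq : isR c.E q)
    (h1 : y ≠ p) (h2 : y ≠ q) (h3 : p ≠ q) (he3 : e = {y, p, q}) (hom : 3 < c.om y S p) :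
    c.OA y ((S.erase p).erase y) e ∧ (S.erase p).erase y ∪ e = S := by
  obtain ⟨hd, hc, hr⟩ := c.om_dep (show c.om y S p ≠ 0 by omega)
  have hu : c.uniq y S p := by
    by_contra hu
    have := c.om_R_le3 hp hu
    omega
  have hx : ∀ x, dep c.E S x p → x = y := by
    rcases c.sole_or_special hy hp hc hr hd hu with h | ⟨v, hv, hv2⟩
    · exact h
    · exfalso
      rw [he] at hv2
      have h4 : e = {y, p, v} := singleton_injective hv2
      have h5 : v ∈ e := by rw [h4]; simp
      rw [he3] at h5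
      simp only [mem_insert, mem_singleton] at h5
      rcases h5 with rfl | rfl | rfl
      · exact c.C_not_R hv hy
      · exact c.C_not_R hv hp
      · exact c.C_not_R hv hq
  have hX : (S.erase p).erase y ∈ c.D := c.erase_erase_D hS hd.2.2 hx
  refine c.Rn_OA he het hX ?_ h1.symm (fun h => c.W_not_R h hp) h3.symm h2.symm hq he3
  intro z
  simp only [mem_erase]
  tauto

/-- case 2 -/
theorem Rn_RR {y p q : V} {S e : Finset V} (hy : isR c.E y) (hS : S ∈ c.D)
    (he : at' c.E S y = {e}) (hp : isR c.E p) (hq : isR c.E q)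
    (h1 : y ≠ p) (h2 : y ≠ q) (h3 : p ≠ q) (he3 : e = {y, p, q}) :
    c.ldR y S + 4 * c.t y S ≤ 12 + 2 * c.nOA y S := by
  have hself : c.self y S = 0 := c.self_zero_of_R hy hp hq (by rw [he, he3])
  have hld : c.ldR y S = c.om y S p + c.om y S q := by
    unfold ldR
    rw [c.Rn_sum he, Rn_erase he3 h1 h2, sum_pair h3, hself, add_zero]
  rw [hld]
  have hp6 := c.om_R_le (y := y) (S := S) hp
  have hq6 := c.om_R_le (y := y) (S := S) hq
  rcases c.Rn_t he with ht | ⟨ht, het⟩
  · omega
  · have he3' : e = {y, q, p} := by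
      rw [he3]
      ext z
      simp only [mem_insert, mem_singleton]
      tauto
    by_cases hps : 3 < c.om y S p
    · obtain ⟨a1, a2⟩ := c.Rn_unit hy hS he het hp hq h1 h2 h3 he3 hps
      by_cases hqs : 3 < c.om y S q
      · obtain ⟨b1, b2⟩ := c.Rn_unit hy hS he het hq hp h2 h1 h3.symm he3' hqs
        have hne : (S.erase p).erase y ≠ (S.erase q).erase y := by
          intro h
          have h4 : q ∈ (S.erase p).erase y := by
            simp only [mem_erase]
            refine ⟨h2.symm, h3.symm, (c.Rn_e he).2.2 ?_⟩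
            rw [he3]; simp
          rw [h] at h4
          simp only [mem_erase] at h4
          exact h4.2.1 rfl
        have := c.Rn_nOA_two a1 a2 b1 b2 hne
        omega
      · have := c.Rn_nOA_pos a1 a2
        omega
    · by_cases hqs : 3 < c.om y S q
      · obtain ⟨b1, b2⟩ := c.Rn_unit hy hS he het hq hp h2 h1 h3.symm he3' hqs
        have := c.Rn_nOA_pos b1 b2
        omega
      · omega

/-- case 3 -/
theorem Rn_RN {y p q : V} {S e : Finset V} (hS : S ∈ c.D)
    (he : at' c.E S y = {e}) (hp : isR c.E p) (hq : ¬ isR c.E q) (hqW : ¬ isW c.E q)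
    (h1 : y ≠ p) (h2 : y ≠ q) (h3 : p ≠ q) (he3 : e = {y, p, q}) :
    c.ldR y S + 4 * c.t y S ≤ 12 + 2 * c.nOA y S + 2 * c.nS1 y S := by
  obtain ⟨heE, hye, heS⟩ := c.Rn_e he
  have hld : c.ldR y S = c.om y S p + c.self y S := by
    unfold ldR
    rw [c.Rn_sum he, Rn_erase he3 h1 h2, sum_pair h3, c.om_zero hq hqW, add_zero]
  rw [hld]
  have hp6 := c.om_R_le (y := y) (S := S) hp
  have hs6 := c.self_le y S
  rcases c.Rn_t he with ht | ⟨ht, het⟩
  · omega
  · by_cases hs : c.self y S = 0
    · omega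
    · have hcond : (∃ v, c.ias S y v) ∨ c.ib S y := by
        by_contra hcon
        apply hs
        unfold self
        rw [if_neg hcon]
      have hias : c.ias S y q := by
        rcases hcond with ⟨v, hv⟩ | ⟨-, -, v, v', hv, hv', -, hat⟩
        · obtain ⟨-, -, hvC, hdep, -, -, -, -⟩ := id hv
          have h4 : v ∈ e := hdep.2.2 e heE hye heS
          rw [he3] at h4
          simp only [mem_insert, mem_singleton] at h4
          rcases h4 with h4 | h4 | h4
          · exact absurd h4.symm hdep.2.1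
          · rw [h4] at hvC
            exact absurd hp (c.C_not_R hvC)
          · rwa [h4] at hv
        · exfalso
          rw [he] at hat
          have h4 : e = {y, v, v'} := singleton_injective hat
          have h5 : p ∈ e := by rw [he3]; simp
          rw [h4] at h5
          simp only [mem_insert, mem_singleton] at h5
          rcases h5 with h5 | h5 | h5
          · exact h1 h5.symm
          · rw [h5] at hp
            exact c.C_not_R hv hp
          · rw [h5] at hp
            exact c.C_not_R hv' hp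
      obtain ⟨-, -, hqC, hyq, hqy, hall, -, -⟩ := id hias
      have he3' : e = {y, q, p} := by
        rw [he3]
        ext z
        simp only [mem_insert, mem_singleton]
        tauto
      have hX : (S.erase y).erase q ∈ c.D := c.erase_erase_D hS hqy.2.2 hall
      obtain ⟨a1, a2⟩ := c.Rn_OA (a := q) (x := p) he het hX (by
        intro z
        simp only [mem_erase]
        tauto) h2.symm hqW h3 h1.symm hp he3'
      have b1 := c.Rn_nOA_pos a1 a2
      have b2 : c.nS1 y S = 1 := by
        unfold nS1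
        rw [if_pos]
        refine ⟨q, hias, Or.inl ⟨p, hp, h1.symm, ?_, ?_⟩⟩
        · rw [he, he3']
        · rw [← he3']
          exact het
      omega

theorem ldR_one {y : V} {S e : Finset V} (hy : isR c.E y) (h3 : (c.tri y).card = 3)
    (hS : S ∈ c.D) (he : at' c.E S y = {e}) :
    c.ldR y S + 4 * c.t y S ≤ 12 + 2 * c.nOA y S + 4 * c.nWA y S + 2 * c.nS1 y S := by
  obtain ⟨heE, hye, heS⟩ := c.Rn_e he
  by_cases hW : ∃ p ∈ e, isW c.E p
  · obtain ⟨p, hpe, hp⟩ := hW
    have := c.Rn_W hy he hp hpe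
    omega
  have hW' : ∀ p ∈ e, ¬ isW c.E p := fun p hp h => hW ⟨p, hp, h⟩
  have hcard := c.card_le e heE
  have hce : (e.erase y).card ≤ 2 := by
    rw [card_erase_of_mem hye]
    omega
  have hpos : 0 < (e.erase y).card := by
    rw [card_pos]
    by_contra hcon
    rw [not_nonempty_iff_eq_empty, erase_eq_empty_iff] at hcon
    rcases hcon with h | h
    · rw [h] at hye
      exact notMem_empty y hye
    · rw [h] at heE
      exact c.R_not_L hy heE
  rcases (show (e.erase y).card = 1 ∨ (e.erase y).card = 2 by omega) with h1 | h2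
  · obtain ⟨a, ha⟩ := card_eq_one.1 h1
    have hae : a ∈ e.erase y := by rw [ha]; exact mem_singleton_self a
    obtain ⟨hay, hae'⟩ := mem_erase.1 hae
    have hmem : ∀ z ∈ e, z ≠ y → z = a := by
      intro z hz hzy
      have : z ∈ e.erase y := mem_erase.2 ⟨hzy, hz⟩
      rw [ha] at this
      exact mem_singleton.1 this
    have hld : c.ldR y S = c.om y S a + c.self y S := by
      unfold ldR
      rw [c.Rn_sum he, ha, sum_singleton]
    have hs6 := c.self_le y S
    have ht : c.t y S ≤ 1 := by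
      rcases c.Rn_t he with ht | ⟨ht, -⟩ <;> omega
    by_cases haR : isR c.E a
    · have hself : c.self y S = 0 := by
        unfold self
        rw [if_neg]
        rintro (⟨v, hv⟩ | ⟨-, -, v, v', hv, hv', hne, hat⟩)
        · obtain ⟨-, -, hvC, hdep, -, -, -, -⟩ := hv
          have h4 := hmem v (hdep.2.2 e heE hye heS) hdep.2.1.symm
          rw [h4] at hvC
          exact c.C_not_R hvC haR
        · rw [he] at hat
          have h4 : e = {y, v, v'} := singleton_injective hat
          have h5 := hmem v (by rw [h4]; simp) (c.ne_of_R_C hy hv).symm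
          have h6 := hmem v' (by rw [h4]; simp) (c.ne_of_R_C hy hv').symm
          exact hne (h5.trans h6.symm)
      have := c.om_R_le (y := y) (S := S) haR
      rw [hld, hself]
      omega
    · rw [hld, c.om_zero haR (hW' a hae')]
      omega
  · obtain ⟨p, q, hpq, hpqe⟩ := card_eq_two.1 h2
    have hpe : p ∈ e.erase y := by rw [hpqe]; simp
    have hqe : q ∈ e.erase y := by rw [hpqe]; simp
    obtain ⟨hpy, hpe'⟩ := mem_erase.1 hpe
    obtain ⟨hqy, hqe'⟩ := mem_erase.1 hqe
    have he3 : e = {y, p, q} := c.edge_eq heE hye hpe' hqe' hpy.symm hqy.symm hpq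
    have he3' : e = {y, q, p} := c.edge_eq heE hye hqe' hpe' hqy.symm hpy.symm hpq.symm
    by_cases hp : isR c.E p
    · by_cases hq : isR c.E q
      · have := c.Rn_RR hy hS he hp hq hpy.symm hqy.symm hpq he3
        omega
      · have := c.Rn_RN hS he hp hq (hW' q hqe') hpy.symm hqy.symm hpq he3
        omega
    · by_cases hq : isR c.E q
      · have := c.Rn_RN hS he hq hp (hW' p hpe') hqy.symm hpy.symm hpq.symm he3'
        omega
      · have hld : c.ldR y S = c.self y S := by
          unfold ldR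
          rw [c.Rn_sum he, hpqe, sum_pair hpq, c.om_zero hp (hW' p hpe'),
            c.om_zero hq (hW' q hqe')]
          omega
        have hs6 := c.self_le y S
        have ht : c.t y S ≤ 1 := by
          rcases c.Rn_t he with ht | ⟨ht, -⟩ <;> omega
        rw [hld]
        omega

end Ctx
end H70G3

end S_Rn

section S_Rm

/-!
# Row Rm : the load of (y, S) when there are at least two S-edges at y

If dep S y p and dep S y q with p ≠ q then at' E S y is a singleton (`at_unique`), excluded.  So at most one vertex p has dep S y p.  If p ∈ W: dep S y p and dep S y (ctr p)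
(y ≠ ctr p), i.e. `at_dep_W` gives a singleton, excluded.  ib is excluded (singleton).  ias S y v needs dep S y v.
(0) no vertex p with dep S y p: ldR = 0 and t ≤ 3 (t ≤ card tri = 3).
(1) dep S y p, p ∈ R: self = 0 (v = p impossible).  ldR = om y S p ≤ 6.  t ≤ 2: all S-edges at y contain p, and some chosen edge avoids p (`tri_R`, first alternative because card tri = 3).
   t ≤ 1: 6 + 4 ≤ 12.  t = 2: om ≤ 3: 3 + 8 ≤ 12.  om > 3: uniq, crit, red; `sole_or_special`: the special alternative gives a singleton, excluded; so all dependents of p equal y: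
   X := (S.erase p).erase y ∈ D (`erase_erase_D`).  DA y X p: isU y X (edges at y in insert y X are S-edges, contain p, p ∉ insert y X); two chosen edges e ≠ f ⊆ S (t = 2), both contain p;
   insert y (insert p X) = S.  So nDA y S ≥ 1: 6 + 8 ≤ 12 + 2.
(2) dep S y p, p ∉ R (then p ∉ W): all om = 0; ldR = self ≤ 6.  If self = 0 fine.  self = 6: ias S y p (v = p), t ≤ 2 as before; t ≤ 1 fine; t = 2: S1src y S p (second alternative): nS1 = 1: 6 + 8 ≤ 12 + 2.
-/

open Finset Classical

universe u

namespace H70G3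
namespace Ctx
variable {V : Type u} [Fintype V] [DecidableEq V] (c : Ctx V)

theorem Rm_uniq {y p q : V} {S : Finset V} (hS : S ∈ c.D) (h2 : 2 ≤ (at' c.E S y).card)
    (hp : dep c.E S y p) (hq : dep c.E S y q) : p = q := by
  by_contra h
  rw [c.at_unique hS hp hq h, card_singleton] at h2
  omega

theorem Rm_not_ib {y : V} {S : Finset V} (h2 : 2 ≤ (at' c.E S y).card) : ¬ c.ib S y := by
  rintro ⟨-, -, v, v', -, -, -, h⟩
  rw [h, card_singleton] at h2
  omega

theorem Rm_t3 {y : V} (S : Finset V) (h3 : (c.tri y).card = 3) : c.t y S ≤ 3 := by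
  unfold t
  rw [← h3]
  exact card_filter_le _ _

theorem Rm_t2 {y p : V} {S : Finset V} (hy : isR c.E y) (h3 : (c.tri y).card = 3)
    (hp : dep c.E S y p) : c.t y S ≤ 2 := by
  rcases c.tri_R y hy with ⟨-, h⟩ | ⟨h, -⟩
  · obtain ⟨e, he, hpe⟩ := h p (Ne.symm hp.2.1)
    unfold t
    have hsub : (c.tri y).filter (fun e => e ⊆ S) ⊆ (c.tri y).erase e := by
      intro f hf
      rw [mem_filter] at hf
      rw [mem_erase]
      refine ⟨?_, hf.1⟩
      rintro rfl
      exact hpe (hp.2.2 f (c.tri_sub y f he).1 (c.tri_sub y f he).2 hf.2)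
    refine (card_le_card hsub).trans ?_
    rw [card_erase_of_mem he, h3]
  · omega

theorem Rm_sum {y p : V} {S : Finset V} (hS : S ∈ c.D) (h2 : 2 ≤ (at' c.E S y).card)
    (hp : dep c.E S y p) : ∑ q, c.om y S q = c.om y S p := by
  refine sum_eq_single p (fun q _ hq => ?_) (fun h => absurd (mem_univ _) h)
  by_contra h
  exact hq (c.Rm_uniq hS h2 (c.om_dep h).1 hp)

theorem ldR_two {y : V} {S : Finset V} (hy : isR c.E y) (h3 : (c.tri y).card = 3)
    (hS : S ∈ c.D) (h2 : 2 ≤ (at' c.E S y).card) :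
    c.ldR y S + 4 * c.t y S ≤ 12 + 2 * c.nDA y S + 2 * c.nS1 y S := by
  have hib := c.Rm_not_ib h2
  by_cases hex : ∃ p, dep c.E S y p
  · obtain ⟨p, hp⟩ := hex
    have ht := c.Rm_t2 hy h3 hp
    have hpW : ¬ isW c.E p := by
      intro hw
      rw [c.at_dep_W hS hp hw (c.ne_of_R_C hy (c.ctr_isC hw)), card_singleton] at h2
      omega
    unfold ldR
    rw [c.Rm_sum hS h2 hp]
    by_cases hpR : isR c.E p
    · -- case 1
      have hself : c.self y S = 0 := by
        unfold self
        rw [if_neg]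
        rintro (⟨v, hv⟩ | h)
        · have hvp := c.Rm_uniq hS h2 hv.2.2.2.1 hp
          exact c.C_not_R hv.2.2.1 (hvp ▸ hpR)
        · exact hib h
      rw [hself, add_zero]
      have hom := c.om_R_le (y := y) (S := S) hpR
      by_cases ht1 : c.t y S ≤ 1
      · omega
      · have ht2 : c.t y S = 2 := by omega
        by_cases ho : c.om y S p ≤ 3
        · omega
        · have hu : c.uniq y S p := by
            by_contra hu
            exact ho (c.om_R_le3 hpR hu)
          obtain ⟨hd, hc, hr⟩ := c.om_dep (y := y) (S := S) (p := p) (by omega)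
          rcases c.sole_or_special hy hpR hc hr hd hu with hs | ⟨v, -, hv⟩
          · have hX := c.erase_erase_D hS hd.2.2 hs
            have hyp : y ≠ p := hd.2.1
            have hpS : p ∈ S := hc.2.1
            have hyS : y ∈ S := hd.1
            have hpX : p ∉ insert y ((S.erase p).erase y) := by
              simp only [mem_insert, mem_erase, not_or]
              exact ⟨Ne.symm hyp, fun h => h.2.1 rfl⟩
            have hins : insert y (insert p ((S.erase p).erase y)) = S := by
              ext x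
              simp only [mem_insert, mem_erase]
              constructor
              · rintro (rfl | rfl | h)
                · exact hyS
                · exact hpS
                · exact h.2.2
              · intro hx
                by_cases h1 : x = y
                · exact Or.inl h1
                · by_cases h4 : x = p
                  · exact Or.inr (Or.inl h4)
                  · exact Or.inr (Or.inr ⟨h1, h4, hx⟩)
            have hU : c.isU y ((S.erase p).erase y) := by
              refine ⟨hX, notMem_erase _ _, fun h => ?_⟩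
              obtain ⟨e, he⟩ := c.exists_at h (mem_insert_self _ _)
              rw [mem_at] at he
              refine hpX (he.2.2 (hd.2.2 e he.1 he.2.1 (he.2.2.trans ?_)))
              rw [insert_erase (mem_erase.2 ⟨hyp, hyS⟩)]
              exact erase_subset _ _
            obtain ⟨e, f, hef, hcard⟩ := card_eq_two.1 ht2
            have he : e ∈ (c.tri y).filter (fun e => e ⊆ S) := by rw [hcard]; simp
            have hf : f ∈ (c.tri y).filter (fun e => e ⊆ S) := by rw [hcard]; simp
            rw [mem_filter] at he hf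
            have hDA : c.DA y ((S.erase p).erase y) p := by
              refine ⟨hU, hpR, fun h => hpX (mem_insert_of_mem h), Ne.symm hyp, e, he.1, f, hf.1, hef,
                hd.2.2 e (c.tri_sub y e he.1).1 (c.tri_sub y e he.1).2 he.2,
                hd.2.2 f (c.tri_sub y f hf.1).1 (c.tri_sub y f hf.1).2 hf.2, ?_, ?_⟩
              · rw [hins]; exact he.2
              · rw [hins]; exact hf.2
            have hn : 1 ≤ c.nDA y S := by
              unfold nDA
              rw [Nat.one_le_iff_ne_zero, Ne, card_eq_zero, ← Ne, ← nonempty_iff_ne_empty]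
              exact ⟨((S.erase p).erase y, p), mem_filter.2 ⟨mem_univ _, hDA, hins⟩⟩
            omega
          · rw [hv, card_singleton] at h2
            omega
    · -- case 2
      rw [c.om_zero hpR hpW, zero_add]
      have hself := c.self_le y S
      by_cases hs0 : c.self y S = 0
      · omega
      · have hias : c.ias S y p := by
          have h : (∃ v, c.ias S y v) ∨ c.ib S y := by
            by_contra hn
            exact hs0 (by unfold self; rw [if_neg hn])
          rcases h with ⟨v, hv⟩ | h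
          · rwa [← c.Rm_uniq hS h2 hv.2.2.2.1 hp]
          · exact absurd h hib
        by_cases ht1 : c.t y S ≤ 1
        · omega
        · have ht2 : c.t y S = 2 := by omega
          have hn : c.nS1 y S = 1 := by
            unfold nS1
            rw [if_pos ⟨p, hias, Or.inr ⟨h2, ht2⟩⟩]
          omega
  · have hld : c.ldR y S = 0 := by
      unfold ldR
      have h1 : ∑ q, c.om y S q = 0 := by
        refine sum_eq_zero fun q _ => ?_
        by_contra h
        exact hex ⟨q, (c.om_dep h).1⟩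
      have h4 : c.self y S = 0 := by
        unfold self
        rw [if_neg]
        rintro (⟨v, hv⟩ | h)
        · exact hex ⟨v, hv.2.2.2.1⟩
        · exact hib h
      rw [h1, h4]
    have := c.Rm_t3 S h3
    omega

end Ctx
end H70G3

end S_Rm
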