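import Mathlib
import Pool.Agent.H70.G3M.A
import Pool.Agent.H70.G3M.B

/-! MP_75f39d_co, at most three generators per element, part C (several modules joined). -/

section S_Rt

/-!
# Row Rt : the states T2

T2 y T: e ≠ f in tri y, e, f ⊆ T, both are T-edges at y (`tri_sub`).
dep T y p ⇒ p ∈ e ∩ f, p ≠ y.  First alternative (e ∩ f ⊆ {y}): no such p.  Second: e = {y,w,ctr w}, f = {y,ctr w,x}: p ∈ {w, ctr w} ∩ {ctr w, x}; p = w would give w = x (w ≠ ctr w, w ≠ y) and f = e;
 so p = ctr w, in C.
(1) all om y T p = 0 (`om_dep`, `om_zero`, `C_not_R`, `C_not_W`).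
(2) self y T = 0: ib: at' E T y would be a singleton but e ≠ f are in it.  ias T y v: dep T y v so (second alternative) v = ctr w, but w ∈ T with Dm w v contradicts the clause
    ∀ u, Dm u v → u ∉ T.
(3) ¬ S1img y T: suppose T = insert (rep v) S, S1src S v.  Every T-edge g at y contains v: if rep v ∉ g then g ⊆ S, use dep S y v (in ias); if rep v ∈ g use `W_edge`, `ctr_rep`.
    So v ∈ e ∩ f, v ≠ y: second alternative, and v = ctr w as above.  w ∈ T, Dm w v so w ∉ S (ias), hence w = rep v.
    S1src first alternative: at' E S y = {{y,v,s}}, s ∈ R, s ≠ y.  f = {y,v,x} ⊆ T, w ∉ f (w = x would give f = e; w ≠ y, v), so f ⊆ S, f ∈ at' E S y, f = {y,v,s}, so s ∈ {y,v,x}: s ≠ y;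
     s ≠ v (R, C); s = x: x ∈ C or W, contradiction.
    second alternative: t y S = 2 : two chosen edges inside S; with e (contains w = rep v ∉ S, so not inside S) there are three chosen edges inside T, but t y T = 2: contradiction.
    (t y S ≤ number of chosen edges inside T different from e = 1.)
-/

open Finset Classical

universe u

namespace H70G3
namespace Ctx
variable {V : Type u} [Fintype V] [DecidableEq V] (c : Ctx V)

lemma Rt_key {y p : V} {e f : Finset V} (hy : isR c.E y) (hef : e ≠ f)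
    (h : (∀ x ∈ e, x ∈ f → x = y) ∨
     (∃ w x, isW c.E w ∧ e = {y, w, c.ctr w} ∧ f = {y, c.ctr w, x} ∧ (isC c.E x ∨ isW c.E x)))
    (hpe : p ∈ e) (hpf : p ∈ f) (hpy : p ≠ y) :
    ∃ w x, isW c.E w ∧ e = {y, w, c.ctr w} ∧ f = {y, c.ctr w, x} ∧ (isC c.E x ∨ isW c.E x) ∧
      p = c.ctr w ∧ w ∉ f := by
  rcases h with h | ⟨w, x, hw, he, hf, hx⟩
  · exact absurd (h p hpe hpf) hpy
  · have hwf : w ∉ f := by
      intro hwf
      rw [hf] at hwf
      simp only [mem_insert, mem_singleton] at hwf
      rcases hwf with h1 | h1 | h1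
      · exact c.ne_of_R_W hy hw h1.symm
      · exact (c.ctr_Dm hw).1 h1
      · apply hef
        rw [he, hf, ← h1]
        ext a
        simp only [mem_insert, mem_singleton]
        tauto
    refine ⟨w, x, hw, he, hf, hx, ?_, hwf⟩
    rw [he] at hpe
    simp only [mem_insert, mem_singleton] at hpe
    rcases hpe with h1 | h1 | h1
    · exact absurd h1 hpy
    · rw [h1] at hpf
      exact absurd hpf hwf
    · exact h1

theorem ldR_T2 {y : V} {T : Finset V} (hy : isR c.E y) (h3 : (c.tri y).card = 3)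
    (h : c.T2 y T) : c.ldR y T = 0 ∧ ¬ c.S1img y T := by
  obtain ⟨hTD, hyT, ht2, e, he, f, hf, hef, heT, hfT, halt⟩ := h
  have heE := c.tri_sub y e he
  have hfE := c.tri_sub y f hf
  have heat : e ∈ at' c.E T y := by rw [mem_at]; exact ⟨heE.1, heE.2, heT⟩
  have hfat : f ∈ at' c.E T y := by rw [mem_at]; exact ⟨hfE.1, hfE.2, hfT⟩
  refine ⟨?_, ?_⟩
  · unfold ldR
    have h1 : ∑ p, c.om y T p = 0 := by
      refine sum_eq_zero fun p _ => ?_
      by_contra hne
      obtain ⟨hd, -, -⟩ := c.om_dep hne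
      obtain ⟨w, x, hw, -, -, -, hp, -⟩ := c.Rt_key hy hef halt (hd.2.2 e heE.1 heE.2 heT)
        (hd.2.2 f hfE.1 hfE.2 hfT) hd.2.1.symm
      apply hne
      have hpC : isC c.E p := by rw [hp]; exact c.ctr_isC hw
      exact c.om_zero (c.C_not_R hpC) (c.C_not_W hpC)
    have h2 : c.self y T = 0 := by
      unfold self
      rw [if_neg]
      rintro (⟨v, hv⟩ | ⟨_, _, v, v', _, _, _, hat⟩)
      · obtain ⟨-, -, hvC, hd, -, -, hu, -⟩ := hv
        obtain ⟨w, x, hw, hee, -, -, hp, -⟩ := c.Rt_key hy hef halt (hd.2.2 e heE.1 heE.2 heT)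
          (hd.2.2 f hfE.1 hfE.2 hfT) hd.2.1.symm
        refine hu w ?_ (heT ?_)
        · rw [hp]; exact c.ctr_Dm hw
        · rw [hee]; simp
      · rw [hat, mem_singleton] at heat hfat
        exact hef (heat.trans hfat.symm)
    rw [h1, h2]
  · rintro ⟨S, v, ⟨hias, hAB⟩, hTS⟩
    obtain ⟨hSD, -, hvC, hd, -, -, hu, -⟩ := hias
    have hrS : c.rep v ∉ S := hu _ (c.rep_Dm hvC)
    have hsub : ∀ g : Finset V, g ⊆ T → c.rep v ∉ g → g ⊆ S := by
      intro g hg hr
      rw [hTS] at hg
      exact (Finset.subset_insert_iff_of_notMem hr).1 hg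
    have hcont : ∀ g ∈ c.E, y ∈ g → g ⊆ T → v ∈ g := by
      intro g hg hyg hgT
      by_cases hr : c.rep v ∈ g
      · have h1 := c.W_edge (c.rep_isW hvC) hg hr
        rwa [c.ctr_rep hvC] at h1
      · exact hd.2.2 g hg hyg (hsub g hgT hr)
    obtain ⟨w, x, hw, hee, hff, hx, hp, hwf⟩ := c.Rt_key hy hef halt (hcont e heE.1 heE.2 heT)
      (hcont f hfE.1 hfE.2 hfT) hd.2.1.symm
    have hwS : w ∉ S := by
      apply hu w
      rw [hp]; exact c.ctr_Dm hw
    have hwe : w ∈ e := by rw [hee]; simp
    have hwr : w = c.rep v := by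
      have h1 := heT hwe
      rw [hTS, mem_insert] at h1
      rcases h1 with h1 | h1
      · exact h1
      · exact absurd h1 hwS
    rcases hAB with ⟨s, hsR, hsy, hat, -⟩ | ⟨-, ht⟩
    · have hfS : f ⊆ S := hsub f hfT (by rw [← hwr]; exact hwf)
      have hfat' : f ∈ at' c.E S y := by rw [mem_at]; exact ⟨hfE.1, hfE.2, hfS⟩
      rw [hat, mem_singleton] at hfat'
      have hsf : s ∈ f := by rw [hfat']; simp
      rw [hff] at hsf
      simp only [mem_insert, mem_singleton] at hsf
      rcases hsf with h1 | h1 | h1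
      · exact hsy h1
      · exact c.ne_of_R_C hsR (c.ctr_isC hw) h1
      · rcases hx with hx | hx
        · exact c.ne_of_R_C hsR hx h1
        · exact c.ne_of_R_W hsR hx h1
    · unfold t at ht ht2
      have hsub2 : (c.tri y).filter (fun g => g ⊆ S) ⊆ ((c.tri y).filter (fun g => g ⊆ T)).erase e := by
        intro g hg
        rw [mem_filter] at hg
        rw [mem_erase, mem_filter]
        refine ⟨?_, hg.1, hg.2.trans (by rw [hTS]; exact subset_insert _ _)⟩
        rintro rfl
        exact hwS (hg.2 hwe)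
      have h1 := card_le_card hsub2
      have hemem : e ∈ (c.tri y).filter (fun g => g ⊆ T) := mem_filter.2 ⟨he, heT⟩
      rw [card_erase_of_mem hemem, ht, ht2] at h1
      omega

end Ctx
end H70G3

end S_Rt

section S_Ri

/-!
# Row Ri : the states S1

T = insert w S, w = rep v, ias S y v (so S ∈ D, isR y, isC v, dep S y v, dep S v y, w ∉ S by `rep_Dm`, insert w (S.erase y) ∈ D).
T ∈ D: T = S ∪ insert w (S.erase y) (`union_D`).  w ≠ y.  T.erase y = insert w (S.erase y) ∈ D.  So nobody depends on y in T (`erase_D_iff`): self y T: ias T y v' contains dep T v' y: impossible.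
(E) every T-edge g at y contains v: if w ∉ g then g ⊆ S, dep S y v; if w ∈ g: `W_edge`, `ctr_rep`.   So dep T y v.
t y T ≤ 2: some chosen edge avoids v (`tri_R`, first alternative since card = 3), it is not ⊆ T by (E).
First alternative of S1src: at' E S y = {{y,v,s}}, s ∈ R, s ≠ y; e := {y,v,s} is also a T-edge.  ib y T: at' E T y = {{y,v1,v2}} would equal {{y,v,s}}, s ∈ {y,v1,v2}, s ≠ y, s ∈ C: contradiction.
  So self y T = 0.  om y T p ≠ 0: dep T y p, p ∈ e, p ≠ y; p = v gives 0; so only p = s: ldR ≤ 6 (`om_R_le`), and if it is ≠ 0 then dep T y s, dep T y v: at' E T y singleton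
  (`at_unique`), t ≤ 1 (`t_le_card`): 6 + 4 + 2 ≤ 12.  If it is 0: 0 + 8 + 2 ≤ 12.
Second alternative: card (at' E S y) ≥ 2, so card (at' E T y) ≥ 2.  ib impossible.  om y T p ≠ 0: dep T y p and dep T y v, p ≠ v (v ∈ C gives om = 0): `at_unique` singleton, contradiction.  ldR = 0.
-/

open Finset Classical

universe u

namespace H70G3
namespace Ctx
variable {V : Type u} [Fintype V] [DecidableEq V] (c : Ctx V)

theorem ldR_S1img {y : V} {T : Finset V} (hy : isR c.E y) (h3 : (c.tri y).card = 3)
    (h : c.S1img y T) : T ∈ c.D ∧ y ∈ T ∧ c.ldR y T + 4 * c.t y T + 2 ≤ 12 := by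
  obtain ⟨S, v, hsrc, rfl⟩ := h
  obtain ⟨hias, halt⟩ := hsrc
  obtain ⟨hSD, -, hv, hyv, hvy, hdep, hno, hins⟩ := hias
  set w := c.rep v with hw
  have hwW : isW c.E w := c.rep_isW hv
  have hcw : c.ctr w = v := c.ctr_rep hv
  have hwS : w ∉ S := hno w (c.rep_Dm hv)
  have hyS : y ∈ S := hyv.1
  have hyw : y ≠ w := c.ne_of_R_W hy hwW
  have hyne : y ≠ v := c.ne_of_R_C hy hv
  have hT : insert w S = S ∪ insert w (S.erase y) := by
    ext x
    simp only [mem_insert, mem_union, mem_erase]
    tauto
  have hTD : insert w S ∈ c.D := by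
    rw [hT]; exact c.union_D hSD hins
  have hyT : y ∈ insert w S := mem_insert_of_mem hyS
  have hTe : (insert w S).erase y = insert w (S.erase y) := by
    ext x
    simp only [mem_insert, mem_erase]
    constructor
    · rintro ⟨h1, h2 | h2⟩
      · exact Or.inl h2
      · exact Or.inr ⟨h1, h2⟩
    · rintro (h1 | ⟨h1, h2⟩)
      · exact ⟨by rw [h1]; exact hyw.symm, Or.inl h1⟩
      · exact ⟨h1, Or.inr h2⟩
  have hnd : ∀ x, ¬ dep c.E (insert w S) x y := by
    rw [← c.erase_D_iff hTD, hTe]; exact hins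
  -- every T-edge at y contains v
  have hE : ∀ g ∈ c.E, y ∈ g → g ⊆ insert w S → v ∈ g := by
    intro g hg hyg hgT
    by_cases hwg : w ∈ g
    · rw [← hcw]; exact c.W_edge hwW hg hwg
    · apply hyv.2.2 g hg hyg
      intro x hx
      rcases mem_insert.1 (hgT hx) with h1 | h1
      · exact absurd (h1 ▸ hx) hwg
      · exact h1
  have hdv : dep c.E (insert w S) y v := ⟨hyT, hyne, hE⟩
  -- t is at most two
  have ht : c.t y (insert w S) ≤ 2 := by
    rcases c.tri_R y hy with ⟨-, h1⟩ | ⟨h1, -⟩
    · obtain ⟨e, he, hve⟩ := h1 v hyne.symm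
      have hlt : c.t y (insert w S) < (c.tri y).card := by
        unfold t
        apply card_lt_card
        rw [ssubset_iff_of_subset (filter_subset _ _)]
        refine ⟨e, he, ?_⟩
        rw [mem_filter]
        rintro ⟨-, h2⟩
        exact hve (hE e (c.tri_sub y e he).1 (c.tri_sub y e he).2 h2)
      omega
    · omega
  have hom : ∀ p, c.om y (insert w S) p ≠ 0 → p ≠ v ∧ dep c.E (insert w S) y p := by
    intro p hp
    refine ⟨?_, (c.om_dep hp).1⟩
    rintro rfl
    exact hp (c.om_zero (c.C_not_R hv) (c.C_not_W hv))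
  have hself0 : (¬ c.ib (insert w S) y) → c.self y (insert w S) = 0 := by
    intro hib
    unfold self
    rw [if_neg]
    rintro (⟨v', hv'⟩ | h1)
    · exact hnd v' hv'.2.2.2.2.1
    · exact hib h1
  refine ⟨hTD, hyT, ?_⟩
  have hsub : at' c.E S y ⊆ at' c.E (insert w S) y := by
    intro g hg
    rw [mem_at] at hg ⊢
    exact ⟨hg.1, hg.2.1, hg.2.2.trans (subset_insert _ _)⟩
  rcases halt with ⟨s, hs, hsy, hat, htri⟩ | ⟨hcard, -⟩
  · have he : ({y, v, s} : Finset V) ∈ at' c.E (insert w S) y := by
      apply hsub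
      rw [hat]; exact mem_singleton_self _
    have he' := he
    rw [mem_at] at he'
    have hib : ¬ c.ib (insert w S) y := by
      rintro ⟨-, -, v1, v2, h1, h2, h12, hat2⟩
      rw [hat2, mem_singleton] at he
      have hsm : s ∈ ({y, v1, v2} : Finset V) := by
        rw [← he]; simp
      simp only [mem_insert, mem_singleton] at hsm
      rcases hsm with h4 | h4 | h4
      · exact hsy h4
      · exact c.ne_of_R_C hs h1 h4
      · exact c.ne_of_R_C hs h2 h4
    have hs0 := hself0 hib
    have hsum : ∑ p, c.om y (insert w S) p = c.om y (insert w S) s := by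
      apply sum_eq_single_of_mem s (mem_univ _)
      intro p _ hps
      by_contra hne
      obtain ⟨h1, h2⟩ := hom p hne
      have h4 := h2.2.2 _ he'.1 he'.2.1 he'.2.2
      simp only [mem_insert, mem_singleton] at h4
      rcases h4 with h5 | h5 | h5
      · exact h2.2.1 h5.symm
      · exact h1 h5
      · exact hps h5
    have hld : c.ldR y (insert w S) = c.om y (insert w S) s := by
      unfold ldR; rw [hsum, hs0]; rfl
    by_cases h0 : c.om y (insert w S) s = 0
    · rw [hld, h0]; omega
    · obtain ⟨h1, h2⟩ := hom s h0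
      have hun := c.at_unique hTD h2 hdv h1
      have htc := c.t_le_card y (insert w S)
      rw [hun, card_singleton] at htc
      have h6 := c.om_R_le (y := y) (S := insert w S) hs
      rw [hld]; omega
  · have hcT : 2 ≤ (at' c.E (insert w S) y).card := hcard.trans (card_le_card hsub)
    have hib : ¬ c.ib (insert w S) y := by
      rintro ⟨-, -, v1, v2, h1, h2, h12, hat2⟩
      rw [hat2, card_singleton] at hcT
      omega
    have hs0 := hself0 hib
    have hsum : ∑ p, c.om y (insert w S) p = 0 := by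
      apply sum_eq_zero
      intro p _
      by_contra hne
      obtain ⟨h1, h2⟩ := hom p hne
      have hun := c.at_unique hTD h2 hdv h1
      rw [hun, card_singleton] at hcT
      omega
    have hld : c.ldR y (insert w S) = 0 := by
      unfold ldR; rw [hsum, hs0]
    rw [hld]; omega

end Ctx
end H70G3

end S_Ri

section S_Rj

/-!
# Row Rj : the map S ↦ insert (rep v) S on the sources is injective

Σ_{S ∈ D} nS1 = card {S ∈ D : ∃ v, S1src y S v}; map S ↦ insert (rep v(S)) S ∈ {T ∈ D : S1img y T}: in D because S ∈ D and insert (rep v) (S.erase y) ∈ D (ias), `union_D`.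
Use `transfer` or card_le_card_of_injOn.
Injective: S1, v1 and S2, v2 with T = insert (rep v1) S1 = insert (rep v2) S2.  Every T-edge g at y contains v_i: rep v_i ∉ g ⇒ g ⊆ S_i, dep S_i y v_i; rep v_i ∈ g ⇒ `W_edge`, `ctr_rep`.
If v1 ≠ v2: there is an S1-edge e0 at y, e0 = {y,v1,v2} (`edge_eq`), and every S1-edge at y equals it; S1src S1 v1 second alternative (card ≥ 2) impossible; first: {y,v1,s} = {y,v1,v2},
 s ∈ R, s ≠ y: s = v1 or v2 ∈ C: contradiction.  So v1 = v2 = v, rep v ∉ S_i (`rep_Dm`, ias): S1 = T.erase (rep v) = S2.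
-/

open Finset Classical

universe u

namespace H70G3
namespace Ctx
variable {V : Type u} [Fintype V] [DecidableEq V] (c : Ctx V)

lemma Rj_mem {y v : V} {S g : Finset V} (h : c.S1src y S v) (hg : g ∈ c.E) (hy : y ∈ g)
    (hs : g ⊆ insert (c.rep v) S) : v ∈ g := by
  obtain ⟨⟨hS, hyR, hv, hd, -, -, -, -⟩, -⟩ := h
  by_cases hr : c.rep v ∈ g
  · have h1 := c.W_edge (c.rep_isW hv) hg hr
    rwa [c.ctr_rep hv] at h1
  · refine hd.2.2 g hg hy ?_
    intro x hx
    rcases mem_insert.1 (hs hx) with h1 | h1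
    · rw [h1] at hx
      exact absurd hx hr
    · exact h1

lemma Rj_key {y v1 v2 : V} {S1 S2 : Finset V} (h1 : c.S1src y S1 v1) (h2 : c.S1src y S2 v2)
    (hT : insert (c.rep v1) S1 = insert (c.rep v2) S2) : S1 = S2 := by
  have hyR : isR c.E y := h1.1.2.1
  have hC1 : isC c.E v1 := h1.1.2.2.1
  have hC2 : isC c.E v2 := h2.1.2.2.1
  have heq : v1 = v2 := by
    by_contra hne
    have key : ∀ g ∈ at' c.E S1 y, g = {y, v1, v2} := by
      intro g hg
      rw [c.mem_at] at hg
      have a1 : v1 ∈ g := c.Rj_mem h1 hg.1 hg.2.1 (hg.2.2.trans (subset_insert _ _))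
      have a2 : v2 ∈ g := c.Rj_mem h2 hg.1 hg.2.1 (by
        rw [← hT]; exact hg.2.2.trans (subset_insert _ _))
      exact c.edge_eq hg.1 hg.2.1 a1 a2 (c.ne_of_R_C hyR hC1) (c.ne_of_R_C hyR hC2) hne
    rcases h1.2 with ⟨s, hs, hsy, hat, -⟩ | ⟨hcard, -⟩
    · have a1 := key {y, v1, s} (by rw [hat]; exact mem_singleton_self _)
      have a2 : v2 ∈ ({y, v1, s} : Finset V) := by rw [a1]; simp
      simp only [mem_insert, mem_singleton] at a2
      rcases a2 with a2 | a2 | a2
      · exact c.ne_of_R_C hyR hC2 a2.symm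
      · exact hne a2.symm
      · exact c.ne_of_R_C hs hC2 a2.symm
    · have a1 : at' c.E S1 y ⊆ {{y, v1, v2}} := by
        intro g hg
        rw [mem_singleton]
        exact key g hg
      have a2 := card_le_card a1
      rw [card_singleton] at a2
      omega
  subst heq
  have n1 : c.rep v1 ∉ S1 := h1.1.2.2.2.2.2.2.1 _ (c.rep_Dm hC1)
  have n2 : c.rep v1 ∉ S2 := h2.1.2.2.2.2.2.2.1 _ (c.rep_Dm hC1)
  rw [← erase_insert n1, hT, erase_insert n2]

lemma Rj_D {y v : V} {S : Finset V} (h : c.S1src y S v) : insert (c.rep v) S ∈ c.D := by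
  obtain ⟨⟨hS, -, -, -, -, -, -, hI⟩, -⟩ := h
  have h1 : insert (c.rep v) S = S ∪ insert (c.rep v) (S.erase y) := by
    ext x
    simp only [mem_insert, mem_union, mem_erase]
    tauto
  rw [h1]
  exact c.union_D hS hI

theorem sum_nS1_le {y : V} (hy : isR c.E y) :
    ∑ S ∈ c.D, c.nS1 y S ≤ ∑ T ∈ c.D, c.nImg y T := by
  have e1 : ∑ S ∈ c.D, c.nS1 y S = (c.D.filter (fun S => ∃ v, c.S1src y S v)).card := by
    rw [card_filter]
    rfl
  have e2 : ∑ T ∈ c.D, c.nImg y T = (c.D.filter (fun T => c.S1img y T)).card := by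
    rw [card_filter]
    rfl
  rw [e1, e2]
  refine card_le_card_of_injOn
    (fun S => if h : ∃ v, c.S1src y S v then insert (c.rep h.choose) S else S) ?_ ?_
  · intro S hS
    have hS' := (mem_filter.1 hS).2
    have hs := hS'.choose_spec
    simp only [dif_pos hS']
    exact mem_filter.2 ⟨c.Rj_D hs, S, _, hs, rfl⟩
  · intro S hS S' hS' heq
    have a1 := (mem_filter.1 hS).2
    have a2 := (mem_filter.1 hS').2
    simp only [dif_pos a1, dif_pos a2] at heq
    exact c.Rj_key a1.choose_spec a2.choose_spec heq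

end Ctx
end H70G3

end S_Rj

section S_Rp

/-!
# Row Rp : pairs of active edges and the third chosen edge

e W-active: e = {y,w,v}, v = ctr w, isW w, w ∉ X, y ∉ X, at' E (X ∪ e) y = {e}, and (v ∈ X or all (X ∪ e)-edges at v contain w).  y, w, v pairwise different.
Facts: an edge at y (in E) containing w contains v, so equals e (`W_edge`, `edge_eq`).
theorem pair_shape: f ≠ e active (W or O), v ∈ f.  f = {y, v, u} or {y, v} (w ∉ f).  f ⊄ X ∪ e because at' E (X ∪ e) y = {e}; so f = {y,v,u} with u ∉ X, u ∉ e (if f = {y,v} then f ⊆ e).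
  f O-active: f = {y,a,x}, a ∉ X, x ∈ X ∩ R, so {a,x} = {v,u}; x ∈ R so x ≠ v; x = u ∉ X: contradiction.  f W-active: f = {y,w',ctr w'} so {w', ctr w'} = {v,u}, w' ≠ v (v ∈ C), so w' = u, ctr w' = v.
theorem third_edge: g ∈ tri y different from e, f, g ⊆ X ∪ e ∪ f.  g ⊄ X ∪ e and g ⊄ X ∪ f (at' E (X ∪ f) y = {f}).  So there are α ∈ g, α ∈ e, α ∉ X ∪ f and β ∈ g, β ∈ f, β ∉ X ∪ e.
  α ≠ y (y ∈ f), α ≠ w (otherwise g = e), so α = v, v ∉ X, v ∉ f.  β ≠ y, β ≠ v.  So g = {y,v,β} (`edge_eq`).
  f O-active, f = {y,a,x}, x ∈ X: β = a (β ∉ X, β ≠ y).  Then g is not O-active (it would contain a vertex of X, which is in {y,v,a}: none in X) and not W-active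
   (it would be {y,w'',ctr w''} with w'' ∈ {v, a}: v ∈ C, ¬ isW a).
  f W-active, f = {y,w',v'}: β = w': then g contains w', so g = f, contradiction; so β = v' ∉ X; g = {y,v,v'}, v ≠ v' since v' = β ∉ e.
-/

open Finset Classical

universe u

namespace H70G3
namespace Ctx
variable {V : Type u} [Fintype V] [DecidableEq V] (c : Ctx V)

theorem WA_edge {y w : V} {X g : Finset V} (hy : isR c.E y) (hw : isW c.E w) (hg : g ∈ c.E)
    (hyg : y ∈ g) (hwg : w ∈ g) : g = {y, w, c.ctr w} := by
  exact c.edge_eq hg hyg hwg (c.W_edge hw hg hwg) (c.ne_of_R_W hy hw)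
    (c.ne_of_R_C hy (c.ctr_isC hw)) (c.ne_of_W_C hw (c.ctr_isC hw))

theorem Rp_act {y : V} {X f : Finset V} (hf : c.WA y X f ∨ c.OA y X f) :
    f ∈ c.tri y ∧ at' c.E (X ∪ f) y = {f} := by
  rcases hf with hf | hf
  · exact ⟨hf.2.1, hf.2.2.1⟩
  · exact ⟨hf.2.1, hf.2.2.1⟩

theorem Rp_nsub {y : V} {X e g : Finset V} (hat : at' c.E (X ∪ e) y = {e}) (hg : g ∈ c.tri y)
    (hge : g ≠ e) : ¬ g ⊆ X ∪ e := by
  intro hsub
  have h1 : g ∈ at' c.E (X ∪ e) y := by
    rw [c.mem_at]
    exact ⟨(c.tri_sub y g hg).1, (c.tri_sub y g hg).2, hsub⟩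
  rw [hat, mem_singleton] at h1
  exact hge h1

theorem pair_shape {y w : V} {X f : Finset V} (hy : isR c.E y) (hw : isW c.E w)
    (he : c.WA y X {y, w, c.ctr w}) (hf : c.WA y X f ∨ c.OA y X f) (hne : f ≠ {y, w, c.ctr w})
    (hv : c.ctr w ∈ f) : ∃ w', isW c.E w' ∧ c.ctr w' = c.ctr w ∧ f = {y, c.ctr w, w'} := by
  have hyv : y ≠ c.ctr w := c.ne_of_R_C hy (c.ctr_isC hw)
  have hfE := c.Rp_act hf
  have hns := c.Rp_nsub he.2.2.1 hfE.1 hne
  rcases hf with hf | hf
  · obtain ⟨-, -, -, w', hw', -, hfe, -⟩ := hf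
    have h1 : c.ctr w = c.ctr w' := by
      rw [hfe] at hv
      simp only [mem_insert, mem_singleton] at hv
      rcases hv with h | h | h
      · exact absurd h.symm hyv
      · exact absurd (h ▸ c.ctr_isC hw) (c.W_not_C hw')
      · exact h
    refine ⟨w', hw', h1.symm, ?_⟩
    rw [hfe, ← h1]
    ext z
    simp only [mem_insert, mem_singleton]
    tauto
  · obtain ⟨-, -, -, a, x, haX, hay, haW, hxX, hxR, hfe⟩ := hf
    exfalso
    rw [hfe] at hv
    simp only [mem_insert, mem_singleton] at hv
    rcases hv with h | h | h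
    · exact hyv h.symm
    · apply hns
      rw [hfe]
      intro z hz
      simp only [mem_insert, mem_singleton] at hz
      simp only [mem_union, mem_insert, mem_singleton]
      rcases hz with rfl | rfl | rfl
      · exact Or.inr (Or.inl rfl)
      · exact Or.inr (Or.inr (Or.inr h.symm))
      · exact Or.inl hxX
    · exact c.C_not_R (h ▸ c.ctr_isC hw) hxR

theorem third_edge {y w : V} {X f g : Finset V} (hy : isR c.E y) (hw : isW c.E w) (hwX : w ∉ X)
    (he : c.WA y X {y, w, c.ctr w}) (hf : c.WA y X f ∨ c.OA y X f) (hne : f ≠ {y, w, c.ctr w})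
    (hg : g ∈ c.tri y) (hge : g ≠ {y, w, c.ctr w}) (hgf : g ≠ f)
    (hsub : g ⊆ X ∪ {y, w, c.ctr w} ∪ f) :
    (∃ w', isW c.E w' ∧ c.WA y X f ∧ f = {y, w', c.ctr w'} ∧ g = {y, c.ctr w, c.ctr w'} ∧
      c.ctr w ≠ c.ctr w' ∧ c.ctr w ∉ X ∧ c.ctr w' ∉ X) ∨
    (¬ c.WA y X f ∧ ¬ c.WA y X g ∧ ¬ c.OA y X g) := by
  have hyv : y ≠ c.ctr w := c.ne_of_R_C hy (c.ctr_isC hw)
  have hfE := c.Rp_act hf
  have hyX : y ∉ X := he.1.2.1
  have hgE := (c.tri_sub y g hg).1
  have hyg := (c.tri_sub y g hg).2
  have hyf := (c.tri_sub y f hfE.1).2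
  obtain ⟨β, hβg, hβ⟩ := not_subset.1 (c.Rp_nsub he.2.2.1 hg hge)
  obtain ⟨α, hαg, hα⟩ := not_subset.1 (c.Rp_nsub hfE.2 hg hgf)
  have hβs := hsub hβg
  have hαs := hsub hαg
  simp only [mem_union, mem_insert, mem_singleton, not_or] at hβ hα hβs hαs
  obtain ⟨hβX, hβy, hβw, hβv⟩ := hβ
  obtain ⟨hαX, hαf⟩ := hα
  have hβf : β ∈ f := by
    rcases hβs with (h | h | h | h) | h
    · exact absurd h hβX
    · exact absurd h hβy
    · exact absurd h hβw
    · exact absurd h hβv
    · exact h
  have hαv : α = c.ctr w := by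
    rcases hαs with (h | h | h | h) | h
    · exact absurd h hαX
    · exact absurd (h ▸ hyf) hαf
    · exact absurd (c.WA_edge (X := X) hy hw hgE hyg (h ▸ hαg)) hge
    · exact h
    · exact absurd h hαf
  rw [hαv] at hαg hαX hαf
  have hgeq : g = {y, c.ctr w, β} :=
    c.edge_eq hgE hyg hαg hβg hyv (fun h => hβy h.symm) (fun h => hβv h.symm)
  by_cases hWf : c.WA y X f
  · left
    obtain ⟨-, -, -, w', hw', -, hfe, -⟩ := id hWf
    have hβ' : β = c.ctr w' := by
      rw [hfe] at hβf
      simp only [mem_insert, mem_singleton] at hβf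
      rcases hβf with h | h | h
      · exact absurd h hβy
      · exfalso
        apply hgf
        rw [hfe]
        exact c.WA_edge (X := X) hy hw' hgE hyg (h ▸ hβg)
      · exact h
    rw [hβ'] at hgeq hβX hβv
    exact ⟨w', hw', hWf, hfe, hgeq, fun h => hβv h.symm, hαX, hβX⟩
  · right
    have hOf : c.OA y X f := hf.resolve_left hWf
    obtain ⟨-, -, -, a, x, haX, hay, haW, hxX, hxR, hfe⟩ := hOf
    have hβa : β = a := by
      rw [hfe] at hβf
      simp only [mem_insert, mem_singleton] at hβf
      rcases hβf with h | h | h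
      · exact absurd h hβy
      · exact h
      · exact absurd (h ▸ hxX) hβX
    refine ⟨hWf, ?_, ?_⟩
    · rintro ⟨-, -, -, w'', hw'', -, hge', -⟩
      have h1 : w'' ∈ g := by
        rw [hge']
        simp
      rw [hgeq] at h1
      simp only [mem_insert, mem_singleton] at h1
      rcases h1 with h | h | h
      · exact c.ne_of_R_W hy hw'' h.symm
      · exact c.C_not_W (c.ctr_isC hw) (h ▸ hw'')
      · exact haW (hβa ▸ h ▸ hw'')
    · rintro ⟨-, -, -, a', x', -, -, -, hxX', -, hge'⟩
      have h1 : x' ∈ g := by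
        rw [hge']
        simp
      rw [hgeq] at h1
      simp only [mem_insert, mem_singleton] at h1
      rcases h1 with h | h | h
      · exact hyX (h ▸ hxX')
      · exact hαX (h ▸ hxX')
      · exact hβX (h ▸ hxX')

end Ctx
end H70G3

end S_Rp

section S_Rd

/-!
# Row Rd : the double vertex

(1) dX ≤ 1: DA y X p, DA y X p', p ≠ p'. Chosen edges e ≠ f containing p inside insert y (insert p X); e', f' containing p' inside insert y (insert p' X).  e does not contain p' (p' ∉ X, p' ≠ p,
 p' ≠ y), so e, f ∉ {e', f'}: four different chosen edges, but card (tri y) = 3.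
(2) If DA y X p with e, f: e and f are not O-active: OA y X e has at' E (X ∪ e) y = {e}, but f ⊆ insert y (insert p X) ⊆ X ∪ e (y, p ∈ e), f ∈ at' E (X ∪ e) y, f ≠ e.  The same argument shows that
 they are not W-active.  So only the third chosen edge can be active, and it is not both O- and W-active (OA gives e = {y,a,x} with ¬ isW a, x ∈ R; WA gives a vertex w ∈ W in e, w ≠ y since y ∈ R...
 precisely: e = {y,a,x} = {y,w,ctr w}, w ∈ {y,a,x}, each not in W).  So oX + aX ≤ 1.
(3) oX + aX ≤ 3: O- and W-active edges are different, both in tri y (card 3).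
-/

open Finset Classical

universe u

namespace H70G3
namespace Ctx
variable {V : Type u} [Fintype V] [DecidableEq V] (c : Ctx V)

theorem OA_not_WA {y : V} {X e : Finset V} (hy : isR c.E y) (h : c.OA y X e) : ¬ c.WA y X e := by
  rintro ⟨_, _, _, w, hw, _, he, _⟩
  obtain ⟨_, _, _, a, x, _, _, haW, _, hxR, he'⟩ := h
  have h1 : w ∈ e := by rw [he]; simp
  rw [he'] at h1
  simp only [mem_insert, mem_singleton] at h1
  rcases h1 with rfl | rfl | rfl
  · exact c.W_not_R hw hy
  · exact haW hw
  · exact c.W_not_R hw hxR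

theorem dX_le_one {y : V} {X : Finset V} (h3 : (c.tri y).card = 3) : c.dX y X ≤ 1 := by
  unfold dX
  rw [Finset.card_le_one]
  intro p hp p' hp'
  rw [mem_filter] at hp hp'
  obtain ⟨_, _, _, hpX, hpy, e, he, f, hf, hef, hpe, hpf, heX, hfX⟩ := hp
  obtain ⟨_, _, _, hpX', hpy', e', he', f', hf', hef', hpe', hpf', heX', hfX'⟩ := hp'
  by_contra hne
  have key : ∀ g : Finset V, g ⊆ insert y (insert p' X) → p ∉ g := by
    intro g hg hpg
    have h1 := hg hpg
    simp only [mem_insert] at h1
    rcases h1 with h1 | h1 | h1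
    · exact hpy h1
    · exact hne h1
    · exact hpX h1
  have h1 : e ≠ e' := by rintro rfl; exact key e heX' hpe
  have h2 : e ≠ f' := by rintro rfl; exact key e hfX' hpe
  have h4 : f ≠ e' := by rintro rfl; exact key f heX' hpf
  have h5 : f ≠ f' := by rintro rfl; exact key f hfX' hpf
  have h6 : ({e, f, e', f'} : Finset (Finset V)).card = 4 := by
    rw [card_insert_of_notMem, card_insert_of_notMem, card_insert_of_notMem, card_singleton]
    · simpa using hef'
    · simp only [mem_insert, mem_singleton, not_or]; exact ⟨h4, h5⟩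
    · simp only [mem_insert, mem_singleton, not_or]; exact ⟨hef, h1, h2⟩
  have h7 : ({e, f, e', f'} : Finset (Finset V)) ⊆ c.tri y := by
    intro g hg
    simp only [mem_insert, mem_singleton] at hg
    rcases hg with rfl | rfl | rfl | rfl
    · exact he
    · exact hf
    · exact he'
    · exact hf'
  have h8 := card_le_card h7
  omega

private lemma Rd_disj {y : V} {X : Finset V} (hy : isR c.E y) :
    c.oX y X + c.aX y X = ((c.tri y).filter (fun e => c.OA y X e) ∪
      (c.tri y).filter (fun e => c.WA y X e)).card := by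
  unfold oX aX
  rw [card_union_of_disjoint]
  rw [Finset.disjoint_left]
  intro e he he'
  rw [mem_filter] at he he'
  exact c.OA_not_WA hy he.2 he'.2

private lemma Rd_at {y : V} {X e f : Finset V} {p : V} (he : e ∈ c.tri y) (hf : f ∈ c.tri y)
    (hpe : p ∈ e) (hfX : f ⊆ insert y (insert p X)) (h : at' c.E (X ∪ e) y = {e}) : f = e := by
  have h1 : f ∈ at' c.E (X ∪ e) y := by
    rw [mem_at]
    refine ⟨(c.tri_sub y f hf).1, (c.tri_sub y f hf).2, ?_⟩
    intro z hz
    have h2 := hfX hz
    simp only [mem_insert] at h2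
    rw [mem_union]
    rcases h2 with h2 | h2 | h2
    · right; rw [h2]; exact (c.tri_sub y e he).2
    · right; rw [h2]; exact hpe
    · left; exact h2
  rw [h, mem_singleton] at h1
  exact h1

theorem oX_add_aX_le_of_dX {y : V} {X : Finset V} (hy : isR c.E y) (h3 : (c.tri y).card = 3)
    (h : c.dX y X ≠ 0) : c.oX y X + c.aX y X ≤ 1 := by
  unfold dX at h
  rw [Finset.card_ne_zero] at h
  obtain ⟨p, hp⟩ := h
  rw [mem_filter] at hp
  obtain ⟨_, _, _, hpX, hpy, e, he, f, hf, hef, hpe, hpf, heX, hfX⟩ := hp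
  rw [c.Rd_disj hy]
  have hsub : (c.tri y).filter (fun e => c.OA y X e) ∪ (c.tri y).filter (fun e => c.WA y X e) ⊆
      ((c.tri y).erase e).erase f := by
    intro k hk
    have h1 : k ∈ c.tri y ∧ at' c.E (X ∪ k) y = {k} := by
      rw [mem_union, mem_filter, mem_filter] at hk
      rcases hk with hk | hk
      · exact ⟨hk.1, hk.2.2.2.1⟩
      · exact ⟨hk.1, hk.2.2.2.1⟩
    rw [mem_erase, mem_erase]
    refine ⟨?_, ?_, h1.1⟩
    · rintro rfl
      exact hef (c.Rd_at hf he hpf heX h1.2)
    · rintro rfl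
      exact hef (c.Rd_at he hf hpe hfX h1.2).symm
  have h2 := card_le_card hsub
  rw [card_erase_of_mem (by rw [mem_erase]; exact ⟨hef.symm, hf⟩), card_erase_of_mem he, h3] at h2
  exact h2

theorem oX_add_aX_le {y : V} {X : Finset V} (hy : isR c.E y) (h3 : (c.tri y).card = 3) :
    c.oX y X + c.aX y X ≤ 3 := by
  rw [c.Rd_disj hy, ← h3]
  apply card_le_card
  intro k hk
  rw [mem_union, mem_filter, mem_filter] at hk
  rcases hk with hk | hk
  · exact hk.1
  · exact hk.1

end Ctx
end H70G3

end S_Rd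

section S_Rx

/-!
# Row Rx : the cluster inequality

a = aX, o = oX, d = dX (Row Rd): d ≤ 1; d ≠ 0 ⇒ a + o ≤ 1; a + o ≤ 3.  If isU y X fails all of them are 0 (OA, WA, DA contain isU).  Assume isU y X: right side 6 + 2 uX.
d = 1: 2 o + 2 + 4 a ≤ 2 + 4 = 6.   d = 0: 2 o + 4 a ≤ 6 unless a ≥ 2 or (a = 1 and o = 2).  (a+o ≤ 3)
 needed: (a,o) = (1,2): 8 ≤ 6 + 2 uX: uX ≥ 1.  (2,0): uX ≥ 1.  (2,1): 10: uX ≥ 2.  (3,0): 12: uX ≥ 3.
Write the three chosen edges e1,e2,e3.  For active e ≠ f with e W-active put T(e,f) = X ∪ e ∪ f. T ∈ D (X ∈ D, `edge_D`, `union_D`), e, f ⊆ T.  If the third chosen edge g is not ⊆ T then t y T = 2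
 and Use y X T (first alternative), T ∈ D, and the chosen edges inside T are exactly e, f, so different pairs give different T.
 If g ⊆ T: `third_edge` (w from WA y X e): either (path) f is W-active and g = {y,ctr w,ctr w'}, or f is not W-active and g is not active at all.
(1,2): e W-active, f, g O-active: g ⊆ T(e,f) is impossible (path: f W-active contradicts OA_not_WA; second: g not active). So uX ≥ 1.
(3,0): e, f, g all W-active: g ⊆ T(e,f): path: g = {y,ctr w,ctr w'}: but g is W-active, so contains a vertex of W, which is y or a centre: contradiction (`W_not_C`, `W_not_R`); second: f not W-active: no.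
   So all three T(e,f), T(e,g), T(f,g) are used and different: uX ≥ 3.
(2,1): e, f W-active, g O-active.  T(e,f): g ⊆ T: path gives g = {y, centre, centre}, but OA g contains x ∈ R, x ∈ X, x ≠ y (y ∉ X): contradiction.  So used.  T(e,g): third edge f ⊆ T(e,g): `third_edge` with f := g, g := f:
   path: g W-active: no; second: f not W-active: no.  So used, different from T(e,f): uX ≥ 2.
(2,0): e, f W-active, g the third. If g ⊄ T(e,f): used. If g ⊆ T(e,f): path: e = {y,w,v}, f = {y,w',v'}, g = {y,v,v'}, v ≠ v', v, v' ∉ X.  T' := X ∪ e ∪ g ∈ D; f ⊄ T': w' ∈ f, w' ∉ X (from WA y X f: its W-vertex is the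
   only W-vertex w' of f), w' ∉ e (w' = w would give v = v'; w' ≠ y, v), w' ∉ g.  So t y T' = 2 and Use y X T' (second alternative).  uX ≥ 1.
-/

open Finset Classical

universe u

namespace H70G3
namespace Ctx
variable {V : Type u} [Fintype V] [DecidableEq V] (c : Ctx V)

private theorem Rx_t {y : V} (h3 : (c.tri y).card = 3) {e f g T : Finset V} (he : e ∈ c.tri y)
    (hf : f ∈ c.tri y) (hg : g ∈ c.tri y) (hef : e ≠ f) (heg : e ≠ g) (hfg : f ≠ g)
    (h1 : e ⊆ T) (h2 : f ⊆ T) (h4 : ¬ g ⊆ T) : c.t y T = 2 := by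
  have htri : ({e, f, g} : Finset (Finset V)) = c.tri y := by
    apply eq_of_subset_of_card_le
    · intro a ha
      simp only [mem_insert, mem_singleton] at ha
      rcases ha with rfl | rfl | rfl <;> assumption
    · rw [h3]
      exact (card_eq_three.2 ⟨e, f, g, hef, heg, hfg, rfl⟩).ge
  have h5 : (c.tri y).filter (fun a => a ⊆ T) = {e, f} := by
    ext a
    rw [mem_filter, ← htri]
    simp only [mem_insert, mem_singleton]
    constructor
    · rintro ⟨rfl | rfl | rfl, h⟩
      · exact Or.inl rfl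
      · exact Or.inr rfl
      · exact absurd h h4
    · rintro (rfl | rfl)
      · exact ⟨Or.inl rfl, h1⟩
      · exact ⟨Or.inr (Or.inl rfl), h2⟩
  unfold t
  rw [h5, card_pair hef]

private theorem Rx_D {y : V} {X e f : Finset V} (hX : X ∈ c.D) (he : e ∈ c.tri y)
    (hf : f ∈ c.tri y) : X ∪ e ∪ f ∈ c.D :=
  c.union_D (c.union_D hX (c.edge_D (c.tri_sub y e he).1)) (c.edge_D (c.tri_sub y f hf).1)

private theorem Rx_actm {y : V} {X f : Finset V} (hf : c.WA y X f ∨ c.OA y X f) :
    f ∈ c.tri y := by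
  rcases hf with hf | hf
  · exact hf.2.1
  · exact hf.2.1

private theorem Rx_first {y : V} {X e f g : Finset V} (h3 : (c.tri y).card = 3)
    (he : c.WA y X e) (hf : c.WA y X f ∨ c.OA y X f) (hg : g ∈ c.tri y) (hef : e ≠ f)
    (heg : e ≠ g) (hfg : f ≠ g) (h : ¬ g ⊆ X ∪ e ∪ f) :
    X ∪ e ∪ f ∈ c.D.filter (fun T => c.Use y X T) := by
  have he' : e ∈ c.tri y := he.2.1
  have hf' : f ∈ c.tri y := c.Rx_actm hf
  rw [mem_filter]
  refine ⟨c.Rx_D he.1.1 he' hf', ?_, Or.inl ⟨e, f, hef, he, hf, rfl⟩⟩
  exact c.Rx_t h3 he' hf' hg hef heg hfg (subset_union_right.trans subset_union_left)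
    subset_union_right h

/-- the third chosen edge is contained in the union only for a path of two W-active edges -/
private theorem Rx_third {y : V} {X e f g : Finset V} (hy : isR c.E y)
    (he : c.WA y X e) (hf : c.WA y X f ∨ c.OA y X f) (hg : g ∈ c.tri y) (hef : e ≠ f)
    (heg : e ≠ g) (hfg : f ≠ g) (h : g ⊆ X ∪ e ∪ f) :
    (∃ w w', isW c.E w ∧ isW c.E w' ∧ c.WA y X f ∧ e = {y, w, c.ctr w} ∧
      f = {y, w', c.ctr w'} ∧ g = {y, c.ctr w, c.ctr w'} ∧ c.ctr w ≠ c.ctr w' ∧ c.ctr w ∉ X ∧
      c.ctr w' ∉ X) ∨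
    (¬ c.WA y X f ∧ ¬ c.WA y X g ∧ ¬ c.OA y X g) := by
  obtain ⟨w, hw, hwX, hew, -⟩ := he.2.2.2
  rw [hew] at he hef heg h
  rcases c.third_edge hy hw hwX he hf (fun h' => hef h'.symm) hg (fun h' => heg h'.symm)
    (fun h' => hfg h'.symm) h with ⟨w', h1, h2, h4, h5, h6, h7, h8⟩ | h1
  · exact Or.inl ⟨w, w', hw, h1, h2, hew, h4, h5, h6, h7, h8⟩
  · exact Or.inr h1

private theorem Rx_noW {y w w' : V} {X : Finset V} (hy : isR c.E y) (hw : isW c.E w)
    (hw' : isW c.E w') (h : c.WA y X {y, c.ctr w, c.ctr w'}) : False := by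
  obtain ⟨x, hx, -, hex, -⟩ := h.2.2.2
  have h1 : x ∈ ({y, c.ctr w, c.ctr w'} : Finset V) := by
    rw [hex]
    simp
  simp only [mem_insert, mem_singleton] at h1
  rcases h1 with rfl | rfl | rfl
  · exact c.W_not_R hx hy
  · exact c.W_not_C hx (c.ctr_isC hw)
  · exact c.W_not_C hx (c.ctr_isC hw')

private theorem Rx_noO {y w w' : V} {X : Finset V} (hw : isW c.E w)
    (hw' : isW c.E w') (h : c.OA y X {y, c.ctr w, c.ctr w'}) : False := by
  obtain ⟨a, x, -, -, -, hxX, hxR, hex⟩ := h.2.2.2
  have h1 : x ∈ ({y, c.ctr w, c.ctr w'} : Finset V) := by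
    rw [hex]
    simp
  simp only [mem_insert, mem_singleton] at h1
  rcases h1 with rfl | rfl | rfl
  · exact h.1.2.1 hxX
  · exact c.C_not_R (c.ctr_isC hw) hxR
  · exact c.C_not_R (c.ctr_isC hw') hxR

private theorem Rx_two {y : V} {X e f g : Finset V} (hy : isR c.E y) (h3 : (c.tri y).card = 3)
    (he : c.WA y X e) (hf : c.WA y X f) (hg : g ∈ c.tri y) (hef : e ≠ f)
    (heg : e ≠ g) (hfg : f ≠ g) : ∃ T, T ∈ c.D.filter (fun T => c.Use y X T) := by
  by_cases h : g ⊆ X ∪ e ∪ f
  · rcases c.Rx_third hy he (Or.inl hf) hg hef heg hfg h with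
      ⟨w, w', hw, hw', -, hew, hfw, hgw, hne, hX, hX'⟩ | h1
    · refine ⟨X ∪ e ∪ g, ?_⟩
      rw [mem_filter]
      refine ⟨c.Rx_D he.1.1 he.2.1 hg, ?_, Or.inr ⟨w, w', hw, hw', ?_, ?_, hne, hX, hX', ?_, ?_⟩⟩
      · refine c.Rx_t h3 he.2.1 hg hf.2.1 heg hef (fun h' => hfg h'.symm)
          (subset_union_right.trans subset_union_left) subset_union_right ?_
        intro hsub
        have h1 : w' ∈ f := by
          rw [hfw]
          simp
        have h2 := hsub h1
        rw [mem_union, mem_union] at h2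
        rcases h2 with (h2 | h2) | h2
        · obtain ⟨x, hx, hxX, hfx, -⟩ := hf.2.2.2
          rw [hfx] at h1
          simp only [mem_insert, mem_singleton] at h1
          rcases h1 with rfl | rfl | rfl
          · exact c.W_not_R hw' hy
          · exact hxX h2
          · exact c.W_not_C hw' (c.ctr_isC hx)
        · rw [hew] at h2
          simp only [mem_insert, mem_singleton] at h2
          rcases h2 with rfl | rfl | rfl
          · exact c.W_not_R hw' hy
          · exact hne rfl
          · exact c.W_not_C hw' (c.ctr_isC hw)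
        · rw [hgw] at h2
          simp only [mem_insert, mem_singleton] at h2
          rcases h2 with rfl | h2 | h2
          · exact c.W_not_R hw' hy
          · exact c.W_not_C hw' (h2 ▸ c.ctr_isC hw)
          · exact c.W_not_C hw' (by rw [h2]; exact c.ctr_isC hw')
      · rw [← hew]
        exact he
      · rw [← hfw]
        exact hf
      · rw [← hgw]
        exact hg
      · rw [← hew, ← hgw]
    · exact absurd hf h1.1
  · exact ⟨_, c.Rx_first h3 he (Or.inl hf) hg hef heg hfg h⟩

theorem cluster_le {y : V} {X : Finset V} (hy : isR c.E y) (h3 : (c.tri y).card = 3) :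
    2 * c.oX y X + 2 * c.dX y X + 4 * c.aX y X ≤ (if c.isU y X then 6 else 0) + 2 * c.uX y X := by
  have hd := c.dX_le_one (X := X) h3
  have hoa := c.oX_add_aX_le (X := X) hy h3
  by_cases hU : c.isU y X
  · rw [if_pos hU]
    by_cases hd0 : c.dX y X = 0
    · have ho : c.oX y X = ((c.tri y).filter (fun e => c.OA y X e)).card := rfl
      have ha : c.aX y X = ((c.tri y).filter (fun e => c.WA y X e)).card := rfl
      have hu : c.uX y X = (c.D.filter (fun T => c.Use y X T)).card := rfl
      -- at least two W-active edges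
      have k2 : 2 ≤ c.aX y X → 1 ≤ c.uX y X := by
        intro h
        rw [ha] at h
        obtain ⟨e, he, f, hf, hef⟩ := one_lt_card.1 (show 1 < _ from h)
        rw [mem_filter] at he hf
        have h5 : ({e, f} : Finset (Finset V)).card < (c.tri y).card := by
          rw [h3, card_pair hef]
          omega
        obtain ⟨g, hg, hgn⟩ := exists_mem_notMem_of_card_lt_card h5
        simp only [mem_insert, mem_singleton, not_or] at hgn
        obtain ⟨T, hT⟩ := c.Rx_two hy h3 he.2 hf.2 hg hef (fun h' => hgn.1 h'.symm)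
          (fun h' => hgn.2 h'.symm)
        rw [hu]
        exact card_pos.2 ⟨T, hT⟩
      -- one W-active edge, two O-active edges
      have k12 : c.aX y X = 1 → c.oX y X = 2 → 1 ≤ c.uX y X := by
        intro h1 h2
        rw [ha] at h1
        rw [ho] at h2
        obtain ⟨e, he⟩ := card_eq_one.1 h1
        obtain ⟨f, g, hfg, hf⟩ := card_eq_two.1 h2
        have he1 : e ∈ (c.tri y).filter (fun e => c.WA y X e) := by
          rw [he]
          exact mem_singleton_self e
        have hf1 : f ∈ (c.tri y).filter (fun e => c.OA y X e) := by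
          rw [hf]
          simp
        have hg1 : g ∈ (c.tri y).filter (fun e => c.OA y X e) := by
          rw [hf]
          simp
        rw [mem_filter] at he1 hf1 hg1
        have hef : e ≠ f := by
          rintro rfl
          exact c.OA_not_WA hy hf1.2 he1.2
        have heg : e ≠ g := by
          rintro rfl
          exact c.OA_not_WA hy hg1.2 he1.2
        rw [hu]
        refine card_pos.2 ⟨_, c.Rx_first h3 he1.2 (Or.inr hf1.2) hg1.1 hef heg hfg ?_⟩
        intro h
        rcases c.Rx_third hy he1.2 (Or.inr hf1.2) hg1.1 hef heg hfg h with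
          ⟨w, w', -, -, h5, -⟩ | h5
        · exact c.OA_not_WA hy hf1.2 h5
        · exact h5.2.2 hg1.2
      -- two W-active edges, one O-active edge
      have k21 : c.aX y X = 2 → c.oX y X = 1 → 2 ≤ c.uX y X := by
        intro h1 h2
        rw [ha] at h1
        rw [ho] at h2
        obtain ⟨g, hg⟩ := card_eq_one.1 h2
        obtain ⟨e, f, hef, hf⟩ := card_eq_two.1 h1
        have hg1 : g ∈ (c.tri y).filter (fun e => c.OA y X e) := by
          rw [hg]
          exact mem_singleton_self g
        have he1 : e ∈ (c.tri y).filter (fun e => c.WA y X e) := by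
          rw [hf]
          simp
        have hf1 : f ∈ (c.tri y).filter (fun e => c.WA y X e) := by
          rw [hf]
          simp
        rw [mem_filter] at he1 hf1 hg1
        have heg : e ≠ g := by
          rintro rfl
          exact c.OA_not_WA hy hg1.2 he1.2
        have hfg : f ≠ g := by
          rintro rfl
          exact c.OA_not_WA hy hg1.2 hf1.2
        have n1 : ¬ g ⊆ X ∪ e ∪ f := by
          intro h
          rcases c.Rx_third hy he1.2 (Or.inl hf1.2) hg1.1 hef heg hfg h with
            ⟨w, w', hw, hw', -, -, -, h5, -⟩ | h5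
          · rw [h5] at hg1
            exact c.Rx_noO hw hw' hg1.2
          · exact h5.1 hf1.2
        have n2 : ¬ f ⊆ X ∪ e ∪ g := by
          intro h
          rcases c.Rx_third hy he1.2 (Or.inr hg1.2) hf1.1 heg hef (fun h' => hfg h'.symm) h with
            ⟨w, w', -, -, h5, -⟩ | h5
          · exact c.OA_not_WA hy hg1.2 h5
          · exact h5.2.1 hf1.2
        have u1 := c.Rx_first h3 he1.2 (Or.inl hf1.2) hg1.1 hef heg hfg n1
        have u2 := c.Rx_first h3 he1.2 (Or.inr hg1.2) hf1.1 heg hef (fun h' => hfg h'.symm) n2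
        rw [hu]
        refine one_lt_card.2 ⟨_, u1, _, u2, ?_⟩
        intro h
        apply n1
        rw [h]
        exact subset_union_right
      -- three W-active edges
      have k3 : c.aX y X = 3 → 3 ≤ c.uX y X := by
        intro h1
        rw [ha] at h1
        obtain ⟨e, f, g, hef, heg, hfg, hA⟩ := card_eq_three.1 h1
        have he1 : e ∈ (c.tri y).filter (fun e => c.WA y X e) := by
          rw [hA]
          simp
        have hf1 : f ∈ (c.tri y).filter (fun e => c.WA y X e) := by
          rw [hA]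
          simp
        have hg1 : g ∈ (c.tri y).filter (fun e => c.WA y X e) := by
          rw [hA]
          simp
        rw [mem_filter] at he1 hf1 hg1
        have key : ∀ e f g : Finset V, c.WA y X e → c.WA y X f → c.WA y X g → e ≠ f → e ≠ g →
            f ≠ g → ¬ g ⊆ X ∪ e ∪ f := by
          intro e f g he hf hg hef heg hfg h
          rcases c.Rx_third hy he (Or.inl hf) hg.2.1 hef heg hfg h with
            ⟨w, w', hw, hw', -, -, -, h5, -⟩ | h5
          · rw [h5] at hg
            exact c.Rx_noW hy hw hw' hg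
          · exact h5.1 hf
        have n1 := key e f g he1.2 hf1.2 hg1.2 hef heg hfg
        have n2 := key e g f he1.2 hg1.2 hf1.2 heg hef (fun h' => hfg h'.symm)
        have n3 := key f g e hf1.2 hg1.2 he1.2 hfg (fun h' => hef h'.symm) (fun h' => heg h'.symm)
        have u1 := c.Rx_first h3 he1.2 (Or.inl hf1.2) hg1.1 hef heg hfg n1
        have u2 := c.Rx_first h3 he1.2 (Or.inl hg1.2) hf1.1 heg hef (fun h' => hfg h'.symm) n2
        have u3 := c.Rx_first h3 hf1.2 (Or.inl hg1.2) he1.1 hfg (fun h' => hef h'.symm)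
          (fun h' => heg h'.symm) n3
        rw [hu]
        have hsub : ({X ∪ e ∪ f, X ∪ e ∪ g, X ∪ f ∪ g} : Finset (Finset V)) ⊆
            c.D.filter (fun T => c.Use y X T) := by
          intro T hT
          simp only [mem_insert, mem_singleton] at hT
          rcases hT with rfl | rfl | rfl
          · exact u1
          · exact u2
          · exact u3
        refine le_trans (le_of_eq ?_) (card_le_card hsub)
        symm
        refine card_eq_three.2 ⟨_, _, _, ?_, ?_, ?_, rfl⟩
        · intro h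
          apply n1
          rw [h]
          exact subset_union_right
        · intro h
          apply n1
          rw [h]
          exact subset_union_right
        · intro h
          apply n3
          rw [← h]
          exact subset_union_right.trans subset_union_left
      by_cases a2 : 2 ≤ c.aX y X
      · have q := k2 a2
        by_cases a3 : c.aX y X = 3
        · have := k3 a3
          omega
        · have a2' : c.aX y X = 2 := by omega
          by_cases o1 : c.oX y X = 1
          · have := k21 a2' o1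
            omega
          · omega
      · by_cases a1 : c.aX y X = 1
        · by_cases o2 : c.oX y X = 2
          · have := k12 a1 o2
            omega
          · omega
        · omega
    · have h1 := c.oX_add_aX_le_of_dX hy h3 hd0
      omega
  · rw [if_neg hU]
    have h1 : c.oX y X = 0 := by
      unfold oX
      rw [card_eq_zero, filter_eq_empty_iff]
      intro e _ h
      exact hU h.1
    have h2 : c.aX y X = 0 := by
      unfold aX
      rw [card_eq_zero, filter_eq_empty_iff]
      intro e _ h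
      exact hU h.1
    have h4 : c.dX y X = 0 := by
      unfold dX
      rw [card_eq_zero, filter_eq_empty_iff]
      intro e _ h
      exact hU h.1
    omega

end Ctx
end H70G3

end S_Rx

section S_Rv

/-!
# Row Rv : used states are T2 states

t y T = 2 is part of Use.  T ∈ D: X ∈ D (isU), the edges are in E (`tri_sub`), `edge_D`, `union_D`.  y ∈ T.
First alternative of Use: e W-active: e = {y,w,ctr w}; f W- or O-active; e, f ∈ tri y, e, f ⊆ T.  If ctr w ∉ f: e ∩ f ⊆ {y}: a common x ≠ y is w (then f = e by `WA_edge`, contradiction) or ctr w.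
 If ctr w ∈ f: `pair_shape`: f = {y, ctr w, w'}, w' ∈ W: second alternative of T2 with x := w'.
Second alternative: e := {y,w,ctr w}, f := {y,ctr w,ctr w'}, x := ctr w' ∈ C; e ≠ f (w ∈ e; w ∉ f because w ∈ W, y ∈ R, centres in C).
-/

open Finset Classical

universe u

namespace H70G3
namespace Ctx
variable {V : Type u} [Fintype V] [DecidableEq V] (c : Ctx V)

theorem use_T2 {y : V} {X T : Finset V} (hy : isR c.E y) (h : c.Use y X T) : c.T2 y T := by
  obtain ⟨ht, h | h⟩ := h
  · obtain ⟨e, f, hef, he, hf, hT⟩ := h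
    have he0 := he
    obtain ⟨hU, het, _, w, hw, _, hew, _⟩ := he
    have hft : f ∈ c.tri y := by
      rcases hf with hf | hf
      · exact hf.2.1
      · exact hf.2.1
    have heE := c.tri_sub y e het
    have hfE := c.tri_sub y f hft
    have heT : e ⊆ T := by
      rw [hT]; exact subset_union_right.trans subset_union_left
    have hfT : f ⊆ T := by rw [hT]; exact subset_union_right
    refine ⟨?_, heT heE.2, ht, e, het, f, hft, hef, heT, hfT, ?_⟩
    · rw [hT]
      exact c.union_D (c.union_D hU.1 (c.edge_D heE.1)) (c.edge_D hfE.1)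
    · by_cases hcf : c.ctr w ∈ f
      · right
        rw [hew] at he0
        obtain ⟨w', hw', -, hf'⟩ := c.pair_shape hy hw he0 hf (by rw [← hew]; exact hef.symm) hcf
        exact ⟨w, w', hw, hew, hf', Or.inr hw'⟩
      · left
        intro x hx hxf
        rw [hew] at hx
        simp only [mem_insert, mem_singleton] at hx
        rcases hx with rfl | rfl | rfl
        · rfl
        · exfalso
          have h1 := c.WA_edge (X := X) hy hw hfE.1 hfE.2 hxf
          exact hef (hew.trans h1.symm)
        · exact absurd hxf hcf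
  · obtain ⟨w, w', hw, hw', he, _, _, _, _, hft, hT⟩ := h
    obtain ⟨hU, het, _, _⟩ := he
    have heE := c.tri_sub y _ het
    have hfE := c.tri_sub y _ hft
    have heT : ({y, w, c.ctr w} : Finset V) ⊆ T := by
      rw [hT]; exact subset_union_right.trans subset_union_left
    have hfT : ({y, c.ctr w, c.ctr w'} : Finset V) ⊆ T := by rw [hT]; exact subset_union_right
    refine ⟨?_, heT heE.2, ht, _, het, _, hft, ?_, heT, hfT, Or.inr ⟨w, c.ctr w', hw, rfl, rfl,
      Or.inl (c.ctr_isC hw')⟩⟩
    · rw [hT]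
      exact c.union_D (c.union_D hU.1 (c.edge_D heE.1)) (c.edge_D hfE.1)
    · intro heq
      have h1 : w ∈ ({y, c.ctr w, c.ctr w'} : Finset V) := by
        rw [← heq]; simp
      simp only [mem_insert, mem_singleton] at h1
      rcases h1 with h1 | h1 | h1
      · exact c.ne_of_R_W hy hw h1.symm
      · exact c.ne_of_W_C hw (c.ctr_isC hw) h1
      · exact c.ne_of_W_C hw (c.ctr_isC hw') h1

end Ctx
end H70G3

end S_Rv

section S_Rw

/-!
# Row Rw : every state is used by at most two clusters

Let U = {X : Use y X T}.  t y T = 2 (if U is nonempty): exactly two chosen edges E1 ≠ E2 are ⊆ T.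
Call an edge at y W-type if it contains a vertex w ∈ W; then it is {y,w,ctr w} (`WA_edge`) and w is its only vertex in W.
In every use one of the two edges is W-type and W-active; say E1 = {y,w,v} is W-type.
(A) Some X ∈ U by the second alternative: the two chosen edges in T are {y,w,ctr w} and {y,ctr w,ctr w'} (both ⊆ T, t = 2), i.e. E1 = {y,w,v} and E2 = {y,v,v'} with v, v' ∈ C.
   Then no X' ∈ U is by the first alternative: both E1, E2 would be active, but E2 contains no W-vertex (not WA) and no R-vertex except y (OA needs x ∈ X' ∩ R, x ≠ y): contradiction.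
   For X' ∈ U by the second alternative: the edges are the same E1 (the W-type one), E2, and y, w, v, v' ∉ X', T = X' ∪ E1 ∪ E2, so X' = T \ (E1 ∪ E2). So card U ≤ 1.
(B) All X ∈ U are by the first alternative: E1, E2 both active at X, at least one of them W-active.  Note: a W-type edge is never O-active (OA: {y,a,x}, ¬isW a, x ∈ R), so all W-type edges are W-active, a not W-type
   edge is O-active.  E1 = {y,w,v} W-active.  For X ∈ U: y, w ∉ X, so X ∩ E1 ⊆ {v}; T = X ∪ E1 ∪ E2.
   Exclusion: X1, X2 ∈ U with X1 ∩ E2 = X2 ∩ E2 are equal.  Otherwise they differ only in v (outside E1 ∪ E2 both equal T), say v ∈ X1, v ∉ X2, X1 = insert v X2. (If v ∈ E2 this contradicts X1 ∩ E2 = X2 ∩ E2.)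
      X1 ∈ D: there is h ∈ E, v ∈ h ⊆ X1 = insert v X2 ⊆ X2 ∪ E1.  By WA y X2 E1 and v ∉ X2: all (X2 ∪ E1)-edges at v contain w, so w ∈ h ⊆ X1, but w ∉ X1: contradiction.
   (The W-vertex in WA y X E1 is w since w is the only W-vertex of E1.)
   Now E2: if W-type, E2 = {y,w',v'}: y, w' ∉ X, so X ∩ E2 is ∅ or {v'}: determined by [v' ∈ X].  If E2 is O-active for all X ∈ U: E2 = {y,a,x} with a ∉ X, x ∈ X: E2 has exactly two vertices q1, q2 besides y
   and X ∩ E2 is {q1} or {q2}: determined by [q1 ∈ X].  In both cases X ↦ (a Bool) is injective on U, so card U ≤ 2.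
-/

open Finset Classical

universe u

namespace H70G3
namespace Ctx
variable {V : Type u} [Fintype V] [DecidableEq V] (c : Ctx V)

theorem Rw_pair {y : V} {T e f g : Finset V} (ht : c.t y T = 2) (he : e ∈ c.tri y) (heT : e ⊆ T)
    (hf : f ∈ c.tri y) (hfT : f ⊆ T) (hne : e ≠ f) (hg : g ∈ c.tri y) (hgT : g ⊆ T) :
    g = e ∨ g = f := by
  by_contra hcon
  push Not at hcon
  have h1 : ({e, f, g} : Finset (Finset V)) ⊆ (c.tri y).filter (fun e => e ⊆ T) := by
    intro z hz
    simp only [mem_insert, mem_singleton] at hz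
    rw [mem_filter]
    rcases hz with rfl | rfl | rfl
    exacts [⟨he, heT⟩, ⟨hf, hfT⟩, ⟨hg, hgT⟩]
  have h3 : ({e, f, g} : Finset (Finset V)).card = 3 :=
    card_eq_three.2 ⟨e, f, g, hne, hcon.1.symm, hcon.2.symm, rfl⟩
  have h2 : 3 ≤ c.t y T := by
    rw [← h3]
    unfold t
    exact card_le_card h1
  omega

theorem Rw_WA {y w : V} {X e : Finset V} (hy : isR c.E y) (hw : isW c.E w) (h : c.WA y X e)
    (hwe : w ∈ e) : w ∉ X ∧ e = {y, w, c.ctr w} ∧
      (c.ctr w ∈ X ∨ ∀ f ∈ c.E, c.ctr w ∈ f → f ⊆ X ∪ e → w ∈ f) := by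
  obtain ⟨-, -, -, w', hw', hwX, hee, hor⟩ := h
  have hww : w' = w := by
    rw [hee] at hwe
    simp only [mem_insert, mem_singleton] at hwe
    rcases hwe with h | h | h
    · exact absurd h.symm (c.ne_of_R_W hy hw)
    · exact h.symm
    · exact absurd h (c.ne_of_W_C hw (c.ctr_isC hw'))
  subst hww
  exact ⟨hwX, hee, hor⟩

theorem Rw_OA {y w : V} {X e : Finset V} (hy : isR c.E y) (hw : isW c.E w) (h : c.OA y X e) :
    w ∉ e := by
  obtain ⟨-, -, -, a, x, -, -, haW, -, hxR, hee⟩ := h
  intro hwe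
  rw [hee] at hwe
  simp only [mem_insert, mem_singleton] at hwe
  rcases hwe with h | h | h
  · exact c.ne_of_R_W hy hw h.symm
  · exact haW (h ▸ hw)
  · exact c.W_not_R hw (h ▸ hxR)

theorem Rw_act {y w : V} {X e : Finset V} (hy : isR c.E y) (hw : isW c.E w) (hwe : w ∈ e)
    (h : c.WA y X e ∨ c.OA y X e) : c.WA y X e := by
  rcases h with h | h
  · exact h
  · exact absurd hwe (c.Rw_OA hy hw h)

theorem use_le_two {y : V} {T : Finset V} (hy : isR c.E y) (h3 : (c.tri y).card = 3) :
    (univ.filter (fun X : Finset V => c.Use y X T)).card ≤ 2 := by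
  by_cases hA : ∃ X : Finset V, c.t y T = 2 ∧ ∃ w w', isW c.E w ∧ isW c.E w' ∧
      c.WA y X {y, w, c.ctr w} ∧ c.ctr w ≠ c.ctr w' ∧ c.ctr w ∉ X ∧ c.ctr w' ∉ X ∧
      ({y, c.ctr w, c.ctr w'} : Finset V) ∈ c.tri y ∧
      T = X ∪ {y, w, c.ctr w} ∪ {y, c.ctr w, c.ctr w'}
  · obtain ⟨X0, ht, w, w', hw, hw', hWA, hne, hvX, hv'X, hg, hT⟩ := hA
    obtain ⟨g, hgdef⟩ : ∃ g : Finset V, g = {y, c.ctr w, c.ctr w'} := ⟨_, rfl⟩
    obtain ⟨e, hedef⟩ : ∃ e : Finset V, e = {y, w, c.ctr w} := ⟨_, rfl⟩
    rw [← hedef, ← hgdef] at hT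
    rw [← hgdef] at hg
    rw [← hedef] at hWA
    have hgT : g ⊆ T := by rw [hT]; exact subset_union_right
    have heT : e ⊆ T := by rw [hT]; exact subset_union_right.trans subset_union_left
    have hgW : ∀ u, isW c.E u → u ∉ g := by
      intro u hu hug
      rw [hgdef] at hug
      simp only [mem_insert, mem_singleton] at hug
      rcases hug with h | h | h
      · exact c.ne_of_R_W hy hu h.symm
      · exact c.ne_of_W_C hu (c.ctr_isC hw) h
      · exact c.ne_of_W_C hu (c.ctr_isC hw') h
    have hwe : w ∈ e := by rw [hedef]; simp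
    have hgact : ∀ X, ¬ (c.WA y X g ∨ c.OA y X g) := by
      intro X h
      rcases h with h | h
      · obtain ⟨-, -, -, u, hu, -, hge, -⟩ := h
        exact hgW u hu (by rw [hge]; simp)
      · obtain ⟨hU, -, -, a, x, -, -, -, hxX, hxR, hge⟩ := h
        have hxg : x ∈ g := by rw [hge]; simp
        rw [hgdef] at hxg
        simp only [mem_insert, mem_singleton] at hxg
        rcases hxg with h | h | h
        · exact hU.2.1 (h ▸ hxX)
        · exact c.ne_of_R_C hxR (c.ctr_isC hw) h
        · exact c.ne_of_R_C hxR (c.ctr_isC hw') h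
    have key : ∀ X, c.Use y X T → X = T \ (e ∪ g) := by
      rintro X ⟨-, h⟩
      rcases h with ⟨e', f', hef, he', hf', hT'⟩ | ⟨u, u', hu, hu', h1, h2, hne', huX, hu'X, hg', hT'⟩
      · exfalso
        have hf'2 := c.Rp_act hf'
        have he'T : e' ⊆ T := by rw [hT']; exact subset_union_right.trans subset_union_left
        have hf'T : f' ⊆ T := by rw [hT']; exact subset_union_right
        rcases c.Rw_pair ht he'.2.1 he'T hf'2.1 hf'T hef hg hgT with h | h
        · exact hgact X (Or.inl (h ▸ he'))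
        · exact hgact X (h ▸ hf')
      · obtain ⟨g', hg'def⟩ : ∃ g' : Finset V, g' = {y, c.ctr u, c.ctr u'} := ⟨_, rfl⟩
        obtain ⟨e', he'def⟩ : ∃ e' : Finset V, e' = {y, u, c.ctr u} := ⟨_, rfl⟩
        rw [← he'def] at h1
        rw [← hg'def] at hg'
        rw [← he'def, ← hg'def] at hT'
        have hg'T : g' ⊆ T := by rw [hT']; exact subset_union_right
        have he'T : e' ⊆ T := by rw [hT']; exact subset_union_right.trans subset_union_left
        have hue : u ∈ e' := by rw [he'def]; simp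
        have hug : u ∉ g' := by
          intro hug
          rw [hg'def] at hug
          simp only [mem_insert, mem_singleton] at hug
          rcases hug with h | h | h
          · exact c.ne_of_R_W hy hu h.symm
          · exact c.ne_of_W_C hu (c.ctr_isC hu) h
          · exact c.ne_of_W_C hu (c.ctr_isC hu') h
        have hne2 : e' ≠ g' := fun h => hug (h ▸ hue)
        have hgg : g = g' := by
          rcases c.Rw_pair ht h1.2.1 he'T hg' hg'T hne2 hg hgT with h | h
          · exact absurd (h ▸ hue) (hgW u hu)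
          · exact h
        have hee : e = e' := by
          rcases c.Rw_pair ht h1.2.1 he'T hg' hg'T hne2 hWA.2.1 heT with h | h
          · exact h
          · exact absurd ((h.trans hgg.symm) ▸ hwe) (hgW w hw)
        have huX' : u ∉ X := (c.Rw_WA hy hu h1 hue).1
        have hyX : y ∉ X := h1.1.2.1
        rw [hgg, hee]
        ext z
        rw [mem_sdiff]
        constructor
        · intro hz
          refine ⟨by rw [hT']; simp [hz], ?_⟩
          rw [mem_union, he'def, hg'def]
          simp only [mem_insert, mem_singleton]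
          rintro ((h | h | h) | (h | h | h))
          · exact hyX (h ▸ hz)
          · exact huX' (h ▸ hz)
          · exact huX (h ▸ hz)
          · exact hyX (h ▸ hz)
          · exact huX (h ▸ hz)
          · exact hu'X (h ▸ hz)
        · rintro ⟨hz, hz2⟩
          rw [hT', mem_union, mem_union] at hz
          rw [mem_union] at hz2
          tauto
    refine (card_le_one.2 ?_).trans (by norm_num)
    intro a ha b hb
    rw [mem_filter] at ha hb
    rw [key a ha.2, key b hb.2]
  · by_cases hU : ∃ X, c.Use y X T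
    swap
    · have h0 : univ.filter (fun X : Finset V => c.Use y X T) = ∅ := by
        rw [filter_eq_empty_iff]
        intro X _ hX
        exact hU ⟨X, hX⟩
      rw [h0]
      simp
    obtain ⟨X0, ht, h0⟩ := hU
    have halt : ∀ X, c.Use y X T → ∃ e f, e ≠ f ∧ c.WA y X e ∧ (c.WA y X f ∨ c.OA y X f) ∧
        T = X ∪ e ∪ f := by
      rintro X ⟨-, h⟩
      rcases h with h | ⟨u, u', hu, hu', h1, h2, h3, h4, h5, h6, h7⟩
      · exact h
      · exact absurd ⟨X, ht, u, u', hu, hu', h1, h3, h4, h5, h6, h7⟩ hA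
    obtain ⟨e, f, hef, he, hf, hT⟩ := halt X0 ⟨ht, h0⟩
    obtain ⟨w, hw, hwe⟩ : ∃ w, isW c.E w ∧ w ∈ e := by
      obtain ⟨-, -, -, w, hw, -, hee, -⟩ := he
      exact ⟨w, hw, by rw [hee]; simp⟩
    have hee := (c.Rw_WA hy hw he hwe).2.1
    have hfT : f ⊆ T := by rw [hT]; exact subset_union_right
    have heT : e ⊆ T := by rw [hT]; exact subset_union_right.trans subset_union_left
    have hall : ∀ X, c.Use y X T → c.WA y X e ∧ (c.WA y X f ∨ c.OA y X f) ∧ T = X ∪ e ∪ f := by
      intro X hX
      obtain ⟨e', f', hef', he', hf', hT'⟩ := halt X hX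
      have he'T : e' ⊆ T := by rw [hT']; exact subset_union_right.trans subset_union_left
      have hf'T : f' ⊆ T := by rw [hT']; exact subset_union_right
      rcases c.Rw_pair ht he.2.1 heT (c.Rp_act hf).1 hfT hef he'.2.1 he'T with h | h
      · have hff : f' = f := by
          rcases c.Rw_pair ht he.2.1 heT (c.Rp_act hf).1 hfT hef (c.Rp_act hf').1 hf'T with h2 | h2
          · exact absurd (h.trans h2.symm) hef'
          · exact h2
        subst h
        subst hff
        exact ⟨he', hf', hT'⟩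
      · have hff : f' = e := by
          rcases c.Rw_pair ht he.2.1 heT (c.Rp_act hf).1 hfT hef (c.Rp_act hf').1 hf'T with h2 | h2
          · exact h2
          · exact absurd (h.trans h2.symm) hef'
        subst h
        subst hff
        refine ⟨c.Rw_act hy hw hwe hf', Or.inl he', ?_⟩
        rw [hT', union_assoc, union_assoc, union_comm e' f']
    have hsub : ∀ X1 X2, c.Use y X1 T → c.Use y X2 T → X1 ∩ f = X2 ∩ f → X1 ⊆ X2 := by
      intro X1 X2 hX1 hX2 hint
      obtain ⟨ha1, -, hT1⟩ := hall X1 hX1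
      obtain ⟨ha2, -, hT2⟩ := hall X2 hX2
      have hw1 := (c.Rw_WA hy hw ha1 hwe).1
      have hor := (c.Rw_WA hy hw ha2 hwe).2.2
      have hy1 : y ∉ X1 := ha1.1.2.1
      have hz : ∀ z ∈ X1, z ∉ X2 → z = c.ctr w := by
        intro z hz1 hz2
        have hzT : z ∈ T := by rw [hT1]; simp [hz1]
        rw [hT2, mem_union, mem_union] at hzT
        rcases hzT with (h | h) | h
        · exact absurd h hz2
        · rw [hee] at h
          simp only [mem_insert, mem_singleton] at h
          rcases h with h | h | h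
          · exact absurd (h ▸ hz1) hy1
          · exact absurd (h ▸ hz1) hw1
          · exact h
        · have h2 : z ∈ X2 ∩ f := by
            rw [← hint, mem_inter]
            exact ⟨hz1, h⟩
          exact absurd (mem_inter.1 h2).1 hz2
      intro z hz1
      by_contra hz2
      have hzv := hz z hz1 hz2
      rw [hzv] at hz1 hz2
      have hD : isD c.E X1 := (c.mem_D).1 ha1.1.1
      obtain ⟨h, hhE, hvh, hhX⟩ := hD _ hz1
      rcases hor with hor | hor
      · exact hz2 hor
      · have hwh := hor h hhE hvh (by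
          intro x hx
          rw [mem_union]
          by_cases hxX : x ∈ X2
          · exact Or.inl hxX
          · right
            rw [hz x (hhX hx) hxX, hee]
            simp)
        exact hw1 (hhX hwh)
    obtain ⟨P, Q, hPQ⟩ : ∃ P Q : Finset V, ∀ X, c.Use y X T → X ∩ f = P ∨ X ∩ f = Q := by
      by_cases hfW : ∃ u, isW c.E u ∧ u ∈ f
      · obtain ⟨u, hu, huf⟩ := hfW
        refine ⟨∅, {c.ctr u}, fun X hX => ?_⟩
        obtain ⟨-, hfa, -⟩ := hall X hX
        have hfa' := c.Rw_act hy hu huf hfa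
        obtain ⟨huX, hfe, -⟩ := c.Rw_WA hy hu hfa' huf
        have hyX : y ∉ X := hfa'.1.2.1
        by_cases hv : c.ctr u ∈ X
        · right
          ext z
          rw [mem_inter, mem_singleton, hfe]
          simp only [mem_insert, mem_singleton]
          constructor
          · rintro ⟨hz, h | h | h⟩
            · exact absurd (h ▸ hz) hyX
            · exact absurd (h ▸ hz) huX
            · exact h
          · rintro rfl
            exact ⟨hv, Or.inr (Or.inr rfl)⟩
        · left
          rw [eq_empty_iff_forall_notMem]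
          intro z hz
          rw [mem_inter, hfe] at hz
          simp only [mem_insert, mem_singleton] at hz
          obtain ⟨hz, h | h | h⟩ := hz
          · exact hyX (h ▸ hz)
          · exact huX (h ▸ hz)
          · exact hv (h ▸ hz)
      · have hOA : ∀ X, c.Use y X T → c.OA y X f := by
          intro X hX
          obtain ⟨-, hfa, -⟩ := hall X hX
          rcases hfa with h | h
          · exfalso
            obtain ⟨-, -, -, u, hu, -, hfe, -⟩ := h
            exact hfW ⟨u, hu, by rw [hfe]; simp⟩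
          · exact h
        obtain ⟨-, -, -, a0, x0, -, -, -, -, -, hfe0⟩ := hOA X0 ⟨ht, h0⟩
        refine ⟨{a0}, {x0}, fun X hX => ?_⟩
        obtain ⟨hXU, -, -, a, x, haX, hay, -, hxX, hxR, hfe⟩ := hOA X hX
        have hyX : y ∉ X := hXU.2.1
        have hX2 : X ∩ f = {x} := by
          ext z
          rw [mem_inter, mem_singleton, hfe]
          simp only [mem_insert, mem_singleton]
          constructor
          · rintro ⟨hz, h | h | h⟩
            · exact absurd (h ▸ hz) hyX
            · exact absurd (h ▸ hz) haX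
            · exact h
          · rintro rfl
            exact ⟨hxX, Or.inr (Or.inr rfl)⟩
        rw [hX2]
        have hxf : x ∈ f := by rw [hfe]; simp
        rw [hfe0] at hxf
        simp only [mem_insert, mem_singleton] at hxf
        rcases hxf with h | h | h
        · exact absurd (h ▸ hxX) hyX
        · left; rw [h]
        · right; rw [h]
    have hcard : (univ.filter (fun X : Finset V => c.Use y X T)).card ≤
        ({P, Q} : Finset (Finset V)).card := by
      apply card_le_card_of_injOn (fun X => X ∩ f)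
      · intro X hX
        rw [mem_coe, mem_filter] at hX
        rw [mem_coe, mem_insert, mem_singleton]
        exact hPQ X hX.2
      · intro X1 hX1 X2 hX2 h
        rw [mem_coe, mem_filter] at hX1 hX2
        exact Subset.antisymm (hsub X1 X2 hX1.2 hX2.2 h) (hsub X2 X1 hX2.2 hX1.2 h.symm)
    exact hcard.trans card_le_two

end Ctx
end H70G3

end S_Rw

section S_Rz

/-!
# Row Rz : type Two vertices

tri_R second alternative: tri y = {e, f}, all edges at y are in tri y, e ∩ f = {y}, all other vertices of e, f are in C.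
cap y S for y ∈ S: card tri = 2 ≠ 3: 12 - 6 t; isR y so not W.   y ∉ S: ldR = 0 (`ldR_not_mem`).
y ∈ S ∈ D: all om y S p = 0: dep S y p gives p in some edge at y, p ≠ y, so p ∈ C (`om_zero`).  self ≤ 6.  t y S = card (at' E S y) ≥ 1 (all edges at y are chosen).
t = 1: 12 - 6 = 6 ≥ self.  t = 2: self = 0: ib needs a singleton; ias S y v: v in both edges, so v = y, contradiction.
-/

open Finset Classical

universe u

namespace H70G3
namespace Ctx
variable {V : Type u} [Fintype V] [DecidableEq V] (c : Ctx V)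

theorem ldR_Two {y : V} {S : Finset V} (hy : isR c.E y) (h2 : (c.tri y).card = 2)
    (h2a : ∀ e ∈ c.E, y ∈ e → e ∈ c.tri y)
    (h2b : ∀ e ∈ c.tri y, ∀ f ∈ c.tri y, e ≠ f → ∀ x ∈ e, x ∈ f → x = y)
    (h2c : ∀ e ∈ c.tri y, ∀ x ∈ e, x ≠ y → isC c.E x) (hS : S ∈ c.D) :
    c.ldR y S ≤ c.cap y S := by
  by_cases hyS : y ∈ S
  swap
  · rw [c.ldR_not_mem hyS]; exact Nat.zero_le _
  have hcap : c.cap y S = 12 - 6 * c.t y S := by
    unfold cap
    rw [if_neg hy.2.2, if_pos hy, if_pos hyS, if_neg (by omega)]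
  have hom : ∀ p, c.om y S p = 0 := by
    intro p
    by_contra hne
    have hd := (c.om_dep hne).1
    obtain ⟨e, he⟩ := c.exists_at hS hyS
    rw [mem_at] at he
    have hpC := h2c e (h2a e he.1 he.2.1) p (hd.2.2 e he.1 he.2.1 he.2.2) hd.2.1.symm
    exact hne (c.om_zero (c.C_not_R hpC) (c.C_not_W hpC))
  have hsum : ∑ p, c.om y S p = 0 := Finset.sum_eq_zero fun p _ => hom p
  rw [hcap]
  unfold ldR
  rw [hsum, zero_add]
  have hself := c.self_le y S
  have htle : c.t y S ≤ 2 := by
    unfold t
    rw [← h2]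
    exact card_le_card (filter_subset _ _)
  by_cases ht : c.t y S = 2
  · have hall : (c.tri y).filter (fun e => e ⊆ S) = c.tri y := by
      apply eq_of_subset_of_card_le (filter_subset _ _)
      unfold t at ht
      rw [ht, h2]
    obtain ⟨e1, e2, hne, htri⟩ := card_eq_two.1 h2
    have h1 : e1 ∈ c.tri y := by rw [htri]; simp
    have h1' : e2 ∈ c.tri y := by rw [htri]; simp
    have hs1 : e1 ⊆ S := by
      rw [← hall] at h1; exact (mem_filter.1 h1).2
    have hs2 : e2 ⊆ S := by
      rw [← hall] at h1'; exact (mem_filter.1 h1').2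
    have hE1 := c.tri_sub y e1 h1
    have hE2 := c.tri_sub y e2 h1'
    have hz : c.self y S = 0 := by
      unfold self
      rw [if_neg]
      rintro (⟨v, hv⟩ | hib)
      · have hd := hv.2.2.2.1
        exact hd.2.1 (h2b e1 h1 e2 h1' hne v (hd.2.2 e1 hE1.1 hE1.2 hs1)
          (hd.2.2 e2 hE2.1 hE2.2 hs2)).symm
      · obtain ⟨-, -, v, v', -, -, -, hat⟩ := hib
        have m1 : e1 ∈ at' c.E S y := by rw [mem_at]; exact ⟨hE1.1, hE1.2, hs1⟩
        have m2 : e2 ∈ at' c.E S y := by rw [mem_at]; exact ⟨hE2.1, hE2.2, hs2⟩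
        rw [hat, mem_singleton] at m1 m2
        exact hne (m1.trans m2.symm)
    rw [hz]
    exact Nat.zero_le _
  · omega

end Ctx
end H70G3

end S_Rz

section S_Rsum

/-!
# Row Rsum : the load of y ∈ R is at most the capacity of y

By `tri_R`: type Two: sum `ldR_Two`.  Otherwise card (tri y) = 3.
Pointwise for S ∈ D:  ldR y S + 2 nImg y S + 4 nT2 y S ≤ (if y ∈ S then 12 - 4 t else 0) + 2 nOA y S + 2 nDA y S + 4 nWA y S + 2 nS1 y S:
  y ∉ S: ldR = 0 (`ldR_not_mem`), nImg = 0 (`ldR_S1img`: y ∈ T), nT2 = 0 (T2 contains y ∈ T).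
  T2 y S: `ldR_T2`: 0 + 0 + 4 ≤ 12 - 8.   not T2, S1img: `ldR_S1img`.   neither: `ldR_one` or `ldR_two` (at' E S y nonempty by `exists_at`), t ≤ 3.
Sums over D:
 Σ_S nOA y S ≤ Σ_{X ∈ D} oX y X  (pairs (X,e) with OA y X e; X ∈ D by isU, e ∈ tri y), Σ_S nWA ≤ Σ_{X ∈ D} aX, Σ_S nDA ≤ Σ_{X ∈ D} dX  (fiberwise: the sets over different S are disjoint),
 Σ_S nS1 ≤ Σ_T nImg (`sum_nS1_le`),
 Σ_{X ∈ D} (2 oX + 2 dX + 4 aX) ≤ Σ_{X ∈ D} (if isU then 6 else 0) + 2 Σ_{X ∈ D} uX (`cluster_le`),
 Σ_{X ∈ D} uX = number of pairs (X,T) ∈ D × D with Use ≤ Σ_{T ∈ D} 2 nT2 y T (`use_le_two`; 0 if not T2 by `use_T2`).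
 Adding: Σ_S ldR ≤ Σ_{S ∈ D} (if y ∈ S then 12 - 4 t else 0) + Σ_{X ∈ D} (if isU y X then 6 else 0) = Σ_{T ∈ D} cap y T (unfold cap, isU; isR y, not W).
Strict version (no vertex of W): then no centre (`rep_isW`), type Two is impossible (its two chosen edges are different, so one of them has a vertex x ≠ y (both contain y), x ∈ C).
 For X = ∅ ∈ D (`empty_D`): isU y ∅ ({y} = insert y ∅ ∉ D: the edge at y inside {y} would be {y}, `R_not_L`);
 oX y ∅ = 0 (x ∈ ∅), aX = 0 (isW), dX y ∅ = 0 (e, f ⊆ {y,p} both containing y and p are equal). So at X = ∅ the cluster inequality holds with 6 to spare: 0 < 6 + 2 uX.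
-/

open Finset Classical

universe u

namespace H70G3

theorem Rsum_fib {α β : Type*} [Fintype α] (P : α → Prop) (f : α → β) (D : Finset β) :
    ∑ S ∈ D, (univ.filter (fun x => P x ∧ f x = S)).card ≤ (univ.filter P).card := by
  have h1 : ∀ S ∈ D, (univ.filter (fun x => P x ∧ f x = S)).card =
      ∑ x ∈ univ.filter P, (if f x = S then 1 else 0) := by
    intro S _
    rw [← filter_filter, card_filter]
  rw [sum_congr rfl h1, sum_comm]
  calc ∑ x ∈ univ.filter P, ∑ S ∈ D, (if f x = S then 1 else 0)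
      ≤ ∑ x ∈ univ.filter P, 1 := by
        apply sum_le_sum
        intro x _
        rw [sum_ite_eq]
        split_ifs
        · exact le_refl _
        · exact Nat.zero_le _
    _ = (univ.filter P).card := by rw [card_eq_sum_ones]

theorem Rsum_fib2 {α β : Type*} [Fintype α] (P : α → Prop) (f : α → β) (D : Finset β)
    (n : β → ℕ) (hn : ∀ S ∈ D, n S = (univ.filter (fun x => P x ∧ f x = S)).card) :
    ∑ S ∈ D, n S ≤ (univ.filter P).card := by
  rw [sum_congr rfl hn]
  exact Rsum_fib P f D

theorem Rsum_prod {α β : Type*} [Fintype α] [Fintype β] (P : α → β → Prop) (D : Finset α)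
    (A : Finset β) (hD : ∀ X e, P X e → X ∈ D ∧ e ∈ A) :
    (univ.filter (fun x : α × β => P x.1 x.2)).card ≤ ∑ X ∈ D, (A.filter (fun e => P X e)).card := by
  have h1 : univ.filter (fun x : α × β => P x.1 x.2) ⊆
      D.biUnion (fun X => (A.filter (fun e => P X e)).image (fun e => (X, e))) := by
    intro x hx
    have h2 := (mem_filter.1 hx).2
    obtain ⟨h3, h4⟩ := hD _ _ h2
    exact mem_biUnion.2 ⟨x.1, h3, mem_image.2 ⟨x.2, mem_filter.2 ⟨h4, h2⟩, rfl⟩⟩
  refine (card_le_card h1).trans (card_biUnion_le.trans (sum_le_sum ?_))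
  intro X _
  exact card_image_le

namespace Ctx
variable {V : Type u} [Fintype V] [DecidableEq V] (c : Ctx V)

theorem Rsum_t_le {y : V} (h3 : (c.tri y).card = 3) (S : Finset V) : c.t y S ≤ 3 := by
  unfold t
  rw [← h3]
  exact card_filter_le _ _

theorem Rsum_pt {y : V} (hy : isR c.E y) (h3 : (c.tri y).card = 3) {S : Finset V}
    (hS : S ∈ c.D) : c.ldR y S + 2 * c.nImg y S + 4 * c.nT2 y S ≤
      (if y ∈ S then 12 - 4 * c.t y S else 0) + 2 * c.nOA y S + 2 * c.nDA y S + 4 * c.nWA y S +
        2 * c.nS1 y S := by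
  have ht := c.Rsum_t_le h3 S
  by_cases hyS : y ∈ S
  · rw [if_pos hyS]
    by_cases hT : c.T2 y S
    · obtain ⟨h1, h2⟩ := c.ldR_T2 hy h3 hT
      have h4 : c.t y S = 2 := hT.2.2.1
      have h5 : c.nImg y S = 0 := if_neg h2
      have h6 : c.nT2 y S = 1 := if_pos hT
      rw [h1, h5, h6, h4]
      omega
    · have h6 : c.nT2 y S = 0 := if_neg hT
      by_cases hI : c.S1img y S
      · have h5 : c.nImg y S = 1 := if_pos hI
        obtain ⟨_, _, h7⟩ := c.ldR_S1img hy h3 hI
        rw [h5, h6]
        omega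
      · have h5 : c.nImg y S = 0 := if_neg hI
        rw [h5, h6]
        obtain ⟨e, he⟩ := c.exists_at hS hyS
        rcases Nat.lt_or_ge (at' c.E S y).card 2 with h8 | h8
        · have h9 : at' c.E S y = {e} := by
            have h10 : (at' c.E S y).card = 1 := by
              have := card_pos.2 ⟨e, he⟩
              omega
            obtain ⟨e', he'⟩ := card_eq_one.1 h10
            rw [he', mem_singleton] at he
            rw [he', he]
          have h11 := c.ldR_one hy h3 hS h9
          omega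
        · have h11 := c.ldR_two hy h3 hS h8
          omega
  · rw [if_neg hyS]
    have h1 := c.ldR_not_mem (S := S) hyS
    have h5 : c.nImg y S = 0 := if_neg (fun h => hyS (c.ldR_S1img hy h3 h).2.1)
    have h6 : c.nT2 y S = 0 := if_neg (fun h => hyS h.2.1)
    rw [h1, h5, h6]
    exact Nat.zero_le _

theorem Rsum_OA (y : V) : ∑ S ∈ c.D, c.nOA y S ≤ ∑ X ∈ c.D, c.oX y X := by
  refine (Rsum_fib2 (fun x : Finset V × Finset V => c.OA y x.1 x.2) (fun x => x.1 ∪ x.2)
    c.D _ (fun S _ => ?_)).trans ?_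
  · unfold nOA
    apply congrArg
    ext x
    simp only [mem_filter]
  exact Rsum_prod (fun X e => c.OA y X e) c.D (c.tri y) (fun X e h => ⟨h.1.1, h.2.1⟩)

theorem Rsum_WA (y : V) : ∑ S ∈ c.D, c.nWA y S ≤ ∑ X ∈ c.D, c.aX y X := by
  refine (Rsum_fib2 (fun x : Finset V × Finset V => c.WA y x.1 x.2) (fun x => x.1 ∪ x.2)
    c.D _ (fun S _ => ?_)).trans ?_
  · unfold nWA
    apply congrArg
    ext x
    simp only [mem_filter]
  exact Rsum_prod (fun X e => c.WA y X e) c.D (c.tri y) (fun X e h => ⟨h.1.1, h.2.1⟩)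

theorem Rsum_DA (y : V) : ∑ S ∈ c.D, c.nDA y S ≤ ∑ X ∈ c.D, c.dX y X := by
  refine (Rsum_fib2 (fun x : Finset V × V => c.DA y x.1 x.2)
    (fun x => insert y (insert x.2 x.1)) c.D _ (fun S _ => ?_)).trans ?_
  · unfold nDA
    apply congrArg
    ext x
    simp only [mem_filter]
  exact Rsum_prod (fun X p => c.DA y X p) c.D univ (fun X e h => ⟨h.1.1, mem_univ _⟩)

theorem Rsum_uX {y : V} (hy : isR c.E y) (h3 : (c.tri y).card = 3) :
    ∑ X ∈ c.D, c.uX y X ≤ ∑ T ∈ c.D, 2 * c.nT2 y T := by
  have h1 : ∀ X ∈ c.D, c.uX y X = ∑ T ∈ c.D, (if c.Use y X T then 1 else 0) := by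
    intro X _
    unfold uX
    rw [card_filter]
  rw [sum_congr rfl h1, sum_comm]
  apply sum_le_sum
  intro T _
  rw [← card_filter]
  by_cases hT : c.T2 y T
  · have h6 : c.nT2 y T = 1 := if_pos hT
    rw [h6]
    refine (card_le_card ?_).trans (c.use_le_two (T := T) hy h3)
    intro X hX
    exact mem_filter.2 ⟨mem_univ _, (mem_filter.1 hX).2⟩
  · have h7 : c.D.filter (fun X => c.Use y X T) = ∅ := by
      rw [filter_eq_empty_iff]
      intro X _ hU
      exact hT (c.use_T2 hy hU)
    rw [h7, card_empty]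
    exact Nat.zero_le _

theorem Rsum_core {y : V} (hy : isR c.E y) (h3 : (c.tri y).card = 3) :
    ∑ S ∈ c.D, c.ldR y S + ∑ X ∈ c.D, 2 * c.uX y X ≤
      ∑ S ∈ c.D, (if y ∈ S then 12 - 4 * c.t y S else 0) +
        ∑ X ∈ c.D, (2 * c.oX y X + 2 * c.dX y X + 4 * c.aX y X) := by
  have h1 := sum_le_sum (fun S (hS : S ∈ c.D) => c.Rsum_pt hy h3 hS)
  simp only [sum_add_distrib, ← mul_sum] at h1 ⊢
  have h2 := c.Rsum_OA y
  have h4 := c.Rsum_WA y
  have h5 := c.Rsum_DA y
  have h6 := c.Rsum_uX hy h3
  have h7 := c.sum_nS1_le hy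
  rw [← mul_sum] at h6
  omega

theorem Rsum_cap {y : V} (hy : isR c.E y) (h3 : (c.tri y).card = 3) :
    ∑ T ∈ c.D, c.cap y T = ∑ S ∈ c.D, (if y ∈ S then 12 - 4 * c.t y S else 0) +
      ∑ X ∈ c.D, (if c.isU y X then 6 else 0) := by
  rw [← sum_add_distrib]
  apply sum_congr rfl
  intro T hT
  unfold cap
  rw [if_neg hy.2.2, if_pos hy, if_pos h3]
  by_cases hyT : y ∈ T
  · have h1 : ¬ c.isU y T := fun h => h.2.1 hyT
    rw [if_pos hyT, if_pos hyT, if_neg h1, add_zero]
  · rw [if_neg hyT, if_neg hyT, zero_add]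
    by_cases hD : insert y T ∈ c.D
    · have h1 : ¬ c.isU y T := fun h => h.2.2 hD
      rw [if_pos hD, if_neg h1]
    · have h1 : c.isU y T := ⟨hT, hyT, hD⟩
      rw [if_neg hD, if_pos h1]

theorem sum_ldR_le {y : V} (hy : isR c.E y) : ∑ S ∈ c.D, c.ldR y S ≤ ∑ T ∈ c.D, c.cap y T := by
  rcases c.tri_R y hy with ⟨h3, _⟩ | ⟨h2, h2a, h2b, h2c⟩
  · have h1 := c.Rsum_core hy h3
    have h4 := sum_le_sum (fun X (_ : X ∈ c.D) => c.cluster_le (X := X) hy h3)
    rw [sum_add_distrib (f := fun X => if c.isU y X then 6 else 0)] at h4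
    rw [c.Rsum_cap hy h3]
    omega
  · exact sum_le_sum (fun S hS => c.ldR_Two hy h2 h2a h2b h2c hS)

theorem sum_ldR_lt {y : V} (hy : isR c.E y) (hW : ∀ w, ¬ isW c.E w) :
    ∑ S ∈ c.D, c.ldR y S < ∑ T ∈ c.D, c.cap y T := by
  have hC : ∀ x, ¬ isC c.E x := fun x hx => hW _ (c.rep_isW hx)
  rcases c.tri_R y hy with ⟨h3, _⟩ | ⟨h2, h2a, h2b, h2c⟩
  · have h1 := c.Rsum_core hy h3
    have hU : c.isU y ∅ := by
      refine ⟨c.empty_D, notMem_empty _, ?_⟩
      intro h
      rw [c.mem_D] at h
      obtain ⟨e, he, hye, hes⟩ := h y (mem_insert_self _ _)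
      have h5 : e = {y} := by
        apply Subset.antisymm
        · intro x hx
          have h6 := hes hx
          rw [mem_insert] at h6
          rcases h6 with h6 | h6
          · exact mem_singleton.2 h6
          · exact absurd h6 (notMem_empty _)
        · exact singleton_subset_iff.2 hye
      rw [h5] at he
      exact c.R_not_L hy he
    have ho : c.oX y ∅ = 0 := by
      unfold oX
      rw [card_eq_zero, filter_eq_empty_iff]
      intro e _ h
      obtain ⟨_, _, _, a, x, _, _, _, hx, _⟩ := h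
      exact notMem_empty _ hx
    have ha : c.aX y ∅ = 0 := by
      unfold aX
      rw [card_eq_zero, filter_eq_empty_iff]
      intro e _ h
      obtain ⟨_, _, _, w, hw, _⟩ := h
      exact hW w hw
    have hdd : c.dX y ∅ = 0 := by
      unfold dX
      rw [card_eq_zero, filter_eq_empty_iff]
      intro p _ h
      obtain ⟨_, _, _, _, e, he, f, hf, hne, hpe, hpf, hes, hfs⟩ := h
      have key : ∀ g ∈ c.tri y, p ∈ g → g ⊆ insert y (insert p (∅ : Finset V)) →
          g = insert y (insert p (∅ : Finset V)) := by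
        intro g hg hpg hgs
        apply Subset.antisymm hgs
        intro x hx
        rw [mem_insert, mem_insert] at hx
        rcases hx with hx | hx | hx
        · rw [hx]
          exact (c.tri_sub y g hg).2
        · rw [hx]
          exact hpg
        · exact absurd hx (notMem_empty _)
      exact hne ((key e he hpe hes).trans (key f hf hpf hfs).symm)
    have h4 : ∑ X ∈ c.D, (2 * c.oX y X + 2 * c.dX y X + 4 * c.aX y X) <
        ∑ X ∈ c.D, ((if c.isU y X then 6 else 0) + 2 * c.uX y X) := by
      refine sum_lt_sum (fun X _ => c.cluster_le (X := X) hy h3) ⟨∅, c.empty_D, ?_⟩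
      rw [ho, ha, hdd, if_pos hU]
      omega
    rw [sum_add_distrib (f := fun X => if c.isU y X then 6 else 0)] at h4
    rw [c.Rsum_cap hy h3]
    omega
  · exfalso
    obtain ⟨e, f, hne, hef⟩ := card_eq_two.1 h2
    have he : e ∈ c.tri y := by
      rw [hef]
      exact mem_insert_self _ _
    have hf : f ∈ c.tri y := by
      rw [hef]
      exact mem_insert_of_mem (mem_singleton_self _)
    have key : ∀ g ∈ c.tri y, g = {y} := by
      intro g hg
      apply Subset.antisymm
      · intro x hx
        by_contra h6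
        exact hC x (h2c g hg x hx (fun h => h6 (mem_singleton.2 h)))
      · exact singleton_subset_iff.2 (c.tri_sub y g hg).2
    exact hne ((key e he).trans (key f hf).symm)

end Ctx
end H70G3

end S_Rsum
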