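import Mathlib
import Pool.Agent.H70.G3M.A
import Pool.Agent.H70.G3M.B
import Pool.Agent.H70.G3M.C

/-! MP_75f39d_co, at most three generators per element, part D (several modules joined). -/

section S_TG

/-!
# Row TG : toggling

For every vertex w:  Σ_{T ∈ D} cap w T ≤ cost w * cr, cr = card {S ∈ D : w ∈ S, S.erase w ∉ D}.  Put un = card {X ∈ D : w ∉ X, insert w X ∉ D}, A = {S ∈ D : w ∈ S}, B = {S ∈ D : w ∉ S}.
card D = card A + card B; the map S ↦ S.erase w is a bijection from {S ∈ A : S.erase w ∈ D} to {X ∈ B : insert w X ∈ D}; so card A - cr = card B - un, i.e. card A + un = card B + cr.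
For e ∈ tri w (e ∈ E, w ∈ e): m_e := card {S ∈ A : ¬ e ⊆ S}; {S ∈ D : e ⊆ S} has card A - m_e elements.  hP: card A + card B ≤ 2 (card A - m_e), so 2 m_e + un ≤ cr.
Σ_{e ∈ tri w} m_e = Σ_{S ∈ A} (card (tri w) - t w S) (double counting).
isW w (`tri_W`: three edges): 4 times the sum: Σ_{S ∈ A} (24 - 8 t) + 12 un ≤ 12 cr.   isR w, card tri = 3: 2 times the sum: Σ (12 - 4 t) + 6 un ≤ 6 cr.
isR w, card tri = 2: 3 times the sum of two: Σ (12 - 6 t) + 6 un ≤ 6 cr.  otherwise cap = 0.  (t ≤ card (tri w).)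
-/

open Finset Classical

universe u

namespace H70G3
namespace Ctx
variable {V : Type u} [Fintype V] [DecidableEq V] (c : Ctx V)

/-- number of sets with `w` not removable, and number of sets to which `w` cannot be added -/
private lemma TG_cards (w : V) :
    (c.D.filter (fun S => w ∈ S)).card + (c.D.filter (fun X => w ∉ X ∧ insert w X ∉ c.D)).card =
      (c.D.filter (fun S => w ∉ S)).card + (c.D.filter (fun S => w ∈ S ∧ S.erase w ∉ c.D)).card := by
  have hA : (c.D.filter (fun S => w ∈ S)).card = (c.D.filter (fun S => w ∈ S ∧ S.erase w ∈ c.D)).card +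
      (c.D.filter (fun S => w ∈ S ∧ S.erase w ∉ c.D)).card := by
    have h := card_filter_add_card_filter_not (s := c.D.filter (fun S => w ∈ S)) (fun S => S.erase w ∈ c.D)
    rw [filter_filter, filter_filter] at h
    exact h.symm
  have hB : (c.D.filter (fun S => w ∉ S)).card = (c.D.filter (fun S => w ∉ S ∧ insert w S ∈ c.D)).card +
      (c.D.filter (fun S => w ∉ S ∧ insert w S ∉ c.D)).card := by
    have h := card_filter_add_card_filter_not (s := c.D.filter (fun S => w ∉ S)) (fun S => insert w S ∈ c.D)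
    rw [filter_filter, filter_filter] at h
    exact h.symm
  have hAB : (c.D.filter (fun S => w ∈ S ∧ S.erase w ∈ c.D)).card =
      (c.D.filter (fun S => w ∉ S ∧ insert w S ∈ c.D)).card := by
    refine card_nbij' (fun S => S.erase w) (fun S => insert w S) ?_ ?_ ?_ ?_
    · intro S hS
      rw [mem_coe, mem_filter] at hS ⊢
      refine ⟨hS.2.2, notMem_erase w S, ?_⟩
      rw [insert_erase hS.2.1]; exact hS.1
    · intro S hS
      rw [mem_coe, mem_filter] at hS ⊢
      refine ⟨hS.2.2, mem_insert_self w S, ?_⟩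
      rw [erase_insert hS.2.1]; exact hS.1
    · intro S hS
      rw [mem_coe, mem_filter] at hS
      exact insert_erase hS.2.1
    · intro S hS
      rw [mem_coe, mem_filter] at hS
      exact erase_insert hS.2.1
  omega

private lemma TG_edge (w : V) (hP : ∀ e ∈ c.E, c.D.card ≤ 2 * (c.D.filter (fun S => e ⊆ S)).card)
    (e : Finset V) (he : e ∈ c.tri w) :
    2 * ((c.D.filter (fun S => w ∈ S)).filter (fun S => ¬ e ⊆ S)).card +
      (c.D.filter (fun X => w ∉ X ∧ insert w X ∉ c.D)).card ≤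
      (c.D.filter (fun S => w ∈ S ∧ S.erase w ∉ c.D)).card := by
  have h1 := c.TG_cards w
  have h2 : (c.D.filter (fun S => w ∈ S)).card + (c.D.filter (fun S => w ∉ S)).card = c.D.card :=
    card_filter_add_card_filter_not (s := c.D) (fun S => w ∈ S)
  have h3 := card_filter_add_card_filter_not (s := c.D.filter (fun S => w ∈ S)) (fun S => e ⊆ S)
  have h4 := hP e (c.tri_sub w e he).1
  have h5 : (c.D.filter (fun S => w ∈ S)).filter (fun S => e ⊆ S) = c.D.filter (fun S => e ⊆ S) := by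
    rw [filter_filter]
    refine filter_congr fun S _ => ?_
    constructor
    · exact fun h => h.2
    · exact fun h => ⟨h (c.tri_sub w e he).2, h⟩
  rw [h5] at h3
  omega

private lemma TG_t_le (w : V) (S : Finset V) : c.t w S ≤ (c.tri w).card := by
  unfold t
  exact card_le_card (filter_subset _ _)

private lemma TG_key (w : V) (hP : ∀ e ∈ c.E, c.D.card ≤ 2 * (c.D.filter (fun S => e ⊆ S)).card) :
    2 * (∑ S ∈ c.D.filter (fun S => w ∈ S), ((c.tri w).card - c.t w S)) +
      (c.tri w).card * (c.D.filter (fun X => w ∉ X ∧ insert w X ∉ c.D)).card ≤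
      (c.tri w).card * (c.D.filter (fun S => w ∈ S ∧ S.erase w ∉ c.D)).card := by
  have h1 : ∑ S ∈ c.D.filter (fun S => w ∈ S), ((c.tri w).card - c.t w S) =
      ∑ e ∈ c.tri w, ((c.D.filter (fun S => w ∈ S)).filter (fun S => ¬ e ⊆ S)).card := by
    have h2 : ∀ S : Finset V, (c.tri w).card - c.t w S = ∑ e ∈ c.tri w, (if ¬ e ⊆ S then 1 else 0) := by
      intro S
      have h3 := card_filter_add_card_filter_not (s := c.tri w) (fun e => e ⊆ S)
      rw [← card_filter]
      unfold t
      omega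
    simp only [h2]
    rw [sum_comm]
    refine sum_congr rfl fun e _ => ?_
    rw [card_filter]
  rw [h1, mul_sum]
  have h2 : ∑ e ∈ c.tri w, (2 * ((c.D.filter (fun S => w ∈ S)).filter (fun S => ¬ e ⊆ S)).card +
      (c.D.filter (fun X => w ∉ X ∧ insert w X ∉ c.D)).card) ≤
      ∑ _e ∈ c.tri w, (c.D.filter (fun S => w ∈ S ∧ S.erase w ∉ c.D)).card :=
    sum_le_sum fun e he => c.TG_edge w hP e he
  rw [sum_add_distrib, sum_const, sum_const, smul_eq_mul, smul_eq_mul] at h2
  exact h2

/-- the capacity outside -/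
private lemma TG_B (w : V) (k : ℕ) :
    ∑ T ∈ c.D.filter (fun S => w ∉ S), (if insert w T ∈ c.D then 0 else k) =
      k * (c.D.filter (fun X => w ∉ X ∧ insert w X ∉ c.D)).card := by
  have h : ∀ T ∈ c.D.filter (fun S => w ∉ S), (if insert w T ∈ c.D then 0 else k) =
      (if insert w T ∉ c.D then k else 0) := by
    intro T _
    by_cases hT : insert w T ∈ c.D
    · rw [if_pos hT, if_neg (not_not.2 hT)]
    · rw [if_neg hT, if_pos hT]
  rw [sum_congr rfl h, ← sum_filter, filter_filter, sum_const, smul_eq_mul, mul_comm]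

private lemma TG_one (w : V) (hP : ∀ e ∈ c.E, c.D.card ≤ 2 * (c.D.filter (fun S => e ⊆ S)).card) :
    ∑ T ∈ c.D, c.cap w T ≤ (c.D.filter (fun S => w ∈ S ∧ S.erase w ∉ c.D)).card * c.cost w := by
  have hsplit := sum_filter_add_sum_filter_not c.D (fun S => w ∈ S) (fun T => c.cap w T)
  rw [← hsplit]
  have hkey := c.TG_key w hP
  by_cases hW : isW c.E w
  · rw [c.cost_W hW]
    have hA : ∑ T ∈ c.D.filter (fun S => w ∈ S), c.cap w T =
        8 * ∑ S ∈ c.D.filter (fun S => w ∈ S), ((c.tri w).card - c.t w S) := by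
      rw [mul_sum]
      refine sum_congr rfl fun T hT => ?_
      rw [mem_filter] at hT
      unfold cap
      rw [if_pos hW, if_pos hT.2, c.tri_W w hW]
      omega
    have hB : ∑ T ∈ c.D.filter (fun S => ¬ w ∈ S), c.cap w T =
        12 * (c.D.filter (fun X => w ∉ X ∧ insert w X ∉ c.D)).card := by
      rw [← c.TG_B w 12]
      refine sum_congr rfl fun T hT => ?_
      rw [mem_filter] at hT
      unfold cap
      rw [if_pos hW, if_neg hT.2]
    rw [hA, hB]
    rw [c.tri_W w hW] at hkey ⊢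
    omega
  · by_cases hR : isR c.E w
    · rw [c.cost_R hR]
      have hB : ∑ T ∈ c.D.filter (fun S => ¬ w ∈ S), c.cap w T =
          6 * (c.D.filter (fun X => w ∉ X ∧ insert w X ∉ c.D)).card := by
        rw [← c.TG_B w 6]
        refine sum_congr rfl fun T hT => ?_
        rw [mem_filter] at hT
        unfold cap
        rw [if_neg hW, if_pos hR, if_neg hT.2]
      rcases c.tri_R w hR with h3 | h2
      · have hA : ∑ T ∈ c.D.filter (fun S => w ∈ S), c.cap w T =
            4 * ∑ S ∈ c.D.filter (fun S => w ∈ S), ((c.tri w).card - c.t w S) := by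
          rw [mul_sum]
          refine sum_congr rfl fun T hT => ?_
          rw [mem_filter] at hT
          unfold cap
          rw [if_neg hW, if_pos hR, if_pos hT.2, if_pos h3.1, h3.1]
          omega
        rw [hA, hB]
        rw [h3.1] at hkey ⊢
        omega
      · have hA : ∑ T ∈ c.D.filter (fun S => w ∈ S), c.cap w T =
            6 * ∑ S ∈ c.D.filter (fun S => w ∈ S), ((c.tri w).card - c.t w S) := by
          rw [mul_sum]
          refine sum_congr rfl fun T hT => ?_
          rw [mem_filter] at hT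
          unfold cap
          have h23 : ¬ (c.tri w).card = 3 := by rw [h2.1]; norm_num
          rw [if_neg hW, if_pos hR, if_pos hT.2, if_neg h23, h2.1]
          omega
        rw [hA, hB]
        rw [h2.1] at hkey ⊢
        omega
    · have h0 : ∀ T, c.cap w T = 0 := by
        intro T
        unfold cap
        rw [if_neg hW, if_neg hR]
      simp only [h0, sum_const_zero, add_zero, Nat.zero_le]

theorem toggle (hP : ∀ e ∈ c.E, c.D.card ≤ 2 * (c.D.filter (fun S => e ⊆ S)).card) :
    ∑ w, ∑ T ∈ c.D, c.cap w T ≤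
      ∑ p, ∑ _S ∈ c.D.filter (fun S => p ∈ S ∧ S.erase p ∉ c.D), c.cost p := by
  refine sum_le_sum fun w _ => ?_
  rw [sum_const, smul_eq_mul]
  exact c.TG_one w hP

end Ctx
end H70G3

end S_TG

section S_Core

/-!
# Row Core : all vertices are loops

Suppose v0 is not a loop.  `toggle` and `cost_le_load`: Σ_w Σ_T cap w T ≤ Σ_{w ∈ Ws} Σ_T ldW w T + Σ_{y ∈ Rs} Σ_S ldR y S.
Σ_w Σ_T cap ≥ Σ_{w ∈ Ws} Σ_T cap + Σ_{y ∈ Rs} Σ_T cap (Ws, Rs disjoint: `W_not_R`).
Case W nonempty, w ∈ W, v = ctr w: there is T ∈ D, w ∈ T, card (at' E T w) = 1: if {w,v} ∈ E take T = {w,v} (edges at w contain w and v, so an edge at w inside {w,v} is {w,v}); otherwise take any edge e at w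
 (c.cov): an edge g ∋ w, g ⊆ e contains w, v and is not {w,v}; card e ≤ 3 so g = e.  T ∈ D by `edge_D`.  `ldW_lt` at (w,T), `ldW_le` elsewhere, `sum_ldR_le`: strict inequality, contradiction.
Case W empty: then no centres (`rep_isW`), so v0 ∈ R (`four`): `sum_ldR_lt` for v0, `sum_ldR_le` for the others: contradiction.
-/

open Finset Classical

universe u

namespace H70G3
namespace Ctx
variable {V : Type u} [Fintype V] [DecidableEq V] (c : Ctx V)

/-- a slot with exactly one edge -/
lemma exists_one {w : V} (hw : isW c.E w) :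
    ∃ T ∈ c.D, w ∈ T ∧ (at' c.E T w).card = 1 := by
  have hv := c.ctr_Dm hw
  by_cases hE : ({w, c.ctr w} : Finset V) ∈ c.E
  · refine ⟨{w, c.ctr w}, c.edge_D hE, by simp, ?_⟩
    rw [card_eq_one]
    refine ⟨{w, c.ctr w}, ?_⟩
    rw [eq_singleton_iff_unique_mem]
    refine ⟨by rw [mem_at]; exact ⟨hE, by simp, Subset.refl _⟩, ?_⟩
    intro g hg
    rw [mem_at] at hg
    apply Subset.antisymm hg.2.2
    intro x hx
    simp only [mem_insert, mem_singleton] at hx
    rcases hx with rfl | rfl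
    · exact hg.2.1
    · exact c.W_edge hw hg.1 hg.2.1
  · obtain ⟨e, he, hwe⟩ := c.cov w
    refine ⟨e, c.edge_D he, hwe, ?_⟩
    rw [card_eq_one]
    refine ⟨e, ?_⟩
    rw [eq_singleton_iff_unique_mem]
    refine ⟨by rw [mem_at]; exact ⟨he, hwe, Subset.refl _⟩, ?_⟩
    intro g hg
    rw [mem_at] at hg
    apply eq_of_subset_of_card_le hg.2.2
    have h3 := c.card_le e he
    have hsub : ({w, c.ctr w} : Finset V) ⊆ g := by
      intro x hx
      simp only [mem_insert, mem_singleton] at hx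
      rcases hx with rfl | rfl
      · exact hg.2.1
      · exact c.W_edge hw hg.1 hg.2.1
    have hne : ({w, c.ctr w} : Finset V) ≠ g := by
      rintro rfl; exact hE hg.1
    have h2 : ({w, c.ctr w} : Finset V).card < g.card := card_lt_card (hsub.ssubset_of_ne hne)
    have h2' : ({w, c.ctr w} : Finset V).card = 2 := card_pair hv.1
    omega

theorem all_loops (hP : ∀ e ∈ c.E, c.D.card ≤ 2 * (c.D.filter (fun S => e ⊆ S)).card) (v : V) :
    isL c.E v := by
  by_contra hv
  have h1 := (c.toggle hP).trans c.cost_le_load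
  have hdisj : Disjoint c.Ws c.Rs := by
    rw [disjoint_left]
    intro x hx hx2
    simp only [Ws, Rs, mem_filter, mem_univ, true_and] at hx hx2
    exact c.W_not_R hx hx2
  have h2 : ∑ w ∈ c.Ws, ∑ T ∈ c.D, c.cap w T + ∑ y ∈ c.Rs, ∑ T ∈ c.D, c.cap y T ≤
      ∑ w, ∑ T ∈ c.D, c.cap w T := by
    rw [← sum_union hdisj]
    exact sum_le_sum_of_subset (subset_univ _)
  have hWle : ∀ w ∈ c.Ws, ∑ T ∈ c.D, c.ldW w T ≤ ∑ T ∈ c.D, c.cap w T := by
    intro w hw
    simp only [Ws, mem_filter, mem_univ, true_and] at hw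
    exact sum_le_sum fun T hT => c.ldW_le hw hT
  have hRle : ∀ y ∈ c.Rs, ∑ S ∈ c.D, c.ldR y S ≤ ∑ T ∈ c.D, c.cap y T := by
    intro y hy
    simp only [Rs, mem_filter, mem_univ, true_and] at hy
    exact c.sum_ldR_le hy
  by_cases hW : ∃ w, isW c.E w
  · obtain ⟨w, hw⟩ := hW
    obtain ⟨T, hT, hwT, hc⟩ := c.exists_one hw
    have h3 : ∑ w ∈ c.Ws, ∑ T ∈ c.D, c.ldW w T < ∑ w ∈ c.Ws, ∑ T ∈ c.D, c.cap w T := by
      apply sum_lt_sum hWle
      refine ⟨w, by simp [Ws, hw], ?_⟩
      apply sum_lt_sum (fun T hT => c.ldW_le hw hT)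
      exact ⟨T, hT, c.ldW_lt hw hT hwT hc⟩
    have h4 := sum_le_sum hRle
    omega
  · push Not at hW
    have hvR : isR c.E v := by
      rcases c.four v with h | h | h | h
      · exact absurd h (hW v)
      · exact absurd (c.rep_isW h) (hW _)
      · exact absurd h hv
      · exact h
    have h3 : ∑ y ∈ c.Rs, ∑ S ∈ c.D, c.ldR y S < ∑ y ∈ c.Rs, ∑ T ∈ c.D, c.cap y T := by
      apply sum_lt_sum hRle
      exact ⟨v, by simp [Rs, hvR], c.sum_ldR_lt hvR hW⟩
    have h4 := sum_le_sum hWle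
    omega

end Ctx
end H70G3

end S_Core

section S_JDefs

/-!
# MP_75f39d_G3 : the family side, definitions
-/

open Finset Classical

universe u

namespace H70G3
variable {α : Type u} [DecidableEq α]

/-- union-closed -/
def UC (A : Finset (Finset α)) : Prop := ∀ X ∈ A, ∀ Y ∈ A, X ∪ Y ∈ A

/-- separating -/
def Sep (A : Finset (Finset α)) : Prop :=
  ∀ x ∈ A.sup id, ∀ y ∈ A.sup id, x ≠ y → ∃ S ∈ A, (x ∈ S ∧ y ∉ S) ∨ (y ∈ S ∧ x ∉ S)

/-- join-irreducible member -/
def JI (A : Finset (Finset α)) (G : Finset α) : Prop :=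
  G ≠ ∅ ∧ ∀ B ∈ A, ∀ C ∈ A, B ∪ C = G → B = G ∨ C = G

/-- the set of join-irreducible members -/
noncomputable def J (A : Finset (Finset α)) : Finset (Finset α) := A.filter (fun G => JI A G)

/-- the join-irreducible members containing `x` -/
noncomputable def g (A : Finset (Finset α)) (x : α) : Finset {G // G ∈ J A} :=
  univ.filter (fun G => x ∈ G.1)

/-- the hypergraph of a family -/
noncomputable def EE (A : Finset (Finset α)) : Finset (Finset {G // G ∈ J A}) :=
  (A.sup id).image (g A)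

/-- the join-irreducible members not contained in `B` -/
noncomputable def phi (A : Finset (Finset α)) (B : Finset α) : Finset {G // G ∈ J A} :=
  univ.filter (fun G => ¬ G.1 ⊆ B)

end H70G3

end S_JDefs

section S_Ja

/-!
# Row Ja : join-irreducible members generate

exists_J: strong induction on card B.  x ∈ B so B ≠ ∅.  If B is JI take G = B.  Otherwise there are C1, C2 ∈ A with C1 ∪ C2 = B, C1 ≠ B, C2 ≠ B; so C1, C2 ⊂ B have smaller
 cardinality and x is in one of them: induction.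
sup_mem: F ⊆ A, ∅ ∈ A, union-closed: induction on F (Finset.sup_induction or Finset.induction).
JI_mem: G JI, F ⊆ A with F.sup id = G ⇒ G ∈ F: induction on F: F = insert C F': C ∪ F'.sup id = G with C, F'.sup id ∈ A (sup_mem): C = G or F'.sup id = G; F = ∅: G = ∅ no.
-/

open Finset Classical

universe u

namespace H70G3
variable {α : Type u} [DecidableEq α]

theorem exists_J {A : Finset (Finset α)} (hU : UC A) {B : Finset α} (hB : B ∈ A) {x : α}
    (hx : x ∈ B) : ∃ G ∈ J A, x ∈ G ∧ G ⊆ B := by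
  induction hn : B.card using Nat.strong_induction_on generalizing B with
  | _ n ih =>
    by_cases hJ : JI A B
    · refine ⟨B, ?_, hx, Subset.refl _⟩
      unfold J
      rw [mem_filter]
      exact ⟨hB, hJ⟩
    · unfold JI at hJ
      rw [not_and_or] at hJ
      rcases hJ with hJ | hJ
      · rw [not_not] at hJ
        rw [hJ] at hx
        exact absurd hx (notMem_empty x)
      · push Not at hJ
        obtain ⟨C1, hC1, C2, hC2, hU12, hne1, hne2⟩ := hJ
        have hs1 : C1 ⊆ B := by rw [← hU12]; exact subset_union_left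
        have hs2 : C2 ⊆ B := by rw [← hU12]; exact subset_union_right
        have hx' := hx
        rw [← hU12, mem_union] at hx'
        rcases hx' with h | h
        · have hlt : C1.card < n := by
            rw [← hn]
            exact card_lt_card (hs1.ssubset_of_ne hne1)
          obtain ⟨G, hG, hxG, hGC⟩ := ih _ hlt hC1 h rfl
          exact ⟨G, hG, hxG, hGC.trans hs1⟩
        · have hlt : C2.card < n := by
            rw [← hn]
            exact card_lt_card (hs2.ssubset_of_ne hne2)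
          obtain ⟨G, hG, hxG, hGC⟩ := ih _ hlt hC2 h rfl
          exact ⟨G, hG, hxG, hGC.trans hs2⟩

theorem sup_mem_of_subset {A F : Finset (Finset α)} (hU : UC A) (h0 : ∅ ∈ A) (hF : F ⊆ A) :
    F.sup id ∈ A := by
  induction F using Finset.induction_on with
  | empty => rw [sup_empty]; exact h0
  | insert C F' _ ih =>
    rw [sup_insert]
    exact hU _ (hF (mem_insert_self _ _)) _ (ih ((subset_insert _ _).trans hF))

theorem JI_mem_of_sup {A F : Finset (Finset α)} (hU : UC A) (h0 : ∅ ∈ A) (hF : F ⊆ A)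
    {G : Finset α} (hG : JI A G) (h : F.sup id = G) : G ∈ F := by
  induction F using Finset.induction_on with
  | empty =>
    rw [sup_empty] at h
    exact absurd h.symm hG.1
  | insert C F' _ ih =>
    rw [sup_insert] at h
    have hF' : F' ⊆ A := (subset_insert _ _).trans hF
    rcases hG.2 C (hF (mem_insert_self _ _)) _ (sup_mem_of_subset hU h0 hF') h with h1 | h1
    · rw [← h1]; exact mem_insert_self _ _
    · exact mem_insert_of_mem (ih hF' h1)

end H70G3

end S_Ja

section S_Jb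

/-!
# Row Jb : the dual family

B ↦ phi A B is a bijection from A onto Dset (EE A), and for B ∈ A, x ∈ A.sup id: x ∉ B ↔ g A x ⊆ phi A B.
(1) phi A B ∈ Dset: G ∈ phi: there is x ∈ G.1, x ∉ B; x ∈ A.sup id; e := g A x ∈ EE A, G ∈ e, e ⊆ phi A B (x ∈ G', x ∉ B ⇒ ¬ G' ⊆ B).
(2) injective: B = union of the G ∈ J A with G ⊆ B (`exists_J`), so phi A B = phi A B' ⇒ the same G are contained ⇒ B ⊆ B' and B' ⊆ B.
(3) surjective: S ∈ Dset (EE A): B := ((univ.filter (fun G => G ∉ S)).image Subtype.val).sup id ∈ A (`sup_mem_of_subset`; J A ⊆ A).  phi A B = S: G ∉ S ⇒ G.1 ⊆ B ⇒ G ∉ phi.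
    G ∈ S ⇒ there is x with G ∈ g A x ⊆ S; x ∉ G' for all G' ∉ S, so x ∉ B, x ∈ G.1: G ∈ phi.
(4) x ∉ B ⇒ g A x ⊆ phi A B clear; x ∈ B ⇒ there is G ∈ J A, x ∈ G ⊆ B (`exists_J`): G ∈ g A x, G ∉ phi A B.
card_D from (1)-(3) (card_bij); card_sup from (4) in addition.
g_inj: x ≠ y in A.sup id, S ∈ A separates, say x ∈ S, y ∉ S: G ∈ J A with x ∈ G ⊆ S, so G ∈ g A x, G ∉ g A y.
-/

open Finset Classical

universe u

namespace H70G3
variable {α : Type u} [DecidableEq α]

private lemma Jb_mem_phi {A : Finset (Finset α)} {B : Finset α} {G : {G // G ∈ J A}} :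
    G ∈ phi A B ↔ ¬ G.1 ⊆ B := by
  unfold phi
  rw [mem_filter]
  exact ⟨fun h => h.2, fun h => ⟨mem_univ _, h⟩⟩

private lemma Jb_mem_g {A : Finset (Finset α)} {x : α} {G : {G // G ∈ J A}} :
    G ∈ g A x ↔ x ∈ G.1 := by
  unfold g
  rw [mem_filter]
  exact ⟨fun h => h.2, fun h => ⟨mem_univ _, h⟩⟩

private lemma Jb_J_sub {A : Finset (Finset α)} {G : Finset α} (h : G ∈ J A) : G ∈ A :=
  (mem_filter.1 h).1

private lemma Jb_mem_sup {A : Finset (Finset α)} {G : Finset α} (h : G ∈ A) {x : α} (hx : x ∈ G) :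
    x ∈ A.sup id := by
  rw [Finset.mem_sup]
  exact ⟨G, h, hx⟩

private lemma Jb_phi_mem (A : Finset (Finset α)) (B : Finset α) : phi A B ∈ Dset (EE A) := by
  unfold Dset
  rw [mem_filter]
  refine ⟨mem_univ _, ?_⟩
  intro G hG
  rw [Jb_mem_phi, not_subset] at hG
  obtain ⟨x, hx, hxB⟩ := hG
  refine ⟨g A x, ?_, Jb_mem_g.2 hx, ?_⟩
  · unfold EE
    rw [mem_image]
    exact ⟨x, Jb_mem_sup (Jb_J_sub G.2) hx, rfl⟩
  · intro G' hG'
    rw [Jb_mem_g] at hG'
    rw [Jb_mem_phi]
    intro h
    exact hxB (h hG')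

private lemma Jb_phi_sub {A : Finset (Finset α)} (hU : UC A) {B B' : Finset α} (hB : B ∈ A)
    (h : phi A B = phi A B') : B ⊆ B' := by
  intro x hx
  obtain ⟨G, hG, hxG, hGB⟩ := exists_J hU hB hx
  have h1 : (⟨G, hG⟩ : {G // G ∈ J A}) ∉ phi A B := by
    rw [Jb_mem_phi, not_not]; exact hGB
  rw [h, Jb_mem_phi, not_not] at h1
  exact h1 hxG

private lemma Jb_phi_inj {A : Finset (Finset α)} (hU : UC A) {B B' : Finset α} (hB : B ∈ A)
    (hB' : B' ∈ A) (h : phi A B = phi A B') : B = B' :=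
  Subset.antisymm (Jb_phi_sub hU hB h) (Jb_phi_sub hU hB' h.symm)

private lemma Jb_phi_surj {A : Finset (Finset α)} (hU : UC A) (h0 : ∅ ∈ A)
    {S : Finset {G // G ∈ J A}} (hS : S ∈ Dset (EE A)) : ∃ B ∈ A, phi A B = S := by
  unfold Dset at hS
  rw [mem_filter] at hS
  obtain ⟨_, hS⟩ := hS
  obtain ⟨B, hB⟩ : ∃ B, B = (((univ : Finset {G // G ∈ J A}).filter (fun G => G ∉ S)).image
    Subtype.val).sup id := ⟨_, rfl⟩
  have hmem : ∀ x, x ∈ B ↔ ∃ G : {G // G ∈ J A}, G ∉ S ∧ x ∈ G.1 := by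
    intro x
    rw [hB, Finset.mem_sup]
    constructor
    · rintro ⟨G, hG, hx⟩
      rw [mem_image] at hG
      obtain ⟨G', hG', rfl⟩ := hG
      exact ⟨G', (mem_filter.1 hG').2, hx⟩
    · rintro ⟨G, hG, hx⟩
      exact ⟨G.1, mem_image.2 ⟨G, mem_filter.2 ⟨mem_univ _, hG⟩, rfl⟩, hx⟩
  refine ⟨B, ?_, ?_⟩
  · rw [hB]
    apply sup_mem_of_subset hU h0
    intro G hG
    rw [mem_image] at hG
    obtain ⟨G', _, rfl⟩ := hG
    exact Jb_J_sub G'.2
  · ext G
    rw [Jb_mem_phi]
    constructor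
    · intro h
      by_contra hGS
      apply h
      intro x hx
      rw [hmem]
      exact ⟨G, hGS, hx⟩
    · intro hG h
      obtain ⟨e, he, hGe, heS⟩ := hS G hG
      unfold EE at he
      rw [mem_image] at he
      obtain ⟨x, _, rfl⟩ := he
      rw [Jb_mem_g] at hGe
      obtain ⟨G', hG', hx⟩ := (hmem x).1 (h hGe)
      exact hG' (heS (Jb_mem_g.2 hx))

theorem card_D {A : Finset (Finset α)} (hU : UC A) (h0 : ∅ ∈ A) :
    (Dset (EE A)).card = A.card := by
  symm
  refine Finset.card_bij (fun B _ => phi A B) ?_ ?_ ?_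
  · intro B _
    exact Jb_phi_mem A B
  · intro B hB B' hB' h
    exact Jb_phi_inj hU hB hB' h
  · intro S hS
    obtain ⟨B, hB, h⟩ := Jb_phi_surj hU h0 hS
    exact ⟨B, hB, h⟩

theorem card_sup {A : Finset (Finset α)} (hU : UC A) (h0 : ∅ ∈ A) {x : α} (hx : x ∈ A.sup id) :
    ((Dset (EE A)).filter (fun S => g A x ⊆ S)).card = (A.filter (fun B => x ∉ B)).card := by
  symm
  refine Finset.card_bij (fun B _ => phi A B) ?_ ?_ ?_
  · intro B hB
    rw [mem_filter] at hB ⊢
    refine ⟨Jb_phi_mem A B, ?_⟩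
    intro G hG
    rw [Jb_mem_g] at hG
    rw [Jb_mem_phi]
    intro h
    exact hB.2 (h hG)
  · intro B hB B' hB' h
    exact Jb_phi_inj hU (mem_filter.1 hB).1 (mem_filter.1 hB').1 h
  · intro S hS
    rw [mem_filter] at hS
    obtain ⟨B, hB, h⟩ := Jb_phi_surj hU h0 hS.1
    refine ⟨B, ?_, h⟩
    rw [mem_filter]
    refine ⟨hB, ?_⟩
    intro hxB
    obtain ⟨G, hG, hxG, hGB⟩ := exists_J hU hB hxB
    have h1 : (⟨G, hG⟩ : {G // G ∈ J A}) ∈ S := hS.2 (Jb_mem_g.2 hxG)
    rw [← h, Jb_mem_phi] at h1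
    exact h1 hGB

theorem g_inj {A : Finset (Finset α)} (hU : UC A) (hs : Sep A) {x y : α} (hx : x ∈ A.sup id)
    (hy : y ∈ A.sup id) (h : g A x = g A y) : x = y := by
  by_contra hne
  obtain ⟨S, hS, h1 | h1⟩ := hs x hx y hy hne
  · obtain ⟨G, hG, hxG, hGB⟩ := exists_J hU hS h1.1
    have h2 : (⟨G, hG⟩ : {G // G ∈ J A}) ∈ g A x := Jb_mem_g.2 hxG
    rw [h, Jb_mem_g] at h2
    exact h1.2 (hGB h2)
  · obtain ⟨G, hG, hxG, hGB⟩ := exists_J hU hS h1.1
    have h2 : (⟨G, hG⟩ : {G // G ∈ J A}) ∈ g A y := Jb_mem_g.2 hxG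
    rw [← h, Jb_mem_g] at h2
    exact h1.2 (hGB h2)

end H70G3

end S_Jb

section S_Jc

/-!
# Row Jc : domination in the hypergraph of a family

cov_EE: G ∈ J A, G.1 ≠ ∅, x ∈ G.1 ∈ A, so x ∈ A.sup id, G ∈ g A x.
Dm_iff: (⇐) G.1 ⊂ G'.1: G ≠ G'; an edge at G is g A x with x ∈ G.1 ⊆ G'.1.  (⇒) x ∈ G.1 ⇒ x ∈ A.sup id, g A x ∈ EE A contains G so contains G': x ∈ G'.1; so G.1 ⊆ G'.1, and ≠.
uniq_EE: G1.1 ⊂ G2.1, G1.1 ⊂ G3.1, G2 ≠ G3.  For every x ∈ G1.1: G1, G2, G3 ∈ g A x (three different), card ≤ 3 (h3: card (g A x) = card ((J A).filter (x ∈ ·))), so g A x = {G1,G2,G3}.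
  By g_inj G1.1 has exactly one element x: {x} ∈ A, excluded by hns.
acyc_EE: Dm G1 G2, Dm G2 G3: G1 ⊂ G2 ⊂ G3, so Dm G1 G3 as well and G2 ≠ G3: uniq_EE.
card_le_EE: card (g A x) = card ((J A).filter (fun G => x ∈ G)) ≤ 3 (the map Subtype.val).
-/

open Finset Classical

universe u

namespace H70G3
variable {α : Type u} [DecidableEq α]

theorem Jc_mem {A : Finset (Finset α)} (G : {G // G ∈ J A}) : G.1 ∈ A ∧ JI A G.1 := by
  have hG := G.2
  unfold J at hG
  rw [Finset.mem_filter] at hG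
  exact hG

theorem Jc_sup {A : Finset (Finset α)} (G : {G // G ∈ J A}) {x : α} (hx : x ∈ G.1) :
    x ∈ A.sup id := Finset.mem_sup.2 ⟨G.1, (Jc_mem G).1, hx⟩

theorem Jc_g {A : Finset (Finset α)} (G : {G // G ∈ J A}) (x : α) : G ∈ g A x ↔ x ∈ G.1 := by
  unfold g
  rw [Finset.mem_filter]
  exact ⟨fun h => h.2, fun h => ⟨Finset.mem_univ _, h⟩⟩

theorem Jc_edge {A : Finset (Finset α)} {x : α} (hx : x ∈ A.sup id) : g A x ∈ EE A :=
  Finset.mem_image_of_mem _ hx

theorem cov_EE {A : Finset (Finset α)} (G : {G // G ∈ J A}) : ∃ e ∈ EE A, G ∈ e := by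
  obtain ⟨x, hx⟩ := Finset.nonempty_iff_ne_empty.2 (Jc_mem G).2.1
  exact ⟨g A x, Jc_edge (Jc_sup G hx), (Jc_g G x).2 hx⟩

theorem Jc_card {A : Finset (Finset α)}
    (h3 : ∀ x ∈ A.sup id, ((J A).filter (fun G => x ∈ G)).card ≤ 3) {x : α}
    (hx : x ∈ A.sup id) : (g A x).card ≤ 3 := by
  refine le_trans ?_ (h3 x hx)
  apply Finset.card_le_card_of_injOn (fun G => G.1)
  · intro G hG
    have h1 := (Jc_g G x).1 hG
    exact Finset.mem_filter.2 ⟨G.2, h1⟩
  · intro G _ G' _ h
    exact Subtype.ext h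

theorem card_le_EE {A : Finset (Finset α)}
    (h3 : ∀ x ∈ A.sup id, ((J A).filter (fun G => x ∈ G)).card ≤ 3) :
    ∀ e ∈ EE A, e.card ≤ 3 := by
  intro e he
  unfold EE at he
  obtain ⟨x, hx, rfl⟩ := Finset.mem_image.1 he
  exact Jc_card h3 hx

theorem Dm_iff {A : Finset (Finset α)} (G G' : {G // G ∈ J A}) :
    Dm (EE A) G G' ↔ G.1 ⊂ G'.1 := by
  constructor
  · intro h
    have hsub : G.1 ⊆ G'.1 := by
      intro x hx
      have h1 := h.2 (g A x) (Jc_edge (Jc_sup G hx)) ((Jc_g G x).2 hx)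
      exact (Jc_g G' x).1 h1
    refine Finset.ssubset_iff_subset_ne.2 ⟨hsub, fun h2 => h.1 (Subtype.ext h2)⟩
  · intro h
    refine ⟨fun h2 => ?_, fun e he hG => ?_⟩
    · rw [h2] at h
      exact (Finset.ssubset_iff_subset_ne.1 h).2 rfl
    · unfold EE at he
      obtain ⟨x, hx, rfl⟩ := Finset.mem_image.1 he
      exact (Jc_g G' x).2 (h.1 ((Jc_g G x).1 hG))

theorem uniq_EE {A : Finset (Finset α)} (hU : UC A) (hs : Sep A)
    (h3 : ∀ x ∈ A.sup id, ((J A).filter (fun G => x ∈ G)).card ≤ 3)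
    (hns : ∀ x, ({x} : Finset α) ∉ A) (G1 G2 G3 : {G // G ∈ J A})
    (h12 : Dm (EE A) G1 G2) (h13 : Dm (EE A) G1 G3) : G2 = G3 := by
  by_contra hne
  have s12 := (Dm_iff G1 G2).1 h12
  have s13 := (Dm_iff G1 G3).1 h13
  have key : ∀ x ∈ G1.1, g A x = {G1, G2, G3} := by
    intro x hx
    have hsub : ({G1, G2, G3} : Finset {G // G ∈ J A}) ⊆ g A x := by
      intro G hG
      simp only [Finset.mem_insert, Finset.mem_singleton] at hG
      rcases hG with rfl | rfl | rfl
      · exact (Jc_g _ x).2 hx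
      · exact (Jc_g _ x).2 (s12.1 hx)
      · exact (Jc_g _ x).2 (s13.1 hx)
    have hcard : ({G1, G2, G3} : Finset {G // G ∈ J A}).card = 3 :=
      Finset.card_eq_three.2 ⟨G1, G2, G3, h12.1, h13.1, hne, rfl⟩
    exact (Finset.eq_of_subset_of_card_le hsub (by
      rw [hcard]
      exact Jc_card h3 (Jc_sup G1 hx))).symm
  obtain ⟨x, hx⟩ := Finset.nonempty_iff_ne_empty.2 (Jc_mem G1).2.1
  have h1 : G1.1 = {x} := by
    refine Finset.eq_singleton_iff_unique_mem.2 ⟨hx, fun y hy => ?_⟩
    exact g_inj hU hs (Jc_sup G1 hy) (Jc_sup G1 hx) ((key y hy).trans (key x hx).symm)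
  have h2 := (Jc_mem G1).1
  rw [h1] at h2
  exact hns x h2

theorem acyc_EE {A : Finset (Finset α)} (hU : UC A) (hs : Sep A)
    (h3 : ∀ x ∈ A.sup id, ((J A).filter (fun G => x ∈ G)).card ≤ 3)
    (hns : ∀ x, ({x} : Finset α) ∉ A) (G1 G2 G3 : {G // G ∈ J A})
    (h12 : Dm (EE A) G1 G2) : ¬ Dm (EE A) G2 G3 := by
  intro h23
  have s12 := (Dm_iff G1 G2).1 h12
  have s23 := (Dm_iff G2 G3).1 h23
  have h13 : Dm (EE A) G1 G3 := (Dm_iff G1 G3).2 (s12.trans s23)
  exact h23.1 (uniq_EE hU hs h3 hns G1 G2 G3 h12 h13)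

end H70G3

end S_Jc

section S_Jd

/-!
# Row Jd : two-element members

sdiff_mem: for B ∈ A put s(B) = [x ∈ B] + [y ∈ B] - 1.  Σ_B s(B) = f(x) + f(y) - |A| ≤ 0.  N := {B : x, y ∉ B} (s = -1), P := {B : x, y ∈ B} (s = 1), otherwise s = 0.  So card P ≤ card N.
  The map B ↦ B ∪ {x,y} is injective from N to P, so card N = card P and it is onto P: every C ∈ P is B ∪ {x,y} with B ∈ N, i.e. C \ {x,y} = B ∈ A.  For arbitrary B ∈ A: B ∪ {x,y} ∈ P, so
  (B ∪ {x,y}) \ {x,y} = B \ {x,y} ∈ A.
pair_gen: G ∈ J A, G ≠ {x,y}, G meets {x,y}.  B := G \ {x,y} ∈ A.  If x, y ∈ G then G = B ∪ {x,y} with B ≠ G, {x,y} ≠ G: contradicts JI.  So exactly one of x, y is in G.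
  B ≠ ∅ (otherwise G = {x} or {y} ∈ A).  z ∈ B: `exists_J` (B ∈ A) gives G' ∈ J A, z ∈ G' ⊆ B ⊂ G.
-/

open Finset Classical

universe u

namespace H70G3
variable {α : Type u} [DecidableEq α]

theorem sdiff_mem {A : Finset (Finset α)} (hU : UC A) {x y : α} (hxy : x ≠ y)
    (hm : ({x, y} : Finset α) ∈ A) (hx : 2 * (A.filter (fun B => x ∈ B)).card ≤ A.card)
    (hy : 2 * (A.filter (fun B => y ∈ B)).card ≤ A.card) : ∀ B ∈ A, B \ {x, y} ∈ A := by
  obtain ⟨N, hN⟩ : ∃ N : Finset (Finset α), N = A.filter (fun B => x ∉ B ∧ y ∉ B) := ⟨_, rfl⟩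
  obtain ⟨P, hP⟩ : ∃ P : Finset (Finset α), P = A.filter (fun B => x ∈ B ∧ y ∈ B) := ⟨_, rfl⟩
  have c1 : (A.filter (fun B => x ∈ B)).card =
      P.card + (A.filter (fun B => x ∈ B ∧ y ∉ B)).card := by
    rw [hP, ← filter_filter, ← filter_filter]
    exact (card_filter_add_card_filter_not (s := A.filter (fun B => x ∈ B)) (fun B => y ∈ B)).symm
  have c2 : (A.filter (fun B => x ∉ B)).card =
      (A.filter (fun B => x ∉ B ∧ y ∈ B)).card + N.card := by
    rw [hN, ← filter_filter, ← filter_filter]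
    exact (card_filter_add_card_filter_not (s := A.filter (fun B => x ∉ B)) (fun B => y ∈ B)).symm
  have c3 : (A.filter (fun B => y ∈ B)).card =
      P.card + (A.filter (fun B => x ∉ B ∧ y ∈ B)).card := by
    have h1 := card_filter_add_card_filter_not (s := A.filter (fun B => y ∈ B)) (fun B => x ∈ B)
    rw [filter_filter, filter_filter] at h1
    have h2 : A.filter (fun B => y ∈ B ∧ x ∈ B) = P := by
      rw [hP]
      exact filter_congr fun B _ => and_comm
    have h3 : A.filter (fun B => y ∈ B ∧ x ∉ B) = A.filter (fun B => x ∉ B ∧ y ∈ B) :=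
      filter_congr fun B _ => and_comm
    rw [h2, h3] at h1
    exact h1.symm
  have c4 : A.card = (A.filter (fun B => x ∈ B)).card + (A.filter (fun B => x ∉ B)).card :=
    (card_filter_add_card_filter_not (s := A) (fun B => x ∈ B)).symm
  have hle : P.card ≤ N.card := by omega
  have hinj : Set.InjOn (fun B : Finset α => B ∪ {x, y}) (N : Set (Finset α)) := by
    intro B hB C hC h
    rw [hN, mem_coe, mem_filter] at hB hC
    have hd : ∀ {B : Finset α}, x ∉ B → y ∉ B → (B ∪ {x, y}) \ {x, y} = B := by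
      intro B h1 h2
      ext z
      simp only [mem_sdiff, mem_union, mem_insert, mem_singleton]
      constructor
      · tauto
      · intro hz
        refine ⟨Or.inl hz, ?_⟩
        rintro (rfl | rfl)
        · exact h1 hz
        · exact h2 hz
    rw [← hd hB.2.1 hB.2.2, ← hd hC.2.1 hC.2.2]
    exact congrArg (fun D => D \ {x, y}) h
  have himg : N.image (fun B : Finset α => B ∪ {x, y}) ⊆ P := by
    intro C hC
    obtain ⟨B, hB, rfl⟩ := mem_image.1 hC
    rw [hN, mem_filter] at hB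
    rw [hP, mem_filter]
    exact ⟨hU _ hB.1 _ hm, by simp, by simp⟩
  have heq : N.image (fun B : Finset α => B ∪ {x, y}) = P := by
    refine eq_of_subset_of_card_le himg ?_
    rw [card_image_of_injOn hinj]
    exact hle
  intro B hB
  have hC : B ∪ {x, y} ∈ P := by
    rw [hP, mem_filter]
    exact ⟨hU _ hB _ hm, by simp, by simp⟩
  rw [← heq, mem_image] at hC
  obtain ⟨B', hB', he⟩ := hC
  rw [hN, mem_filter] at hB'
  have h1 : B \ {x, y} = B' := by
    ext z
    have h2 : z ∈ B' ∪ {x, y} ↔ z ∈ B ∪ {x, y} := by rw [he]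
    simp only [mem_union, mem_insert, mem_singleton] at h2
    simp only [mem_sdiff, mem_insert, mem_singleton]
    constructor
    · rintro ⟨h3, h4⟩
      rcases h2.2 (Or.inl h3) with h5 | h5
      · exact h5
      · exact absurd h5 h4
    · intro h3
      have h4 : ¬ (z = x ∨ z = y) := by
        rintro (rfl | rfl)
        · exact hB'.2.1 h3
        · exact hB'.2.2 h3
      rcases h2.1 (Or.inl h3) with h5 | h5
      · exact ⟨h5, h4⟩
      · exact absurd h5 h4
  rw [h1]
  exact hB'.1

theorem pair_gen {A : Finset (Finset α)} (hU : UC A) (hns : ∀ x, ({x} : Finset α) ∉ A) {x y : α}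
    (hxy : x ≠ y) (hm : ({x, y} : Finset α) ∈ A)
    (hx : 2 * (A.filter (fun B => x ∈ B)).card ≤ A.card)
    (hy : 2 * (A.filter (fun B => y ∈ B)).card ≤ A.card) {G : Finset α} (hG : G ∈ J A)
    (hne : G ≠ {x, y}) (hmeet : x ∈ G ∨ y ∈ G) :
    ¬ (x ∈ G ∧ y ∈ G) ∧ ∃ G' ∈ J A, G' ⊂ G := by
  have hGA : G ∈ A := (mem_filter.1 hG).1
  have hJI : JI A G := (mem_filter.1 hG).2
  have hB := sdiff_mem hU hxy hm hx hy G hGA
  have hboth : ¬ (x ∈ G ∧ y ∈ G) := by
    rintro ⟨h1, h2⟩
    have h3 : G \ {x, y} ∪ {x, y} = G := by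
      ext z
      simp only [mem_union, mem_sdiff, mem_insert, mem_singleton]
      constructor
      · rintro (h4 | rfl | rfl)
        · exact h4.1
        · exact h1
        · exact h2
      · intro h4
        by_cases h5 : z = x ∨ z = y
        · exact Or.inr h5
        · exact Or.inl ⟨h4, h5⟩
    rcases hJI.2 _ hB _ hm h3 with h4 | h4
    · have h5 : x ∈ G \ {x, y} := by rw [h4]; exact h1
      simp at h5
    · exact hne h4.symm
  refine ⟨hboth, ?_⟩
  have hsub : G \ {x, y} ⊆ G := sdiff_subset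
  have hss : G \ {x, y} ⊂ G := by
    refine ⟨hsub, fun h => ?_⟩
    rcases hmeet with h1 | h1
    · have := h h1
      simp at this
    · have := h h1
      simp at this
  have hne0 : (G \ {x, y}).Nonempty := by
    rw [nonempty_iff_ne_empty]
    intro h0
    have hsub2 : G ⊆ {x, y} := sdiff_eq_empty_iff_subset.1 h0
    rcases hmeet with h1 | h1
    · have h2 : y ∉ G := fun h => hboth ⟨h1, h⟩
      have h3 : G = {x} := by
        ext z
        rw [mem_singleton]
        constructor
        · intro hz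
          have := hsub2 hz
          rw [mem_insert, mem_singleton] at this
          rcases this with h4 | h4
          · exact h4
          · rw [h4] at hz
            exact absurd hz h2
        · rintro rfl
          exact h1
      exact hns x (h3 ▸ hGA)
    · have h2 : x ∉ G := fun h => hboth ⟨h, h1⟩
      have h3 : G = {y} := by
        ext z
        rw [mem_singleton]
        constructor
        · intro hz
          have := hsub2 hz
          rw [mem_insert, mem_singleton] at this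
          rcases this with h4 | h4
          · rw [h4] at hz
            exact absurd hz h2
          · exact h4
        · rintro rfl
          exact h1
      exact hns y (h3 ▸ hGA)
  obtain ⟨z, hz⟩ := hne0
  obtain ⟨G', hG', _, hG's⟩ := exists_J hU hB hz
  exact ⟨G', hG', lt_of_le_of_lt hG's hss⟩

end H70G3

end S_Jd

section S_Je

/-!
# Row Je : the degrees in the hypergraph of a family

Let w : {G // G ∈ J A}.  The edges at w are the g A x, x ∈ w.1 (x ∈ A.sup id since w.1 ∈ A), different for different x (`g_inj`): card ((EE A).filter (w ∈ ·)) = card w.1.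
w.1 ≠ ∅; card w.1 ≠ 1 (hns).  card w.1 ≥ 3: left alternative.  card w.1 = 2: w.1 = {x,y}, x ≠ y, {x,y} ∈ A.  Right alternative:
 card = 2.  ¬ isW: Dm w G' means {x,y} ⊂ G'.1 (`Dm_iff`): G' ≠ {x,y} contains both x and y: contradicts `pair_gen`.
 two different edges at w are g A x and g A y; G ∈ both means x, y ∈ G.1: by `pair_gen` G.1 = {x,y}, G = w.
 G ∈ g A x (or g A y), G ≠ w: `pair_gen` gives G' ∈ J A, G' ⊂ G.1: Dm ⟨G',_⟩ G (`Dm_iff`): isC G.
-/

open Finset Classical

universe u

namespace H70G3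
variable {α : Type u} [DecidableEq α]

theorem deg_EE {A : Finset (Finset α)} (hU : UC A) (hs : Sep A)
    (hns : ∀ x, ({x} : Finset α) ∉ A)
    (hf : ∀ x ∈ A.sup id, 2 * (A.filter (fun B => x ∈ B)).card ≤ A.card)
    (w : {G // G ∈ J A}) :
    3 ≤ ((EE A).filter (fun e => w ∈ e)).card ∨
    (¬ isW (EE A) w ∧ ((EE A).filter (fun e => w ∈ e)).card = 2 ∧
      (∀ e ∈ EE A, w ∈ e → ∀ f ∈ EE A, w ∈ f → e ≠ f → ∀ x ∈ e, x ∈ f → x = w) ∧
      (∀ e ∈ EE A, w ∈ e → ∀ x ∈ e, x ≠ w → isC (EE A) x)) := by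
  have hE : (EE A).filter (fun e => w ∈ e) = w.1.image (g A) := by
    ext e
    rw [mem_filter, mem_image]
    constructor
    · rintro ⟨he, hw⟩
      unfold EE at he
      obtain ⟨x, hx, rfl⟩ := mem_image.1 he
      exact ⟨x, (Jc_g w x).1 hw, rfl⟩
    · rintro ⟨x, hx, rfl⟩
      exact ⟨Jc_edge (Jc_sup w hx), (Jc_g w x).2 hx⟩
  have hcard : ((EE A).filter (fun e => w ∈ e)).card = w.1.card := by
    rw [hE]
    exact card_image_of_injOn (fun x hx y hy h => g_inj hU hs (Jc_sup w hx) (Jc_sup w hy) h)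
  rw [hcard]
  by_cases h3 : 3 ≤ w.1.card
  · exact Or.inl h3
  right
  have hwA := (Jc_mem w).1
  have h0 : w.1.card ≠ 0 := fun h => (Jc_mem w).2.1 (card_eq_zero.1 h)
  have h1 : w.1.card ≠ 1 := by
    intro h
    obtain ⟨x, hx⟩ := card_eq_one.1 h
    rw [hx] at hwA
    exact hns x hwA
  have h2 : w.1.card = 2 := by omega
  obtain ⟨x, y, hxy, hw⟩ := card_eq_two.1 h2
  have hxw : x ∈ w.1 := by rw [hw]; exact mem_insert_self _ _
  have hyw : y ∈ w.1 := by rw [hw]; exact mem_insert_of_mem (mem_singleton_self _)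
  have hm : ({x, y} : Finset α) ∈ A := by rw [← hw]; exact hwA
  have hP : ∀ G : {G // G ∈ J A}, G ≠ w → (x ∈ G.1 ∨ y ∈ G.1) →
      ¬ (x ∈ G.1 ∧ y ∈ G.1) ∧ ∃ G' ∈ J A, G' ⊂ G.1 := by
    intro G hne hor
    refine pair_gen hU hns hxy hm (hf x (Jc_sup w hxw)) (hf y (Jc_sup w hyw)) G.2 ?_ hor
    intro h
    exact hne (Subtype.ext (h.trans hw.symm))
  have hedge : ∀ e ∈ EE A, w ∈ e → ∃ a, (a = x ∨ a = y) ∧ e = g A a := by
    intro e he hwe
    have h4 : e ∈ (EE A).filter (fun e => w ∈ e) := mem_filter.2 ⟨he, hwe⟩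
    rw [hE, mem_image] at h4
    obtain ⟨a, ha, rfl⟩ := h4
    rw [hw, mem_insert, mem_singleton] at ha
    exact ⟨a, ha, rfl⟩
  refine ⟨?_, h2, ?_, ?_⟩
  · rintro ⟨v, hv⟩
    have h4 := (Dm_iff w v).1 hv
    exact (hP v (fun h => hv.1 h.symm) (Or.inl (h4.1 hxw))).1 ⟨h4.1 hxw, h4.1 hyw⟩
  · intro e he hwe f hf' hwf hef G hGe hGf
    by_contra hne
    obtain ⟨a, ha, rfl⟩ := hedge e he hwe
    obtain ⟨b, hb, rfl⟩ := hedge f hf' hwf
    have h4 := (Jc_g G a).1 hGe
    have h5 := (Jc_g G b).1 hGf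
    have hab : a ≠ b := fun h => hef (by rw [h])
    rcases ha with rfl | rfl <;> rcases hb with rfl | rfl
    · exact hab rfl
    · exact (hP G hne (Or.inl h4)).1 ⟨h4, h5⟩
    · exact (hP G hne (Or.inl h5)).1 ⟨h5, h4⟩
    · exact hab rfl
  · intro e he hwe G hGe hne
    obtain ⟨a, ha, rfl⟩ := hedge e he hwe
    have h4 := (Jc_g G a).1 hGe
    have h5 : x ∈ G.1 ∨ y ∈ G.1 := by
      rcases ha with rfl | rfl
      · exact Or.inl h4
      · exact Or.inr h4
    obtain ⟨G', hG', hss⟩ := (hP G hne h5).2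
    exact ⟨⟨G', hG'⟩, (Dm_iff ⟨G', hG'⟩ G).2 hss⟩

end H70G3

end S_Je

section S_Jf

/-!
# Row Jf : choosing the data

exists_triple: edges at y have at most 3 elements, at least three edges, no x ≠ y is in all of them.  Take an edge e1 at y, e1 ≠ {y} (as {y} ∉ E), e1 = {y,a} or {y,a,b}.  There is an edge e2 at y
 with a ∉ e2.  If e1 ∩ e2 = {y} take any third edge at y.  Otherwise e1 = {y,a,b}, b ∈ e2.  There is an edge e3 at y with b ∉ e3 (so e3 ≠ e1, e2).  Then {e1,e2,e3} works: a vertex x ≠ y in all three is in e1,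
 so x = a (a ∉ e2) or x = b (b ∉ e3).
exists_ctx: ctr w := the dominator if isW w, else w; rep v := some w with Dm w v if isC v, else v.  tri w := for isW w: three edges at w (huniq, hacyc: isW w ⇒ ¬ isL, ¬ isC; hdeg gives 3 ≤ card, since the right
 alternative has ¬ isW): Finset.exists_subset_card_eq; for isR w: if 3 ≤ card: exists_triple (no x ≠ w is in all edges at w since ¬ isW w), otherwise all edges at w; else ∅.
 (w with isW: {w} ∈ E would give v ∈ {w}.  isW w and isC w is excluded by hacyc.)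
-/

open Finset Classical

universe u

namespace H70G3
variable {V : Type u} [Fintype V] [DecidableEq V]

theorem exists_triple {E : Finset (Finset V)} (h3 : ∀ e ∈ E, e.card ≤ 3) {y : V}
    (hL : ({y} : Finset V) ∉ E) (hd : 3 ≤ (E.filter (fun e => y ∈ e)).card)
    (hn : ∀ x, x ≠ y → ∃ e ∈ E, y ∈ e ∧ x ∉ e) :
    ∃ t ⊆ E.filter (fun e => y ∈ e), t.card = 3 ∧ ∀ x, x ≠ y → ∃ e ∈ t, x ∉ e := by
  have hne : (E.filter (fun e => y ∈ e)).Nonempty := by
    rw [← Finset.card_pos]; omega
  obtain ⟨e1, he1⟩ := hne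
  have he1' := mem_filter.1 he1
  have hex : ∃ a ∈ e1, a ≠ y := by
    by_contra hcon
    push Not at hcon
    apply hL
    have : e1 = {y} := by
      rw [Finset.eq_singleton_iff_unique_mem]
      exact ⟨he1'.2, hcon⟩
    rw [← this]
    exact he1'.1
  obtain ⟨a, ha, hay⟩ := hex
  obtain ⟨e2, he2, hy2, ha2⟩ := hn a hay
  have he2' : e2 ∈ E.filter (fun e => y ∈ e) := mem_filter.2 ⟨he2, hy2⟩
  have h12 : e1 ≠ e2 := by
    rintro rfl
    exact ha2 ha
  by_cases hb : ∀ x, x ≠ y → x ∈ e1 → x ∉ e2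
  · have hlt : ({e1, e2} : Finset (Finset V)).card < (E.filter (fun e => y ∈ e)).card := by
      have : ({e1, e2} : Finset (Finset V)).card ≤ 2 := Finset.card_le_two
      omega
    obtain ⟨e3, he3, hn3⟩ := Finset.exists_mem_notMem_of_card_lt_card hlt
    simp only [mem_insert, mem_singleton, not_or] at hn3
    refine ⟨{e1, e2, e3}, ?_, ?_, ?_⟩
    · intro x hx
      simp only [mem_insert, mem_singleton] at hx
      rcases hx with rfl | rfl | rfl <;> assumption
    · rw [card_eq_three]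
      exact ⟨e1, e2, e3, h12, fun h => hn3.1 h.symm, fun h => hn3.2 h.symm, rfl⟩
    · intro x hx
      by_cases hx1 : x ∈ e1
      · exact ⟨e2, by simp, hb x hx hx1⟩
      · exact ⟨e1, by simp, hx1⟩
  · push Not at hb
    obtain ⟨b, hby, hb1, hb2⟩ := hb
    have hab : a ≠ b := by
      rintro rfl
      exact ha2 hb2
    have he1e : e1 = {y, a, b} := by
      symm
      apply eq_of_subset_of_card_le
      · intro x hx
        simp only [mem_insert, mem_singleton] at hx
        rcases hx with rfl | rfl | rfl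
        · exact he1'.2
        · exact ha
        · exact hb1
      · have : ({y, a, b} : Finset V).card = 3 := by
          rw [card_eq_three]
          exact ⟨y, a, b, hay.symm, hby.symm, hab, rfl⟩
        rw [this]
        exact h3 e1 he1'.1
    obtain ⟨e3, he3, hy3, hb3⟩ := hn b hby
    have he3' : e3 ∈ E.filter (fun e => y ∈ e) := mem_filter.2 ⟨he3, hy3⟩
    refine ⟨{e1, e2, e3}, ?_, ?_, ?_⟩
    · intro x hx
      simp only [mem_insert, mem_singleton] at hx
      rcases hx with rfl | rfl | rfl <;> assumption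
    · rw [card_eq_three]
      refine ⟨e1, e2, e3, h12, ?_, ?_, rfl⟩
      · rintro rfl
        exact hb3 hb1
      · rintro rfl
        exact hb3 hb2
    · intro x hx
      by_cases hx1 : x ∈ e1
      · rw [he1e] at hx1
        simp only [mem_insert, mem_singleton] at hx1
        rcases hx1 with h | h | h
        · exact absurd h hx
        · exact ⟨e2, by simp, by rw [h]; exact ha2⟩
        · exact ⟨e3, by simp, by rw [h]; exact hb3⟩
      · exact ⟨e1, by simp, hx1⟩

theorem exists_ctx {E : Finset (Finset V)} (h3 : ∀ e ∈ E, e.card ≤ 3)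
    (hcov : ∀ v, ∃ e ∈ E, v ∈ e) (huniq : ∀ w v v', Dm E w v → Dm E w v' → v = v')
    (hacyc : ∀ w v x, Dm E w v → ¬ Dm E v x)
    (hdeg : ∀ w, 3 ≤ (E.filter (fun e => w ∈ e)).card ∨
      (¬ isW E w ∧ (E.filter (fun e => w ∈ e)).card = 2 ∧
        (∀ e ∈ E, w ∈ e → ∀ f ∈ E, w ∈ f → e ≠ f → ∀ x ∈ e, x ∈ f → x = w) ∧
        (∀ e ∈ E, w ∈ e → ∀ x ∈ e, x ≠ w → isC E x))) :
    ∃ c : Ctx V, c.E = E := by
  have hctr : ∀ w : V, ∃ v0 : V, ∀ v, Dm E w v → v0 = v := by
    intro w
    by_cases h : isW E w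
    · obtain ⟨v0, hv0⟩ := h
      exact ⟨v0, fun v hv => huniq w v0 v hv0 hv⟩
    · exact ⟨w, fun v hv => absurd ⟨v, hv⟩ h⟩
  have hrep : ∀ v : V, ∃ w : V, isC E v → Dm E w v := by
    intro v
    by_cases h : isC E v
    · obtain ⟨w, hw⟩ := h
      exact ⟨w, fun _ => hw⟩
    · exact ⟨v, fun h' => absurd h' h⟩
  have htri : ∀ w : V, ∃ t : Finset (Finset V), (∀ e ∈ t, e ∈ E ∧ w ∈ e) ∧
      (isW E w → t.card = 3) ∧
      (isR E w → (t.card = 3 ∧ ∀ x, x ≠ w → ∃ e ∈ t, x ∉ e) ∨
        (t.card = 2 ∧ (∀ e ∈ E, w ∈ e → e ∈ t) ∧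
          (∀ e ∈ t, ∀ f ∈ t, e ≠ f → ∀ x ∈ e, x ∈ f → x = w) ∧
          (∀ e ∈ t, ∀ x ∈ e, x ≠ w → isC E x))) := by
    intro w
    by_cases hW : isW E w
    · have hcard : 3 ≤ (E.filter (fun e => w ∈ e)).card := by
        rcases hdeg w with h | h
        · exact h
        · exact absurd hW h.1
      obtain ⟨t, ht, htc⟩ := Finset.exists_subset_card_eq hcard
      refine ⟨t, fun e he => ?_, fun _ => htc, fun hR => absurd hW hR.2.2⟩
      exact mem_filter.1 (ht he)
    · by_cases hR : isR E w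
      · rcases hdeg w with h | h
        · obtain ⟨t, ht, htc, htx⟩ := exists_triple h3 hR.1 h (by
            intro x hx
            by_contra hcon
            push Not at hcon
            exact hW ⟨x, hx.symm, hcon⟩)
          exact ⟨t, fun e he => mem_filter.1 (ht he), fun h' => absurd h' hW,
            fun _ => Or.inl ⟨htc, htx⟩⟩
        · obtain ⟨-, hc2, hd1, hd2⟩ := h
          refine ⟨E.filter (fun e => w ∈ e), fun e he => mem_filter.1 he, fun h' => absurd h' hW,
            fun _ => Or.inr ⟨hc2, fun e he hwe => mem_filter.2 ⟨he, hwe⟩, ?_, ?_⟩⟩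
          · intro e he f hf
            have he' := mem_filter.1 he
            have hf' := mem_filter.1 hf
            exact hd1 e he'.1 he'.2 f hf'.1 hf'.2
          · intro e he
            have he' := mem_filter.1 he
            exact hd2 e he'.1 he'.2
      · exact ⟨∅, by simp, fun h' => absurd h' hW, fun h' => absurd h' hR⟩
  choose ctr hctr using hctr
  choose rep hrep using hrep
  choose tri htri1 htri2 htri3 using htri
  exact ⟨{ E := E, ctr := ctr, rep := rep, tri := tri, card_le := h3, cov := hcov,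
           ctr_spec := hctr, acyc := hacyc, rep_spec := hrep, tri_sub := htri1,
           tri_W := htri2, tri_R := htri3 }, rfl⟩

end H70G3

end S_Jf

section S_Jg

/-!
# Row Jg : families with ∅, without singletons, all frequencies at most one half

Take c from `exists_ctx` with E := EE A (`card_le_EE`, `cov_EE`, `uniq_EE`, `acyc_EE`, `deg_EE`).  hP: e = g A x, x ∈ A.sup id: card D = card A (`card_D`; c.D = Dset c.E), card (filter (e ⊆ ·)) = card {B : x ∉ B}
 = card A - f(x) (`card_sup`), and 2 f(x) ≤ card A.  `Ctx.all_loops`: every G ∈ J A is a loop: {G} ∈ EE A.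
So every set of vertices is in D: D = univ, card D = 2^n, n = card {G // G ∈ J A}.
Suppose A ≠ {∅}. Then there is B ∈ A, B ≠ ∅, so some G ∈ J A (`exists_J`). card G.1 ≥ 2 (nonempty; not a singleton by hns).  {G} = g A z for some z ∈ A.sup id, z ∈ G.1; take x ∈ G.1, x ≠ z:
 g A x ≠ g A z (`g_inj`), G ∈ g A x, so card (g A x) ≥ 2.  The number of S ⊇ g A x is 2^(n - card (g A x)) ≤ 2^(n-2), and hP: 2^n ≤ 2 * 2^(n-2): contradiction.
 (Simpler: two different G, G' ∈ g A x; the map S ↦ S is not needed: the four sets S \ {G,G'} ∪ subset: card {S : G, G' ∈ S} * 4 = 2^n.)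
-/

open Finset Classical

universe u

namespace H70G3
variable {α : Type u} [DecidableEq α]

/-- two different points lie together in a quarter of the sets -/
private lemma Jg_count {V : Type u} [Fintype V] [DecidableEq V] {a b : V} (hab : a ≠ b)
    (h : (univ : Finset (Finset V)).card ≤
      2 * ((univ : Finset (Finset V)).filter (fun S => a ∈ S ∧ b ∈ S)).card) : False := by
  obtain ⟨P, hP⟩ : ∃ P : Finset (Finset V), P = univ.filter (fun S => a ∈ S ∧ b ∈ S) := ⟨_, rfl⟩
  rw [← hP] at h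
  have hmem : ∀ S, S ∈ P ↔ a ∈ S ∧ b ∈ S := by
    intro S
    rw [hP, mem_filter]
    exact ⟨fun h => h.2, fun h => ⟨mem_univ _, h⟩⟩
  have hi : (P.image (fun S => S.erase a)).card = P.card := by
    apply Finset.card_image_of_injOn
    intro S hS T hT hST
    have h1 := ((hmem S).1 hS).1
    have h2 := ((hmem T).1 hT).1
    have h3 : S.erase a = T.erase a := hST
    rw [← Finset.insert_erase h1, ← Finset.insert_erase h2, h3]
  have hd : Disjoint P (P.image (fun S => S.erase a)) := by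
    rw [Finset.disjoint_left]
    intro S hS hS'
    obtain ⟨T, -, rfl⟩ := mem_image.1 hS'
    have h1 := ((hmem _).1 hS).1
    exact (Finset.notMem_erase a T) h1
  have hc : (P ∪ P.image (fun S => S.erase a)).card = P.card + P.card := by
    rw [Finset.card_union_of_disjoint hd, hi]
  have hne : (∅ : Finset V) ∉ P ∪ P.image (fun S => S.erase a) := by
    intro h0
    rcases mem_union.1 h0 with h0 | h0
    · have h1 := ((hmem _).1 h0).1
      exact absurd h1 (Finset.notMem_empty a)
    · obtain ⟨T, hT, hT0⟩ := mem_image.1 h0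
      have h1 := ((hmem T).1 hT).2
      have h2 : b ∈ T.erase a := Finset.mem_erase.2 ⟨hab.symm, h1⟩
      have h3 : T.erase a = ∅ := hT0
      rw [h3] at h2
      exact absurd h2 (Finset.notMem_empty b)
  have hlt : (P ∪ P.image (fun S => S.erase a)).card < (univ : Finset (Finset V)).card := by
    apply Finset.card_lt_card
    rw [Finset.ssubset_iff_subset_ne]
    refine ⟨Finset.subset_univ _, fun h => ?_⟩
    rw [h] at hne
    exact hne (mem_univ _)
  omega

theorem eq_singleton_empty {A : Finset (Finset α)} (hU : UC A) (h0 : ∅ ∈ A) (hs : Sep A)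
    (hns : ∀ x, ({x} : Finset α) ∉ A)
    (h3 : ∀ x ∈ A.sup id, ((J A).filter (fun G => x ∈ G)).card ≤ 3)
    (hf : ∀ x ∈ A.sup id, 2 * (A.filter (fun B => x ∈ B)).card ≤ A.card) : A = {∅} := by
  obtain ⟨c, hc⟩ := exists_ctx (E := EE A) (card_le_EE h3) cov_EE (uniq_EE hU hs h3 hns)
    (acyc_EE hU hs h3 hns) (deg_EE hU hs hns hf)
  have hD : c.D = Dset (EE A) := by
    unfold Ctx.D
    rw [hc]
  have hPx : ∀ x ∈ A.sup id,
      (Dset (EE A)).card ≤ 2 * ((Dset (EE A)).filter (fun S => g A x ⊆ S)).card := by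
    intro x hx
    rw [card_D hU h0, card_sup hU h0 hx]
    have h1 := hf x hx
    have h2 := Finset.card_filter_add_card_filter_not (s := A) (fun B => x ∈ B)
    omega
  have hP : ∀ e ∈ c.E, c.D.card ≤ 2 * (c.D.filter (fun S => e ⊆ S)).card := by
    intro e he
    rw [hc] at he
    unfold EE at he
    obtain ⟨x, hx, rfl⟩ := mem_image.1 he
    rw [hD]
    exact hPx x hx
  have hL : ∀ G : {G // G ∈ J A}, ({G} : Finset {G // G ∈ J A}) ∈ EE A := by
    intro G
    have h1 := c.all_loops hP G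
    rw [hc] at h1
    exact h1
  have hDu : Dset (EE A) = univ := by
    apply Finset.eq_univ_of_forall
    intro S
    unfold Dset
    rw [mem_filter]
    refine ⟨mem_univ _, ?_⟩
    intro v hv
    exact ⟨{v}, hL v, mem_singleton_self v, by
      intro w hw
      rw [mem_singleton] at hw
      rw [hw]
      exact hv⟩
  -- no join-irreducible members
  have hno : ∀ G : {G // G ∈ J A}, False := by
    intro G
    have h1 := hL G
    unfold EE at h1
    obtain ⟨z, hz, hgz⟩ := mem_image.1 h1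
    have hzG : z ∈ G.1 := by
      have : G ∈ g A z := by
        rw [hgz]
        exact mem_singleton_self G
      exact (Jc_g G z).1 this
    have hns' : ∃ x ∈ G.1, x ≠ z := by
      by_contra hcon
      push Not at hcon
      have h2 : G.1 = {z} := Finset.eq_singleton_iff_unique_mem.2 ⟨hzG, hcon⟩
      have h4 := (Jc_mem G).1
      rw [h2] at h4
      exact hns z h4
    obtain ⟨x, hx, hxz⟩ := hns'
    have hxs := Jc_sup G hx
    have hGx : G ∈ g A x := (Jc_g G x).2 hx
    have hG' : ∃ G' ∈ g A x, G' ≠ G := by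
      by_contra hcon
      push Not at hcon
      have h2 : g A x = {G} := Finset.eq_singleton_iff_unique_mem.2 ⟨hGx, hcon⟩
      exact hxz (g_inj hU hs hxs hz (h2.trans hgz.symm))
    obtain ⟨G', hG'x, hne⟩ := hG'
    apply Jg_count hne
    have h2 := hPx x hxs
    rw [hDu] at h2
    refine le_trans h2 ?_
    apply Nat.mul_le_mul_left
    apply Finset.card_le_card
    intro S hS
    have h4 := (mem_filter.1 hS).2
    exact mem_filter.2 ⟨mem_univ _, h4 hG'x, h4 hGx⟩
  -- hence only the empty set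
  refine Finset.eq_singleton_iff_unique_mem.2 ⟨h0, fun B hB => ?_⟩
  by_contra hne
  obtain ⟨x, hx⟩ := Finset.nonempty_iff_ne_empty.2 hne
  obtain ⟨G, hG, -, -⟩ := exists_J hU hB hx
  exact hno ⟨G, hG⟩

end H70G3

end S_Jg

section S_Jh

/-!
# Row Jh : removing singletons; ∅ ∈ A

power_of_half: strong induction on card A.  If no singleton is in A: `eq_singleton_empty` gives A = {∅}, sup = ∅, powerset ∅ = {∅}.
Let {x} ∈ A.  B ↦ insert x B maps {B : x ∉ B} injectively to {B : x ∈ B}, so f(x) ≥ card A / 2, hence equality and every B ∈ A with x ∈ B has B.erase x ∈ A.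
A' := A.filter (x ∉ ·).  card A = 2 card A' (so card A' < card A), A' is union-closed, ∅ ∈ A', A = A' ∪ A'.image (insert x).  A'.sup id = (A.sup id).erase x (z ∈ B ∈ A, z ≠ x ⇒ z ∈ B.erase x ∈ A').
Sep A': y, z ∈ A'.sup id separated by B ∈ A: B.erase x ∈ A' separates (y, z ≠ x).
J A' ⊆ J A: G ∈ A', JI in A': if B ∪ C = G, B, C ∈ A then x ∉ B, C so B, C ∈ A'.   So h3 passes to A'.
frequencies: for z ∈ A'.sup id: f_A(z) = 2 f_A'(z), so 2 f_A'(z) ≤ card A'.
By induction A' = (A'.sup id).powerset = ((A.sup id).erase x).powerset, so A = (A.sup id).powerset (x ∈ A.sup id; Finset.powerset_insert).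
-/

open Finset Classical

universe u

namespace H70G3
variable {α : Type u} [DecidableEq α]

private theorem Jh_aux (n : ℕ) : ∀ A : Finset (Finset α), A.card = n → UC A → ∅ ∈ A → Sep A →
    (∀ x ∈ A.sup id, ((J A).filter (fun G => x ∈ G)).card ≤ 3) →
    (∀ x ∈ A.sup id, 2 * (A.filter (fun B => x ∈ B)).card ≤ A.card) →
    A = (A.sup id).powerset := by
  induction n using Nat.strong_induction_on with
  | _ n ih =>
  intro A hn hU h0 hs h3 hf
  by_cases hns : ∀ x, ({x} : Finset α) ∉ A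
  · have h := eq_singleton_empty hU h0 hs hns h3 hf
    have h1 : A.sup id = ∅ := by rw [h, Finset.sup_singleton, id]
    rw [h1, Finset.powerset_empty]
    exact h
  · push Not at hns
    obtain ⟨x, hx⟩ := hns
    have hins : ∀ B ∈ A, insert x B ∈ A := fun B hB => by
      have h1 := hU {x} hx B hB
      rwa [← Finset.insert_eq] at h1
    have hxs : x ∈ A.sup id := Finset.mem_sup.2 ⟨{x}, hx, Finset.mem_singleton_self x⟩
    set A0 := A.filter (fun B => x ∉ B) with hA0
    have mem0 : ∀ B, B ∈ A0 ↔ B ∈ A ∧ x ∉ B := fun B => by rw [hA0, Finset.mem_filter]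
    have hinj : ∀ B ∈ A0, ∀ C ∈ A0, insert x B = insert x C → B = C := fun B hB C hC h => by
      rw [← Finset.erase_insert ((mem0 B).1 hB).2, h, Finset.erase_insert ((mem0 C).1 hC).2]
    have hsub : A0.image (insert x) ⊆ A.filter (fun B => x ∈ B) := by
      intro B hB
      obtain ⟨C, hC, rfl⟩ := Finset.mem_image.1 hB
      exact Finset.mem_filter.2 ⟨hins C ((mem0 C).1 hC).1, Finset.mem_insert_self x C⟩
    have hci : (A0.image (insert x)).card = A0.card := Finset.card_image_of_injOn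
      (fun B hB C hC h => hinj B hB C hC h)
    have hsum : (A.filter (fun B => x ∈ B)).card + A0.card = A.card :=
      Finset.card_filter_add_card_filter_not (fun B => x ∈ B)
    have hle := Finset.card_le_card hsub
    have hfx := hf x hxs
    have heq : A0.image (insert x) = A.filter (fun B => x ∈ B) :=
      Finset.eq_of_subset_of_card_le hsub (by omega)
    have hE : ∀ B ∈ A, B.erase x ∈ A0 := fun B hB => by
      by_cases hxB : x ∈ B
      · have h1 : B ∈ A0.image (insert x) := by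
          rw [heq]
          exact Finset.mem_filter.2 ⟨hB, hxB⟩
        obtain ⟨C, hC, rfl⟩ := Finset.mem_image.1 h1
        rwa [Finset.erase_insert ((mem0 C).1 hC).2]
      · rw [Finset.erase_eq_of_notMem hxB]
        exact (mem0 B).2 ⟨hB, hxB⟩
    have hpos : 0 < A0.card := Finset.card_pos.2 ⟨∅, (mem0 ∅).2 ⟨h0, Finset.notMem_empty x⟩⟩
    have hcard : A.card = 2 * A0.card := by omega
    have hlt : A0.card < n := by omega
    have hsup : A0.sup id = (A.sup id).erase x := by
      ext z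
      rw [Finset.mem_erase, Finset.mem_sup, Finset.mem_sup]
      constructor
      · rintro ⟨B, hB, hz⟩
        refine ⟨?_, B, ((mem0 B).1 hB).1, hz⟩
        rintro rfl
        exact ((mem0 B).1 hB).2 hz
      · rintro ⟨hzx, B, hB, hz⟩
        exact ⟨B.erase x, hE B hB, Finset.mem_erase.2 ⟨hzx, hz⟩⟩
    have hU0 : UC A0 := fun X hX Y hY => by
      rw [mem0] at hX hY ⊢
      refine ⟨hU X hX.1 Y hY.1, ?_⟩
      rw [Finset.mem_union]
      exact fun h => h.elim hX.2 hY.2
    have hs0 : Sep A0 := by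
      intro y hy z hz hyz
      rw [hsup, Finset.mem_erase] at hy hz
      obtain ⟨S, hS, h⟩ := hs y hy.2 z hz.2 hyz
      refine ⟨S.erase x, hE S hS, ?_⟩
      rcases h with ⟨h1, h2⟩ | ⟨h1, h2⟩
      · left
        exact ⟨Finset.mem_erase.2 ⟨hy.1, h1⟩, fun h => h2 (Finset.mem_of_mem_erase h)⟩
      · right
        exact ⟨Finset.mem_erase.2 ⟨hz.1, h1⟩, fun h => h2 (Finset.mem_of_mem_erase h)⟩
    have hJ : J A0 ⊆ J A := by
      intro G hG
      unfold J at hG ⊢
      rw [Finset.mem_filter] at hG ⊢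
      obtain ⟨hGA, hGne, hGji⟩ := hG
      refine ⟨((mem0 G).1 hGA).1, hGne, fun B hB C hC hBC => ?_⟩
      have hxG := ((mem0 G).1 hGA).2
      rw [← hBC, Finset.mem_union, not_or] at hxG
      exact hGji B ((mem0 B).2 ⟨hB, hxG.1⟩) C ((mem0 C).2 ⟨hC, hxG.2⟩) hBC
    have h30 : ∀ z ∈ A0.sup id, ((J A0).filter (fun G => z ∈ G)).card ≤ 3 := by
      intro z hz
      rw [hsup, Finset.mem_erase] at hz
      exact (Finset.card_le_card (Finset.filter_subset_filter _ hJ)).trans (h3 z hz.2)
    have hf0 : ∀ z ∈ A0.sup id, 2 * (A0.filter (fun B => z ∈ B)).card ≤ A0.card := by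
      intro z hz
      rw [hsup, Finset.mem_erase] at hz
      have h1 := hf z hz.2
      have h2 : (A0.filter (fun B => z ∈ B)) ∪ (A0.filter (fun B => z ∈ B)).image (insert x) ⊆
          A.filter (fun B => z ∈ B) := by
        intro B hB
        rcases Finset.mem_union.1 hB with hB | hB
        · rw [Finset.mem_filter] at hB ⊢
          exact ⟨((mem0 B).1 hB.1).1, hB.2⟩
        · obtain ⟨C, hC, rfl⟩ := Finset.mem_image.1 hB
          rw [Finset.mem_filter] at hC ⊢
          exact ⟨hins C ((mem0 C).1 hC.1).1, Finset.mem_insert_of_mem hC.2⟩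
      have h3' : Disjoint (A0.filter (fun B => z ∈ B))
          ((A0.filter (fun B => z ∈ B)).image (insert x)) := by
        rw [Finset.disjoint_left]
        intro B hB hB'
        obtain ⟨C, hC, rfl⟩ := Finset.mem_image.1 hB'
        rw [Finset.mem_filter] at hB
        exact ((mem0 _).1 hB.1).2 (Finset.mem_insert_self x C)
      have h4 : ((A0.filter (fun B => z ∈ B)).image (insert x)).card =
          (A0.filter (fun B => z ∈ B)).card := Finset.card_image_of_injOn
        (fun B hB C hC h => hinj B (Finset.mem_of_mem_filter B hB) C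
          (Finset.mem_of_mem_filter C hC) h)
      have h5 := Finset.card_le_card h2
      rw [Finset.card_union_of_disjoint h3', h4] at h5
      omega
    have key := ih A0.card hlt A0 rfl hU0 ((mem0 ∅).2 ⟨h0, Finset.notMem_empty x⟩) hs0 h30 hf0
    rw [hsup] at key
    ext B
    rw [Finset.mem_powerset]
    constructor
    · intro hB
      exact Finset.le_sup (f := id) hB
    · intro hB
      have h1 : B.erase x ∈ A0 := by
        rw [key, Finset.mem_powerset]
        exact Finset.erase_subset_erase x hB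
      have h2 := ((mem0 _).1 h1).1
      by_cases hxB : x ∈ B
      · have h4 := hins _ h2
        rwa [Finset.insert_erase hxB] at h4
      · rwa [Finset.erase_eq_of_notMem hxB] at h2

theorem power_of_half (A : Finset (Finset α)) (hU : UC A) (h0 : ∅ ∈ A) (hs : Sep A)
    (h3 : ∀ x ∈ A.sup id, ((J A).filter (fun G => x ∈ G)).card ≤ 3)
    (hf : ∀ x ∈ A.sup id, 2 * (A.filter (fun B => x ∈ B)).card ≤ A.card) :
    A = (A.sup id).powerset := by
  exact Jh_aux A.card A rfl hU h0 hs h3 hf

end H70G3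

end S_Jh

section S_Ji

/-!
# Row Ji : the theorem

Given a generating family G ⊆ A (every B ∈ A is F.sup id for some F ⊆ G), every x in at most three members of G.
Case ∅ ∈ A: J A ⊆ G (`JI_mem_of_sup`: B ∈ J A, B = F.sup id, F ⊆ G ⊆ A, so B ∈ F ⊆ G), so h3 holds for J A.  If the conclusion fails then all 2 f(x) ≤ card A and `power_of_half` gives A = powerset: excluded.
Case ∅ ∉ A: A' := insert ∅ A: union-closed, ∅ ∈ A', same sup, Sep A' (from Sep A), J A' ⊆ G: B ∈ J A' is ≠ ∅, so B ∈ A, B = F.sup id, F ⊆ G ⊆ A ⊆ A', `JI_mem_of_sup` for A'.  f_A'(x) = f_A(x) for all x; card A' = card A + 1.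
 If 2 f(x) ≤ card A for all x then 2 f_A'(x) ≤ card A', so A' = (A.sup id).powerset, card A' = 2^n with n = card (A.sup id) ≥ 1 (A nonempty and ∅ ∉ A), f_A'(x) = 2^(n-1), so 2 f(x) = 2^n = card A + 1 > card A: contradiction.
-/

open Finset Classical

universe u

namespace H70G3
variable {α : Type u} [DecidableEq α]

/-- the join-irreducible members lie in every generating family -/
theorem Ji_sub (A G : Finset (Finset α)) (hU : UC A) (h0 : ∅ ∈ A) (hGA : G ⊆ A)
    (hgen : ∀ B ∈ A, B ≠ ∅ → ∃ F ⊆ G, F.sup id = B) : J A ⊆ G := by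
  intro B hB
  obtain ⟨hBA, hJI⟩ := mem_filter.1 hB
  obtain ⟨F, hF, hs⟩ := hgen B hBA hJI.1
  exact hF (JI_mem_of_sup hU h0 (hF.trans hGA) hJI hs)

/-- half of the subsets of `S` contain `x` -/
theorem Ji_half {S : Finset α} {x : α} (hx : x ∈ S) :
    2 * (S.powerset.filter (fun B => x ∈ B)).card = S.powerset.card := by
  have h1 : S.powerset.filter (fun B => ¬ x ∈ B) = (S.erase x).powerset := by
    ext B
    rw [mem_filter, mem_powerset, mem_powerset, subset_erase]
  have h2 : (S.powerset.filter (fun B => x ∈ B)).card + (S.powerset.filter (fun B => ¬ x ∈ B)).card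
      = S.powerset.card := Finset.card_filter_add_card_filter_not _
  rw [h1] at h2
  have h3 : S.card = (S.erase x).card + 1 := by
    rw [card_erase_of_mem hx]
    have := card_pos.2 ⟨x, hx⟩
    omega
  have h4 : S.powerset.card = 2 * (S.erase x).powerset.card := by
    rw [card_powerset, card_powerset, h3, pow_succ]
    ring
  omega

theorem main (A G : Finset (Finset α)) (hA : A.Nonempty) (hU : ∀ X ∈ A, ∀ Y ∈ A, X ∪ Y ∈ A)
    (hs : ∀ x ∈ A.sup id, ∀ y ∈ A.sup id, x ≠ y →
      ∃ S ∈ A, (x ∈ S ∧ y ∉ S) ∨ (y ∈ S ∧ x ∉ S))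
    (hp : A ≠ (A.sup id).powerset) (hGA : G ⊆ A) (hgen : ∀ B ∈ A, ∃ F ⊆ G, F.sup id = B)
    (h3 : ∀ x ∈ A.sup id, (G.filter (fun B => x ∈ B)).card ≤ 3) :
    ∃ x ∈ A.sup id, A.card < 2 * (A.filter (fun B => x ∈ B)).card := by
  by_contra hcon
  push Not at hcon
  by_cases h0 : ∅ ∈ A
  · apply hp
    refine power_of_half A hU h0 hs ?_ hcon
    intro x hx
    exact (card_le_card (filter_subset_filter _
      (Ji_sub A G hU h0 hGA (fun B hB _ => hgen B hB)))).trans (h3 x hx)
  · obtain ⟨A', hA'⟩ : ∃ A', A' = insert ∅ A := ⟨_, rfl⟩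
    have hmem : ∀ B, B ∈ A' ↔ B = ∅ ∨ B ∈ A := by
      intro B
      rw [hA', mem_insert]
    have hsup : A'.sup id = A.sup id := by
      rw [hA', sup_insert]
      simp
    have h0' : ∅ ∈ A' := (hmem _).2 (Or.inl rfl)
    have hU' : UC A' := by
      intro X hX Y hY
      rcases (hmem X).1 hX with rfl | hX
      · rw [empty_union]
        exact hY
      · rcases (hmem Y).1 hY with rfl | hY
        · rw [union_empty]
          exact (hmem X).2 (Or.inr hX)
        · exact (hmem _).2 (Or.inr (hU X hX Y hY))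
    have hS' : Sep A' := by
      intro x hx y hy hxy
      rw [hsup] at hx hy
      obtain ⟨S, hS, h⟩ := hs x hx y hy hxy
      exact ⟨S, (hmem S).2 (Or.inr hS), h⟩
    have hJ' : J A' ⊆ G := by
      refine Ji_sub A' G hU' h0' (fun B hB => (hmem B).2 (Or.inr (hGA hB))) ?_
      intro B hB hB0
      rcases (hmem B).1 hB with h | h
      · exact absurd h hB0
      · exact hgen B h
    have hf : ∀ x, (A'.filter (fun B => x ∈ B)).card = (A.filter (fun B => x ∈ B)).card := by
      intro x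
      congr 1
      ext B
      rw [mem_filter, mem_filter, hmem]
      constructor
      · rintro ⟨h | h, hx⟩
        · rw [h] at hx
          simp at hx
        · exact ⟨h, hx⟩
      · rintro ⟨h, hx⟩
        exact ⟨Or.inr h, hx⟩
    have hc : A'.card = A.card + 1 := by
      rw [hA', card_insert_of_notMem h0]
    have hpow := power_of_half A' hU' h0' hS' (by
      intro x hx
      rw [hsup] at hx
      exact (card_le_card (filter_subset_filter _ hJ')).trans (h3 x hx)) (by
      intro x hx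
      rw [hsup] at hx
      rw [hf, hc]
      exact (hcon x hx).trans (Nat.le_succ _))
    obtain ⟨B, hB⟩ := hA
    have hBne : B.Nonempty := by
      rw [nonempty_iff_ne_empty]
      rintro rfl
      exact h0 hB
    obtain ⟨x, hx⟩ := hBne
    have hxS : x ∈ A.sup id := by
      rw [Finset.mem_sup]
      exact ⟨B, hB, hx⟩
    have h1 := Ji_half hxS
    rw [← hsup, ← hpow, hf, hc] at h1
    have h2 := hcon x hxS
    omega

end H70G3

end S_Ji
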